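import Mathlib

set_option autoImplicit false

/-!
# Project NR (helper18): moments of eigenfunctions outside of the polygon inequality (MP_a28cf0_nt)

Frame derivatives on the upper half plane `HP`: `Rs c` raises and `Lw c` lowers the weight `c`;
`up b u`, `dn b u` are the `b`-fold derivatives of a function `u` of weight `0`.
-/

namespace Pool.Agent.K1H18.NR

open MeasureTheory Filter Topology Complex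
open scoped ContDiff

noncomputable section

/-- the open upper half plane -/
def HP : Set ℂ := {z | 0 < z.im}

/-- `∂x` -/
def px (u : ℂ → ℂ) (z : ℂ) : ℂ := fderiv ℝ u z 1

/-- `∂y` -/
def py (u : ℂ → ℂ) (z : ℂ) : ℂ := fderiv ℝ u z I

/-- raising operator in weight `c` -/
def Rs (c : ℂ) (u : ℂ → ℂ) (z : ℂ) : ℂ := (z.im : ℂ) * (I * px u z + py u z) + c * u z

/-- lowering operator in weight `c` -/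
def Lw (c : ℂ) (u : ℂ → ℂ) (z : ℂ) : ℂ := (z.im : ℂ) * (I * px u z - py u z) + c * u z

/-- the `b`-fold raising of a function of weight `0`; it has weight `b` -/
def up : ℕ → (ℂ → ℂ) → ℂ → ℂ
  | 0, u => u
  | b + 1, u => Rs (b : ℂ) (up b u)

/-- the `b`-fold lowering of a function of weight `0`; it has weight `-b` -/
def dn : ℕ → (ℂ → ℂ) → ℂ → ℂ
  | 0, u => u
  | b + 1, u => Lw (-(b : ℂ)) (dn b u)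

/-- smooth on the upper half plane -/
def Sm (u : ℂ → ℂ) : Prop := ContDiffOn ℝ ∞ u HP

/-- `-y² (∂x² + ∂y²) u = (1/4 + s²) u` -/
def Sol (s : ℝ) (u : ℂ → ℂ) : Prop :=
  Sm u ∧ ∀ z ∈ HP, -((z.im : ℂ) ^ 2 * (px (px u) z + py (py u) z)) =
    ((1 / 4 + s ^ 2 : ℝ) : ℂ) * u z

/-- the Euler field `x ∂x + y ∂y` -/
def Eu (u : ℂ → ℂ) (z : ℂ) : ℂ := (z.re : ℂ) * px u z + (z.im : ℂ) * py u z

def sg (s : ℝ) (k : ℕ) : ℝ := s ^ 2 + ((k : ℝ) + 1 / 2) ^ 2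

/-- real valued -/
def IsRe (u : ℂ → ℂ) : Prop := ∀ z, (u z).im = 0

structure Cut (ρ : ℂ → ℝ) : Prop where
  sm : ContDiff ℝ ∞ ρ
  cs : HasCompactSupport ρ
  sub : tsupport ρ ⊆ HP
  nn : ∀ z, 0 ≤ ρ z
  le : ∀ z, ρ z ≤ 1

/-- `‖ρ^(b+1) up b u‖` in `L²(dx dy / y²)` -/
def Nm (ρ : ℂ → ℝ) (b : ℕ) (u : ℂ → ℂ) : ℝ :=
  Real.sqrt (∫ z, (ρ z ^ (b + 1) * ‖up b u z‖) ^ 2 / z.im ^ 2)

def JJ (ψ G f : ℂ → ℂ) (a b : ℕ) : ℂ :=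
  ∫ z, dn a ψ z * dn b G z * up (a + b) f z / (z.im : ℂ) ^ 2

/-! ### The pieces -/

/-- smoothness, locality, supports, conjugation -/
def S_SMO : Prop :=
  (∀ (c : ℂ) (u : ℂ → ℂ), Sm u → Sm (px u) ∧ Sm (py u) ∧ Sm (Rs c u) ∧ Sm (Lw c u) ∧ Sm (Eu u)) ∧
  (∀ u : ℂ → ℂ, Sm u → ∀ b : ℕ, Sm (up b u) ∧ Sm (dn b u)) ∧
  (∀ u v : ℂ → ℂ, (∀ z ∈ HP, u z = v z) → ∀ b : ℕ, ∀ z ∈ HP, up b u z = up b v z ∧ dn b u z = dn b v z) ∧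
  (∀ (u : ℂ → ℂ) (S : Set ℂ), IsClosed S → (∀ z, z ∉ S → u z = 0) → ∀ b : ℕ, ∀ z, z ∉ S →
    up b u z = 0 ∧ dn b u z = 0) ∧
  (∀ u : ℂ → ℂ, Sm u → IsRe u → ∀ b : ℕ, ∀ z ∈ HP, ‖dn b u z‖ = ‖up b u z‖)

/-- Leibniz' rule for the lowering operator -/
def S_LEI : Prop := ∀ (a b : ℕ) (F G : ℂ → ℂ), Sm F → Sm G → ∀ z ∈ HP,
  Lw (-((a : ℂ) + b)) (fun w => dn a F w * dn b G w) z =
    dn (a + 1) F z * dn b G z + dn a F z * dn (b + 1) G z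

/-- bounds for products -/
def S_PRD : Prop :=
  (∀ (m : ℕ) (z : ℂ), z ∈ HP → ∀ (F G : ℂ → ℂ), Sm F → Sm G → ∀ q r q' r' : ℝ, 0 ≤ q → 0 ≤ r →
    0 ≤ q' → 0 ≤ r' → (∀ b ≤ m, ‖dn b F z‖ ≤ q * r ^ b) → (∀ b ≤ m, ‖dn b G z‖ ≤ q' * r' ^ b) →
    ∀ b ≤ m, ‖dn b (fun w => F w * G w) z‖ ≤ (q * q') * (r + r') ^ b) ∧
  (∀ (b : ℕ) (z : ℂ), ‖dn b (fun _ => 1) z‖ ≤ 1 * (0 : ℝ) ^ b)

/-- lowering the derivatives of a solution -/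
def S_EIG : Prop := ∀ (s : ℝ) (u : ℂ → ℂ), Sol s u → ∀ p : ℕ, ∀ z ∈ HP,
  Lw ((p : ℂ) + 1) (up (p + 1) u) z = ((sg s p : ℝ) : ℂ) * up p u z

/-- integration by parts -/
def S_IBP : Prop := ∀ (c : ℂ) (u v : ℂ → ℂ), Sm u → Sm v → ∀ S : Set ℂ, IsCompact S → S ⊆ HP →
  (∀ z, z ∉ S → u z = 0) →
  ∫ z, Lw c u z * v z / (z.im : ℂ) ^ 2 = - ∫ z, u z * Lw (1 - c) v z / (z.im : ℂ) ^ 2

/-- the recursion -/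
def S_REC : Prop := ∀ (t : ℝ) (ψ G f : ℂ → ℂ), Sm ψ → Sm G → Sol t f → ∀ S : Set ℂ, IsCompact S →
  S ⊆ HP → (∀ z, z ∉ S → ψ z = 0) → ∀ a b : ℕ,
  JJ ψ G f a b * ((sg t (a + b) : ℝ) : ℂ) = -(JJ ψ G f (a + 1) b + JJ ψ G f a (b + 1))

/-- growth of the derivatives -/
def S_GRW : Prop := ∀ (ρ : ℂ → ℝ), Cut ρ → ∀ c : ℝ, 0 ≤ c →
  (∀ z ∈ HP, ‖Lw 0 (fun w => (ρ w : ℂ)) z‖ ≤ c) → ∀ (s : ℝ) (u : ℂ → ℂ), 0 ≤ s → Sol s u → ∀ b : ℕ,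
  Nm ρ (b + 1) u ≤ (s + (b + 1) + c * (2 * b + 4)) * Nm ρ b u

/-- commutation with `∂x` and with the Euler field -/
def S_COM : Prop :=
  (∀ u : ℂ → ℂ, Sm u → ∀ b : ℕ, ∀ z ∈ HP, up b (px u) z = px (up b u) z ∧
    up b (Eu u) z = Eu (up b u) z) ∧
  (∀ (s : ℝ) (u : ℂ → ℂ), Sol s u → Sol s (px u) ∧ Sol s (Eu u)) ∧
  (∀ u : ℂ → ℂ, IsRe u → IsRe (px u) ∧ IsRe (Eu u))

/-- pointwise bounds -/
def S_SUP : Prop := ∀ (ρ : ℂ → ℝ), Cut ρ → ∃ C : ℝ, 0 ≤ C ∧ ∀ u : ℂ → ℂ, Sm u → ∀ (b : ℕ) (z : ℂ),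
  ρ z = 1 → ‖up b u z‖ ≤ C * ((b : ℝ) + 3) ^ 2 * (Nm ρ b u + Nm ρ b (px u) + Nm ρ b (Eu u) +
    Nm ρ b (Eu (px u)) + Nm ρ b (px (px u)))

/-- the first derivatives of a solution -/
def S_BAS : Prop := ∀ (ρ ρ' : ℂ → ℝ), Cut ρ → Cut ρ' → (∀ z ∈ tsupport ρ, ρ' z = 1) →
  ∃ C : ℝ, 0 ≤ C ∧ ∀ (s : ℝ) (u : ℂ → ℂ), 0 ≤ s → Sol s u → IsRe u →
    Nm ρ 0 (px u) ≤ C * (1 + s) * Nm ρ' 0 u ∧ Nm ρ 0 (Eu u) ≤ C * (1 + s) * Nm ρ' 0 u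

/-- solving the recursion -/
def S_CMB : Prop := ∀ (T : ℕ → ℕ → ℂ) (σ : ℕ → ℝ) (t Q α β : ℝ) (M m : ℕ), 0 < t →
  (∀ p, t ^ 2 ≤ σ p) →
  (∀ a b, T a b * ((σ (a + b) : ℝ) : ℂ) = -(T (a + 1) b + T a (b + 1))) →
  0 ≤ Q → 0 ≤ α → α ≤ 1 → 0 ≤ β → β ≤ 1 →
  (∀ a ≤ M, ∀ b ≤ m, ‖T a b‖ ≤ Q * (α * t ^ 2) ^ a * (β * t ^ 2) ^ b) →
  ‖T 0 0‖ ≤ Q * ((m : ℝ) + 1) ^ M * (α ^ M + β ^ m)

/-- the choice of the parameters -/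
def S_ASY : Prop := ∀ (t S : ℕ → ℝ), Tendsto t atTop atTop → (∀ n, 0 ≤ S n) →
  Tendsto (fun n => (t n - S n) / Real.sqrt (t n * Real.log (t n))) atTop atTop →
  ∀ (C : ℝ) (D A : ℕ), 0 ≤ C → ∃ (M : ℕ) (m : ℕ → ℕ),
    (∀ᶠ n in atTop, 0 < t n ∧ S n ≤ t n ∧ (t n + C * ((m n : ℝ) + M + 3)) / t n ^ 2 ≤ 1 ∧
      (t n + C * ((m n : ℝ) + M + 3)) * (S n + C * ((m n : ℝ) + M + 3)) / t n ^ 2 ≤ 1) ∧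
    Tendsto (fun n => t n ^ A * ((m n : ℝ) + M + 3) ^ D * (1 + t n) ^ D * ((m n : ℝ) + 1) ^ M *
      (((t n + C * ((m n : ℝ) + M + 3)) / t n ^ 2) ^ M +
        ((t n + C * ((m n : ℝ) + M + 3)) * (S n + C * ((m n : ℝ) + M + 3)) / t n ^ 2) ^ (m n)))
      atTop (𝓝 0)

end

end Pool.Agent.K1H18.NR
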