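import Pool.Agent.K1H18.NR.Defs

/-! Project NR, piece ASY: the choice of the parameters. -/

set_option autoImplicit false

namespace Pool.Agent.K1H18.NR

open Filter Topology

namespace Asy

theorem core {τ S C y L : ℝ} {A D B M m : ℕ} (hB : B = A + 2 * D + 1) (hM : M = 4 * B)
    (hC : 0 ≤ C) (hS : 0 ≤ S) (hτ : ((M : ℝ) + 5) ^ 2 ≤ τ) (hl : 1 ≤ Real.log τ)
    (hl2 : Real.log τ ^ 2 ≤ τ) (hy : y = Real.sqrt (τ * Real.log τ)) (hL : L * y = τ - S)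
    (hLC : 16 * C ≤ L) (hLB : 4 * ((A + 2 * D + M + 1 : ℕ) : ℝ) ≤ L) (hm : m = ⌊y⌋₊) :
    (0 < τ ∧ S ≤ τ ∧ (τ + C * ((m : ℝ) + M + 3)) / τ ^ 2 ≤ 1 ∧
      (τ + C * ((m : ℝ) + M + 3)) * (S + C * ((m : ℝ) + M + 3)) / τ ^ 2 ≤ 1) ∧
    0 ≤ τ ^ A * ((m : ℝ) + M + 3) ^ D * (1 + τ) ^ D * ((m : ℝ) + 1) ^ M *
      (((τ + C * ((m : ℝ) + M + 3)) / τ ^ 2) ^ M +
        ((τ + C * ((m : ℝ) + M + 3)) * (S + C * ((m : ℝ) + M + 3)) / τ ^ 2) ^ m) ∧
    τ ^ A * ((m : ℝ) + M + 3) ^ D * (1 + τ) ^ D * ((m : ℝ) + 1) ^ M *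
      (((τ + C * ((m : ℝ) + M + 3)) / τ ^ 2) ^ M +
        ((τ + C * ((m : ℝ) + M + 3)) * (S + C * ((m : ℝ) + M + 3)) / τ ^ 2) ^ m) ≤
      4 ^ D * (256 ^ B + 2 ^ M) / τ := by
  have hM0 : (0 : ℝ) ≤ M := Nat.cast_nonneg _
  have hτ25 : 25 ≤ τ := by nlinarith
  have hτ0 : 0 < τ := by linarith
  have hτM : (M : ℝ) + 5 ≤ τ := by nlinarith
  have hy0 : 0 ≤ y := by rw [hy]; exact Real.sqrt_nonneg _
  have hy2 : y ^ 2 = τ * Real.log τ := by
    rw [hy, Real.sq_sqrt]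
    positivity
  have hττ : τ ≤ τ * Real.log τ := le_mul_of_one_le_right hτ0.le hl
  have hyM : (M : ℝ) + 5 ≤ y := by
    by_contra h
    push Not at h
    have h1 : y ^ 2 < ((M : ℝ) + 5) ^ 2 := pow_lt_pow_left₀ h hy0 (by norm_num)
    linarith
  have hlogτ : Real.log τ ≤ τ := (Real.log_le_sub_one_of_pos hτ0).trans (by linarith)
  have hyτ : y ≤ τ := by
    by_contra h
    push Not at h
    have h1 : τ ^ 2 < y ^ 2 := pow_lt_pow_left₀ h hτ0.le (by norm_num)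
    have h2 : τ * Real.log τ ≤ τ * τ := mul_le_mul_of_nonneg_left hlogτ hτ0.le
    rw [hy2, sq] at h1
    linarith
  have hm1 : (m : ℝ) ≤ y := by rw [hm]; exact Nat.floor_le hy0
  have hm2 : y < m + 1 := by rw [hm]; exact Nat.lt_floor_add_one y
  have hm0 : (0 : ℝ) ≤ m := Nat.cast_nonneg _
  obtain ⟨w, hw⟩ : ∃ w, w = (m : ℝ) + M + 3 := ⟨_, rfl⟩
  have hw0 : 0 ≤ w := by rw [hw]; positivity
  have hw1 : w ≤ 2 * y := by rw [hw]; linarith
  have hw2 : w ≤ 2 * τ := by linarith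
  rw [← hw]
  obtain ⟨X, hX⟩ : ∃ X, X = C * w := ⟨_, rfl⟩
  rw [← hX]
  have hX0 : 0 ≤ X := by rw [hX]; positivity
  have hL0 : 0 ≤ L := by linarith [mul_nonneg (by norm_num : (0:ℝ) ≤ 16) hC]
  have hX1 : X ≤ (τ - S) / 8 := by
    have h1 : C * w ≤ C * (2 * y) := mul_le_mul_of_nonneg_left hw1 hC
    have h2 : 16 * C * y ≤ L * y := mul_le_mul_of_nonneg_right hLC hy0
    rw [hX, ← hL]
    linarith
  have hSτ : S ≤ τ := by
    have : 0 ≤ L * y := mul_nonneg hL0 hy0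
    linarith
  obtain ⟨α, hα⟩ : ∃ α, α = (τ + X) / τ ^ 2 := ⟨_, rfl⟩
  obtain ⟨β, hβ⟩ : ∃ β, β = (τ + X) * (S + X) / τ ^ 2 := ⟨_, rfl⟩
  rw [← hα, ← hβ]
  have hα0 : 0 ≤ α := by rw [hα]; positivity
  have hβ0 : 0 ≤ β := by rw [hβ]; positivity
  have hα1 : α ≤ 2 / τ := by
    have h1 : X ≤ τ := by linarith
    rw [hα, div_le_div_iff₀ (by positivity) hτ0]
    have h2 : (τ + X) * τ ≤ (τ + τ) * τ := mul_le_mul_of_nonneg_right (by linarith) hτ0.le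
    calc (τ + X) * τ ≤ (τ + τ) * τ := h2
      _ = 2 * τ ^ 2 := by ring
  have hα2 : α ≤ 1 := hα1.trans (by rw [div_le_one hτ0]; linarith)
  have hβ1 : β ≤ 1 - (τ - S) / (2 * τ) := by
    have e1 : 1 - (τ - S) / (2 * τ) = (τ ^ 2 - (τ - S) * τ / 2) / τ ^ 2 := by
      field_simp
    rw [hβ, e1]
    refine div_le_div_of_nonneg_right ?_ (by positivity)
    obtain ⟨γ, hγ⟩ : ∃ γ, γ = τ - S := ⟨_, rfl⟩
    have hS' : S = τ - γ := by linarith
    rw [← hγ] at hX1 ⊢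
    have hγ0 : 0 ≤ γ := by linarith
    have hγ1 : γ ≤ τ := by linarith
    rw [hS']
    have h1 : (τ + X) * (τ - γ + X) ≤ (τ + γ / 8) * (τ - γ + γ / 8) :=
      mul_le_mul (by linarith) (by linarith) (by linarith) (by linarith)
    have h2 : (τ + γ / 8) * (τ - γ + γ / 8) = τ ^ 2 - 3 / 4 * (γ * τ) - 7 / 64 * γ ^ 2 := by ring
    have h3 := mul_nonneg hγ0 hτ0.le
    have h4 := sq_nonneg γ
    linarith
  have hβ2 : β ≤ 1 := hβ1.trans (by
    have : 0 ≤ (τ - S) / (2 * τ) := div_nonneg (by linarith) (by linarith)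
    linarith)
  -- the power of β
  have hβm : τ ^ (A + 2 * D + M + 1) * β ^ m ≤ 1 := by
    have h1 : β ≤ Real.exp (-((τ - S) / (2 * τ))) := by
      refine hβ1.trans ?_
      have := Real.add_one_le_exp (-((τ - S) / (2 * τ)))
      linarith
    have h2 : β ^ m ≤ Real.exp (-((τ - S) / (2 * τ))) ^ m := pow_le_pow_left₀ hβ0 h1 m
    have h3 : τ ^ (A + 2 * D + M + 1) = Real.exp (Real.log τ) ^ (A + 2 * D + M + 1) := by
      rw [Real.exp_log hτ0]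
    rw [← Real.exp_nat_mul] at h2 h3
    have h4 : ((A + 2 * D + M + 1 : ℕ) : ℝ) * Real.log τ ≤ m * ((τ - S) / (2 * τ)) := by
      rw [← hL, mul_div_assoc', le_div_iff₀ (by linarith)]
      have h5 : y / 2 ≤ m := by linarith
      have h6 : (L * y) * (y / 2) ≤ (L * y) * m :=
        mul_le_mul_of_nonneg_left h5 (mul_nonneg hL0 hy0)
      have h7 : (4 * ((A + 2 * D + M + 1 : ℕ) : ℝ)) * y ^ 2 ≤ L * y ^ 2 :=
        mul_le_mul_of_nonneg_right hLB (sq_nonneg _)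
      rw [hy2] at h7
      have h8 : L * (τ * Real.log τ) = L * y * y := by rw [← hy2]; ring
      rw [h8] at h7
      linarith
    calc τ ^ (A + 2 * D + M + 1) * β ^ m
        ≤ Real.exp (((A + 2 * D + M + 1 : ℕ) : ℝ) * Real.log τ) *
          Real.exp (m * (-((τ - S) / (2 * τ)))) := by
          rw [h3]
          exact mul_le_mul_of_nonneg_left h2 (Real.exp_nonneg _)
      _ = Real.exp (((A + 2 * D + M + 1 : ℕ) : ℝ) * Real.log τ +
          m * (-((τ - S) / (2 * τ)))) := (Real.exp_add _ _).symm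
      _ ≤ 1 := by
          rw [Real.exp_le_one_iff]
          linarith
  -- the power of α
  have hαM : (((m : ℝ) + 1) * α) ^ M ≤ (256 / τ) ^ B := by
    have h1 : ((m : ℝ) + 1) * α ≤ 4 * y / τ := by
      calc ((m : ℝ) + 1) * α ≤ (2 * y) * (2 / τ) :=
            mul_le_mul (by linarith) hα1 hα0 (by linarith)
        _ = 4 * y / τ := by ring
    have h2 : (4 * y / τ) ^ 4 ≤ 256 / τ := by
      have e1 : (4 * y / τ) ^ 4 = 256 * (y ^ 2) ^ 2 / τ ^ 4 := by ring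
      rw [e1, hy2, div_le_div_iff₀ (by positivity) hτ0]
      have h3 : τ ^ 3 * (Real.log τ ^ 2) ≤ τ ^ 3 * τ := mul_le_mul_of_nonneg_left hl2 (by positivity)
      calc 256 * (τ * Real.log τ) ^ 2 * τ = 256 * (τ ^ 3 * (Real.log τ ^ 2)) := by ring
        _ ≤ 256 * (τ ^ 3 * τ) := by linarith
        _ = 256 * τ ^ 4 := by ring
    rw [hM, pow_mul]
    refine pow_le_pow_left₀ (by positivity) ?_ B
    exact (pow_le_pow_left₀ (by positivity) h1 4).trans h2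
  refine ⟨⟨hτ0, hSτ, hα2, hβ2⟩, by positivity, ?_⟩
  have s1 : w ^ D ≤ (2 * τ) ^ D := pow_le_pow_left₀ hw0 hw2 D
  have s2 : (1 + τ) ^ D ≤ (2 * τ) ^ D := pow_le_pow_left₀ (by linarith) (by linarith) D
  have s3 : ((m : ℝ) + 1) ^ M * (α ^ M + β ^ m) ≤ (256 / τ) ^ B + (2 * τ) ^ M * β ^ m := by
    rw [mul_add, ← mul_pow]
    refine add_le_add hαM ?_
    exact mul_le_mul_of_nonneg_right (pow_le_pow_left₀ (by linarith) (by linarith) M)
      (pow_nonneg hβ0 m)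
  calc τ ^ A * w ^ D * (1 + τ) ^ D * ((m : ℝ) + 1) ^ M * (α ^ M + β ^ m)
      = (τ ^ A * w ^ D * (1 + τ) ^ D) * (((m : ℝ) + 1) ^ M * (α ^ M + β ^ m)) := by ring
    _ ≤ (τ ^ A * (2 * τ) ^ D * (2 * τ) ^ D) * ((256 / τ) ^ B + (2 * τ) ^ M * β ^ m) := by
        gcongr
    _ = 4 ^ D * (τ ^ (A + 2 * D) * (256 / τ) ^ B) +
        4 ^ D * 2 ^ M * (τ ^ (A + 2 * D + M) * β ^ m) := by
        have e4 : (4 : ℝ) ^ D = 2 ^ D * 2 ^ D := by rw [← mul_pow]; norm_num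
        rw [e4]
        ring
    _ ≤ 4 ^ D * (256 ^ B / τ) + 4 ^ D * 2 ^ M * (1 / τ) := by
        refine add_le_add (mul_le_mul_of_nonneg_left ?_ (by positivity))
          (mul_le_mul_of_nonneg_left ?_ (by positivity))
        · rw [div_pow, hB, pow_succ τ]
          have : τ ^ (A + 2 * D) ≠ 0 := (pow_pos hτ0 _).ne'
          refine le_of_eq ?_
          field_simp
        · rw [le_div_iff₀ hτ0]
          calc τ ^ (A + 2 * D + M) * β ^ m * τ = τ ^ (A + 2 * D + M + 1) * β ^ m := by ring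
            _ ≤ 1 := hβm
    _ = 4 ^ D * (256 ^ B + 2 ^ M) / τ := by ring

end Asy

open Asy in
theorem asy : S_ASY := by
  intro t S ht hS hL C D A hC
  obtain ⟨B, hB⟩ : ∃ B, B = A + 2 * D + 1 := ⟨_, rfl⟩
  obtain ⟨M, hM⟩ : ∃ M, M = 4 * B := ⟨_, rfl⟩
  have e1 : ∀ᶠ n in atTop, ((M : ℝ) + 5) ^ 2 ≤ t n := ht.eventually_ge_atTop _
  have e2 : ∀ᶠ n in atTop, 1 ≤ Real.log (t n) :=
    (Real.tendsto_log_atTop.comp ht).eventually_ge_atTop 1
  have e3 : ∀ᶠ n in atTop, Real.log (t n) ^ 2 ≤ t n := by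
    have h1 := (Real.isLittleO_pow_log_id_atTop (n := 2)).bound (by norm_num : (0:ℝ) < 1)
    filter_upwards [ht.eventually h1, e1] with n h2 h3
    have h4 : 0 ≤ t n := le_trans (by positivity) h3
    simpa [abs_of_nonneg h4] using h2
  have e4 := hL.eventually_ge_atTop (16 * C)
  have e5 := hL.eventually_ge_atTop (4 * ((A + 2 * D + M + 1 : ℕ) : ℝ))
  have key := fun (n : ℕ) (h1 : ((M : ℝ) + 5) ^ 2 ≤ t n) (h2 : 1 ≤ Real.log (t n))
      (h3 : Real.log (t n) ^ 2 ≤ t n)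
      (h4 : 16 * C ≤ (t n - S n) / Real.sqrt (t n * Real.log (t n)))
      (h5 : 4 * ((A + 2 * D + M + 1 : ℕ) : ℝ) ≤ (t n - S n) / Real.sqrt (t n * Real.log (t n))) =>
    core (τ := t n) (S := S n) (C := C) (y := Real.sqrt (t n * Real.log (t n)))
      (L := (t n - S n) / Real.sqrt (t n * Real.log (t n))) (A := A) (D := D) (B := B) (M := M)
      (m := ⌊Real.sqrt (t n * Real.log (t n))⌋₊) hB hM hC (hS n) h1 h2 h3 rfl
      (div_mul_cancel₀ _ (Real.sqrt_pos.mpr (mul_pos (lt_of_lt_of_le (by positivity) h1)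
        (by linarith))).ne') h4 h5 rfl
  refine ⟨M, fun n => ⌊Real.sqrt (t n * Real.log (t n))⌋₊, ?_, ?_⟩
  · filter_upwards [e1, e2, e3, e4, e5] with n h1 h2 h3 h4 h5
    exact (key n h1 h2 h3 h4 h5).1
  · refine squeeze_zero' (g := fun n => 4 ^ D * (256 ^ B + 2 ^ M) / t n) ?_ ?_ ?_
    · filter_upwards [e1, e2, e3, e4, e5] with n h1 h2 h3 h4 h5
      exact (key n h1 h2 h3 h4 h5).2.1
    · filter_upwards [e1, e2, e3, e4, e5] with n h1 h2 h3 h4 h5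
      exact (key n h1 h2 h3 h4 h5).2.2
    · exact ht.const_div_atTop _

end Pool.Agent.K1H18.NR
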