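import Pool.Agent.K1H18.NR.Defs

/-! Project NR, piece BAS: the first derivatives of a real solution. -/

set_option autoImplicit false

namespace Pool.Agent.K1H18.NR

open MeasureTheory Filter Topology Complex
open scoped ContDiff

namespace Bas

theorem isOpen_HP : IsOpen HP := isOpen_lt continuous_const Complex.continuous_im

theorem re_deriv {u : ℂ → ℂ} (hre : IsRe u) {z : ℂ} (hd : DifferentiableAt ℝ u z) (v : ℂ) :
    (fderiv ℝ u z v).im = 0 := by
  have h1 : HasFDerivAt (fun w => (u w).im) (Complex.imCLM.comp (fderiv ℝ u z)) z :=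
    Complex.imCLM.hasFDerivAt.comp z hd.hasFDerivAt
  have h2 : (fun w => (u w).im) = fun _ => (0 : ℝ) := funext hre
  rw [h2] at h1
  have h3 := h1.unique (hasFDerivAt_const (0 : ℝ) z)
  have h4 := DFunLike.congr_fun h3 v
  simpa using h4

theorem up_one (u : ℂ → ℂ) (z : ℂ) : up 1 u z = (z.im : ℂ) * (I * px u z + py u z) := by
  simp [up, Rs]

theorem norm_ge {p q : ℂ} (hp : p.im = 0) (hq : q.im = 0) :
    ‖p‖ ≤ ‖I * p + q‖ ∧ ‖q‖ ≤ ‖I * p + q‖ := by
  have hp' : p = (p.re : ℂ) := Complex.ext rfl (by simp [hp])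
  have hq' : q = (q.re : ℂ) := Complex.ext rfl (by simp [hq])
  have h1 : (I * p + q).im = p.re := by simp [hq]
  have h2 : (I * p + q).re = q.re := by simp [hp]
  constructor
  · have h3 : ‖p‖ = |(I * p + q).im| := by
      rw [h1]
      conv_lhs => rw [hp']
      exact Complex.norm_real _
    rw [h3]
    exact Complex.abs_im_le_norm _
  · have h3 : ‖q‖ = |(I * p + q).re| := by
      rw [h2]
      conv_lhs => rw [hq']
      exact Complex.norm_real _
    rw [h3]
    exact Complex.abs_re_le_norm _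

theorem integrable_up (h1 : S_SMO) {ρ' : ℂ → ℝ} (hρ' : Cut ρ') {u : ℂ → ℂ} (hu : Sm u) (b : ℕ) :
    Integrable fun z => (ρ' z ^ (b + 1) * ‖up b u z‖) ^ 2 / z.im ^ 2 := by
  have hK : IsCompact (tsupport ρ') := hρ'.cs
  have hc : ContinuousOn (fun z => (ρ' z ^ (b + 1) * ‖up b u z‖) ^ 2 / z.im ^ 2) (tsupport ρ') := by
    have hup : ContinuousOn (up b u) (tsupport ρ') :=
      (h1.2.1 u hu b).1.continuousOn.mono hρ'.sub
    refine ContinuousOn.div ?_ (Complex.continuous_im.pow 2).continuousOn ?_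
    · exact (((hρ'.sm.continuous.pow (b + 1)).continuousOn).mul hup.norm).pow 2
    · intro z hz
      have : 0 < z.im := hρ'.sub hz
      positivity
  have h2 : IntegrableOn (fun z => (ρ' z ^ (b + 1) * ‖up b u z‖) ^ 2 / z.im ^ 2) (tsupport ρ') :=
    hc.integrableOn_compact hK
  rwa [integrableOn_iff_integrable_of_support_subset] at h2
  intro z hz
  by_contra hz'
  apply hz
  have : ρ' z = 0 := image_eq_zero_of_notMem_tsupport hz'
  simp [this]

end Bas

open Bas in
theorem bas (h1 : S_SMO) (h6 : S_GRW) : S_BAS := by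
  intro ρ ρ' hρ hρ' h1'
  -- the bound of the derivative of the cut off
  have hsm : Sm fun w => (ρ' w : ℂ) :=
    (Complex.ofRealCLM.contDiff.comp hρ'.sm).contDiffOn
  obtain ⟨c, hc⟩ := hρ'.cs.exists_bound_of_continuousOn (f := Lw 0 fun w => (ρ' w : ℂ))
    ((h1.1 0 _ hsm).2.2.2.1.continuousOn.mono hρ'.sub)
  have hc' : ∀ z ∈ HP, ‖Lw 0 (fun w => (ρ' w : ℂ)) z‖ ≤ max c 0 := by
    intro z _
    by_cases hz : z ∈ tsupport ρ'
    · exact (hc z hz).trans (le_max_left _ _)
    · have h2 := (h1.2.2.2.1 (fun w => (ρ' w : ℂ)) (tsupport ρ') (isClosed_tsupport _)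
        (fun w hw => by simp [image_eq_zero_of_notMem_tsupport hw]) 1 z hz).2
      have h3 : dn 1 (fun w => (ρ' w : ℂ)) z = Lw 0 (fun w => (ρ' w : ℂ)) z := by
        simp [dn]
      rw [← h3, h2, norm_zero]
      exact le_max_right _ _
  have hg := h6 ρ' hρ' (max c 0) (le_max_right _ _) hc'
  -- the constants on the support
  obtain ⟨K1, hK1⟩ := hρ.cs.exists_bound_of_continuousOn (f := fun z : ℂ => 1 / z.im) (by
    refine ContinuousOn.div continuousOn_const Complex.continuous_im.continuousOn ?_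
    intro z hz
    have : 0 < z.im := hρ.sub hz
    exact this.ne')
  obtain ⟨K2, hK2⟩ := hρ.cs.exists_bound_of_continuousOn
    (f := fun z : ℂ => (|z.re| + z.im) / z.im) (by
    refine ContinuousOn.div ?_ Complex.continuous_im.continuousOn ?_
    · exact ((continuous_abs.comp Complex.continuous_re).add Complex.continuous_im).continuousOn
    · intro z hz
      have : 0 < z.im := hρ.sub hz
      exact this.ne')
  obtain ⟨K, hK⟩ : ∃ K, K = max (max K1 K2) 0 := ⟨_, rfl⟩
  have hK0 : 0 ≤ K := by rw [hK]; exact le_max_right _ _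
  -- the main estimate
  have key : ∀ (s : ℝ) (u v : ℂ → ℂ), 0 ≤ s → Sol s u →
      (∀ z ∈ tsupport ρ, ‖v z‖ ≤ K * ‖up 1 u z‖) →
      Nm ρ 0 v ≤ K * (1 + 4 * max c 0) * (1 + s) * Nm ρ' 0 u := by
    intro s u v hs hu hv
    have h2 : Nm ρ 0 v ≤ K * Nm ρ' 1 u := by
      have h3 : K * Nm ρ' 1 u = Real.sqrt (K ^ 2 * ∫ z, (ρ' z ^ (1 + 1) * ‖up 1 u z‖) ^ 2 / z.im ^ 2) := by
        rw [Real.sqrt_mul (sq_nonneg K), Real.sqrt_sq hK0]
        rfl
      rw [h3]
      refine Real.sqrt_le_sqrt ?_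
      rw [← integral_const_mul]
      refine integral_mono_of_nonneg (Eventually.of_forall fun z => by positivity)
        ((integrable_up h1 hρ' hu.1 1).const_mul _) (Eventually.of_forall fun z => ?_)
      show (ρ z ^ (0 + 1) * ‖up 0 v z‖) ^ 2 / z.im ^ 2 ≤
        K ^ 2 * ((ρ' z ^ (1 + 1) * ‖up 1 u z‖) ^ 2 / z.im ^ 2)
      by_cases hz : z ∈ tsupport ρ
      · rw [h1' z hz, ← mul_div_assoc]
        refine div_le_div_of_nonneg_right ?_ (sq_nonneg _)
        have h4 : ρ z ^ (0 + 1) * ‖up 0 v z‖ ≤ K * ‖up 1 u z‖ := by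
          calc ρ z ^ (0 + 1) * ‖up 0 v z‖ ≤ 1 * ‖v z‖ := by
                rw [zero_add, pow_one]
                exact mul_le_mul_of_nonneg_right (hρ.le z) (norm_nonneg _)
            _ ≤ K * ‖up 1 u z‖ := by rw [one_mul]; exact hv z hz
        have h5 : 0 ≤ ρ z ^ (0 + 1) * ‖up 0 v z‖ :=
          mul_nonneg (pow_nonneg (hρ.nn z) _) (norm_nonneg _)
        calc (ρ z ^ (0 + 1) * ‖up 0 v z‖) ^ 2 ≤ (K * ‖up 1 u z‖) ^ 2 := pow_le_pow_left₀ h5 h4 2
          _ = K ^ 2 * (1 ^ (1 + 1) * ‖up 1 u z‖) ^ 2 := by ring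
      · have : ρ z = 0 := image_eq_zero_of_notMem_tsupport hz
        rw [this]
        simp only [zero_add, pow_one, zero_mul, ne_eq, OfNat.ofNat_ne_zero, not_false_eq_true,
          zero_pow, zero_div]
        positivity
    have h3 := hg s u hs hu 0
    have h4 : 0 ≤ Nm ρ' 0 u := Real.sqrt_nonneg _
    have h5 : (0 : ℝ) ≤ max c 0 := le_max_right _ _
    calc Nm ρ 0 v ≤ K * Nm ρ' 1 u := h2
      _ ≤ K * ((s + (((0 : ℕ) : ℝ) + 1) + max c 0 * (2 * ((0 : ℕ) : ℝ) + 4)) * Nm ρ' 0 u) :=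
          mul_le_mul_of_nonneg_left h3 hK0
      _ ≤ K * (((1 + 4 * max c 0) * (1 + s)) * Nm ρ' 0 u) := by
          refine mul_le_mul_of_nonneg_left (mul_le_mul_of_nonneg_right ?_ h4) hK0
          push_cast
          nlinarith [mul_nonneg h5 hs]
      _ = K * (1 + 4 * max c 0) * (1 + s) * Nm ρ' 0 u := by ring
  refine ⟨K * (1 + 4 * max c 0), mul_nonneg hK0 (by positivity), fun s u hs hu hre => ?_⟩
  have hbase : ∀ z ∈ tsupport ρ, 0 < z.im ∧ z.im * ‖px u z‖ ≤ ‖up 1 u z‖ ∧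
      z.im * ‖py u z‖ ≤ ‖up 1 u z‖ := by
    intro z hz
    have hzp : 0 < z.im := hρ.sub hz
    have hd : DifferentiableAt ℝ u z :=
      (hu.1.contDiffAt (isOpen_HP.mem_nhds (hρ.sub hz))).differentiableAt (by simp)
    obtain ⟨n1, n2⟩ := norm_ge (re_deriv hre hd 1) (re_deriv hre hd I)
    rw [up_one, norm_mul, Complex.norm_real, Real.norm_eq_abs, abs_of_pos hzp]
    exact ⟨hzp, mul_le_mul_of_nonneg_left n1 hzp.le, mul_le_mul_of_nonneg_left n2 hzp.le⟩
  refine ⟨key s u (px u) hs hu fun z hz => ?_, key s u (Eu u) hs hu fun z hz => ?_⟩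
  · obtain ⟨hzp, n1, -⟩ := hbase z hz
    have hk : 1 / z.im ≤ K := by
      have := hK1 z hz
      rw [Real.norm_eq_abs] at this
      rw [hK]
      exact (le_abs_self _).trans (this.trans ((le_max_left _ _).trans (le_max_left _ _)))
    calc ‖px u z‖ = 1 / z.im * (z.im * ‖px u z‖) := by field_simp
      _ ≤ K * ‖up 1 u z‖ := mul_le_mul hk n1 (by positivity) hK0
  · obtain ⟨hzp, n1, n2⟩ := hbase z hz
    have hk : (|z.re| + z.im) / z.im ≤ K := by
      have := hK2 z hz
      rw [Real.norm_eq_abs] at this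
      rw [hK]
      exact (le_abs_self _).trans (this.trans ((le_max_right _ _).trans (le_max_left _ _)))
    have e1 : ‖Eu u z‖ ≤ |z.re| * ‖px u z‖ + z.im * ‖py u z‖ := by
      unfold Eu
      refine (norm_add_le _ _).trans ?_
      rw [norm_mul, norm_mul, Complex.norm_real, Complex.norm_real, Real.norm_eq_abs,
        Real.norm_eq_abs, abs_of_pos hzp]
    have e2 : |z.re| * ‖px u z‖ ≤ |z.re| / z.im * ‖up 1 u z‖ := by
      calc |z.re| * ‖px u z‖ = |z.re| / z.im * (z.im * ‖px u z‖) := by field_simp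
        _ ≤ |z.re| / z.im * ‖up 1 u z‖ := mul_le_mul_of_nonneg_left n1 (by positivity)
    calc ‖Eu u z‖ ≤ |z.re| / z.im * ‖up 1 u z‖ + ‖up 1 u z‖ := by linarith
      _ = (|z.re| + z.im) / z.im * ‖up 1 u z‖ := by field_simp
      _ ≤ K * ‖up 1 u z‖ := mul_le_mul_of_nonneg_right hk (norm_nonneg _)

end Pool.Agent.K1H18.NR
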