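import Pool.Agent.K1H18.NR.Defs

set_option autoImplicit false

/-!
# Project NR: solving the recursion
-/

namespace Pool.Agent.K1H18.NR

theorem cmb : S_CMB := by
  intro T σ t Q α β M m ht hσ hrec hQ hα hα1 hβ hβ1 hb
  have ht2 : 0 < t ^ 2 := by positivity
  obtain ⟨τ, hτ⟩ : ∃ τ : ℕ → ℕ → ℝ, ∀ a b, τ a b = ‖T a b‖ / (t ^ 2) ^ (a + b) :=
    ⟨fun a b => ‖T a b‖ / (t ^ 2) ^ (a + b), fun a b => rfl⟩
  have hstep : ∀ a b, τ a b ≤ τ (a + 1) b + τ a (b + 1) := by
    intro a b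
    have h1 : ‖T a b‖ * t ^ 2 ≤ ‖T (a + 1) b‖ + ‖T a (b + 1)‖ := by
      have h := congrArg norm (hrec a b)
      rw [norm_mul, norm_neg, Complex.norm_real,
        Real.norm_of_nonneg ((sq_nonneg t).trans (hσ _))] at h
      calc ‖T a b‖ * t ^ 2 ≤ ‖T a b‖ * σ (a + b) :=
            mul_le_mul_of_nonneg_left (hσ _) (norm_nonneg _)
        _ = _ := h
        _ ≤ _ := norm_add_le _ _
    rw [hτ, hτ, hτ]
    have e1 : (t ^ 2) ^ (a + 1 + b) = (t ^ 2) ^ (a + b) * t ^ 2 := by ring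
    have e2 : (t ^ 2) ^ (a + (b + 1)) = (t ^ 2) ^ (a + b) * t ^ 2 := by ring
    rw [e1, e2, ← add_div, div_le_div_iff₀ (by positivity) (by positivity)]
    have hp : 0 < (t ^ 2) ^ (a + b) := by positivity
    calc ‖T a b‖ * ((t ^ 2) ^ (a + b) * t ^ 2) = (‖T a b‖ * t ^ 2) * (t ^ 2) ^ (a + b) := by ring
      _ ≤ (‖T (a + 1) b‖ + ‖T a (b + 1)‖) * (t ^ 2) ^ (a + b) :=
        mul_le_mul_of_nonneg_right h1 hp.le
  have hbd : ∀ a ≤ M, ∀ b ≤ m, τ a b ≤ Q * α ^ a * β ^ b := by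
    intro a ha b hb'
    rw [hτ, div_le_iff₀ (by positivity)]
    refine (hb a ha b hb').trans (le_of_eq ?_)
    rw [mul_pow, mul_pow, pow_add]
    ring
  have hinner : ∀ (a : ℕ) (E : ℝ), a ≤ M → 0 ≤ E → (∀ b ≤ m, τ (a + 1) b ≤ E) →
      ∀ k ≤ m, τ a (m - k) ≤ k * E + Q * β ^ m := by
    intro a E ha hE hE' k
    induction k with
    | zero =>
      intro _
      have h := hbd a ha m le_rfl
      have h2 : Q * α ^ a * β ^ m ≤ Q * 1 * β ^ m :=
        mul_le_mul_of_nonneg_right (mul_le_mul_of_nonneg_left (pow_le_one₀ hα hα1) hQ)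
          (pow_nonneg hβ m)
      simp only [Nat.sub_zero, Nat.cast_zero, zero_mul, zero_add]
      linarith
    | succ k ih =>
      intro hk
      have h1 := hstep a (m - (k + 1))
      have e : m - (k + 1) + 1 = m - k := by omega
      rw [e] at h1
      have h2 := ih (by omega)
      have h3 := hE' (m - (k + 1)) (by omega)
      push_cast
      linarith
  have hmain : ∀ k ≤ M, ∀ b ≤ m,
      τ (M - k) b ≤ Q * ((m : ℝ) + 1) ^ k * (α ^ M + β ^ m) := by
    intro k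
    induction k with
    | zero =>
      intro _ b hb'
      have h := hbd M le_rfl b hb'
      have h2 : Q * α ^ M * β ^ b ≤ Q * α ^ M * 1 :=
        mul_le_mul_of_nonneg_left (pow_le_one₀ hβ hβ1) (mul_nonneg hQ (pow_nonneg hα M))
      have h3 : 0 ≤ Q * β ^ m := mul_nonneg hQ (pow_nonneg hβ m)
      simp only [Nat.sub_zero, pow_zero, mul_one]
      nlinarith
    | succ k ih =>
      intro hk b hb'
      have hE0 : 0 ≤ Q * ((m : ℝ) + 1) ^ k * (α ^ M + β ^ m) := by positivity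
      have e : M - (k + 1) + 1 = M - k := by omega
      have h1 := hinner (M - (k + 1)) (Q * ((m : ℝ) + 1) ^ k * (α ^ M + β ^ m)) (by omega) hE0
        (by rw [e]; exact ih (by omega)) (m - b) (by omega)
      have e2 : m - (m - b) = b := by omega
      rw [e2] at h1
      have h4 : ((m - b : ℕ) : ℝ) ≤ m := by exact_mod_cast Nat.sub_le m b
      have h5 : ((m - b : ℕ) : ℝ) * (Q * ((m : ℝ) + 1) ^ k * (α ^ M + β ^ m)) ≤
          m * (Q * ((m : ℝ) + 1) ^ k * (α ^ M + β ^ m)) := mul_le_mul_of_nonneg_right h4 hE0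
      have h6 : Q * β ^ m ≤ Q * ((m : ℝ) + 1) ^ k * (α ^ M + β ^ m) := by
        have h7 : (1 : ℝ) ≤ ((m : ℝ) + 1) ^ k := one_le_pow₀ (by linarith [Nat.cast_nonneg (α := ℝ) m])
        have h8 : 0 ≤ α ^ M := pow_nonneg hα M
        have h9 : 0 ≤ β ^ m := pow_nonneg hβ m
        calc Q * β ^ m ≤ Q * (α ^ M + β ^ m) := mul_le_mul_of_nonneg_left (by linarith) hQ
          _ = Q * 1 * (α ^ M + β ^ m) := by ring
          _ ≤ _ := by
            refine mul_le_mul_of_nonneg_right (mul_le_mul_of_nonneg_left h7 hQ) (by linarith)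
      have e3 : Q * ((m : ℝ) + 1) ^ (k + 1) * (α ^ M + β ^ m) =
          m * (Q * ((m : ℝ) + 1) ^ k * (α ^ M + β ^ m)) +
            Q * ((m : ℝ) + 1) ^ k * (α ^ M + β ^ m) := by ring
      rw [e3]
      linarith
  have h := hmain M le_rfl 0 (Nat.zero_le _)
  rw [Nat.sub_self, hτ] at h
  simpa using h

end Pool.Agent.K1H18.NR
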