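import Pool.Agent.K1H18.NR.Defs

set_option autoImplicit false

namespace Pool.Agent.K1H18.NR

open MeasureTheory Filter Topology Complex
open scoped ContDiff

namespace COM

variable {u v : ℂ → ℂ} {z : ℂ}

theorem isOpen_HP : IsOpen HP := isOpen_lt continuous_const Complex.continuous_im

theorem Sm.cda (h : Sm u) (hz : z ∈ HP) : ContDiffAt ℝ ∞ u z :=
  h.contDiffAt (isOpen_HP.mem_nhds hz)

theorem Sm.dat (h : Sm u) (hz : z ∈ HP) : DifferentiableAt ℝ u z :=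
  (Sm.cda h hz).differentiableAt (by simp)

theorem Sm.fd (h : Sm u) : ContDiffOn ℝ ∞ (fderiv ℝ u) HP := by
  intro z hz
  exact ((Sm.cda h hz).fderiv_right (m := ∞) (by simp)).contDiffWithinAt

theorem Sm.px (h : Sm u) : Sm (px u) := (Sm.fd h).clm_apply contDiffOn_const

theorem Sm.py (h : Sm u) : Sm (py u) := (Sm.fd h).clm_apply contDiffOn_const

theorem Sm.add (h : Sm u) (h' : Sm v) : Sm (fun w => u w + v w) := ContDiffOn.add h h'

theorem Sm.mul (h : Sm u) (h' : Sm v) : Sm (fun w => u w * v w) := ContDiffOn.mul h h'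

theorem Sm.const (c : ℂ) : Sm (fun _ => c) := contDiffOn_const

theorem Sm.im : Sm (fun w => (w.im : ℂ)) :=
  (Complex.ofRealCLM.contDiff.comp Complex.imCLM.contDiff).contDiffOn

theorem Sm.re : Sm (fun w => (w.re : ℂ)) :=
  (Complex.ofRealCLM.contDiff.comp Complex.reCLM.contDiff).contDiffOn

theorem px_congr (h : ∀ w ∈ HP, u w = v w) : ∀ w ∈ HP, NR.px u w = NR.px v w := by
  intro w hw
  have : u =ᶠ[𝓝 w] v := by
    filter_upwards [isOpen_HP.mem_nhds hw] with x hx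
    exact h x hx
  unfold NR.px
  rw [this.fderiv_eq]

theorem py_congr (h : ∀ w ∈ HP, u w = v w) : ∀ w ∈ HP, NR.py u w = NR.py v w := by
  intro w hw
  have : u =ᶠ[𝓝 w] v := by
    filter_upwards [isOpen_HP.mem_nhds hw] with x hx
    exact h x hx
  unfold NR.py
  rw [this.fderiv_eq]

theorem px_add (h : Sm u) (h' : Sm v) (hz : z ∈ HP) :
    NR.px (fun w => u w + v w) z = NR.px u z + NR.px v z := by
  unfold NR.px
  rw [fderiv_fun_add (Sm.dat h hz) (Sm.dat h' hz)]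
  rfl

theorem py_add (h : Sm u) (h' : Sm v) (hz : z ∈ HP) :
    NR.py (fun w => u w + v w) z = NR.py u z + NR.py v z := by
  unfold NR.py
  rw [fderiv_fun_add (Sm.dat h hz) (Sm.dat h' hz)]
  rfl

theorem px_mul (h : Sm u) (h' : Sm v) (hz : z ∈ HP) :
    NR.px (fun w => u w * v w) z = NR.px u z * v z + u z * NR.px v z := by
  unfold NR.px
  rw [fderiv_fun_mul (Sm.dat h hz) (Sm.dat h' hz)]
  simp [mul_comm, add_comm]

theorem py_mul (h : Sm u) (h' : Sm v) (hz : z ∈ HP) :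
    NR.py (fun w => u w * v w) z = NR.py u z * v z + u z * NR.py v z := by
  unfold NR.py
  rw [fderiv_fun_mul (Sm.dat h hz) (Sm.dat h' hz)]
  simp [mul_comm, add_comm]

theorem px_const (c : ℂ) : NR.px (fun _ => c) z = 0 := by
  unfold NR.px; simp

theorem py_const (c : ℂ) : NR.py (fun _ => c) z = 0 := by
  unfold NR.py; simp

theorem fd_im : fderiv ℝ (fun w : ℂ => (w.im : ℂ)) z = Complex.ofRealCLM.comp Complex.imCLM :=
  (Complex.ofRealCLM.comp Complex.imCLM).hasFDerivAt.fderiv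

theorem fd_re : fderiv ℝ (fun w : ℂ => (w.re : ℂ)) z = Complex.ofRealCLM.comp Complex.reCLM :=
  (Complex.ofRealCLM.comp Complex.reCLM).hasFDerivAt.fderiv

theorem px_im : NR.px (fun w => (w.im : ℂ)) z = 0 := by
  unfold NR.px; rw [fd_im]; simp

theorem py_im : NR.py (fun w => (w.im : ℂ)) z = 1 := by
  unfold NR.py; rw [fd_im]; simp

theorem px_re : NR.px (fun w => (w.re : ℂ)) z = 1 := by
  unfold NR.px; rw [fd_re]; simp

theorem py_re : NR.py (fun w => (w.re : ℂ)) z = 0 := by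
  unfold NR.py; rw [fd_re]; simp

theorem px_cmul (c : ℂ) (h : Sm u) (hz : z ∈ HP) :
    NR.px (fun w => c * u w) z = c * NR.px u z := by
  rw [px_mul (Sm.const c) h hz, px_const]; ring

theorem py_cmul (c : ℂ) (h : Sm u) (hz : z ∈ HP) :
    NR.py (fun w => c * u w) z = c * NR.py u z := by
  rw [py_mul (Sm.const c) h hz, py_const]; ring

/-- symmetry of the second derivatives -/
theorem pxpy (h : Sm u) (hz : z ∈ HP) : NR.px (NR.py u) z = NR.py (NR.px u) z := by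
  have hs : IsSymmSndFDerivAt ℝ u z :=
    (Sm.cda h hz).isSymmSndFDerivAt (by
      rw [minSmoothness_of_isRCLikeNormedField]
      exact WithTop.coe_le_coe.2 le_top)
  have hd : DifferentiableAt ℝ (fderiv ℝ u) z :=
    (((Sm.fd h) z hz).contDiffAt (isOpen_HP.mem_nhds hz)).differentiableAt (by simp)
  unfold NR.px NR.py
  rw [fderiv_clm_apply hd (differentiableAt_const _), fderiv_clm_apply hd (differentiableAt_const _)]
  simp only [fderiv_fun_const, Pi.zero_apply, ContinuousLinearMap.comp_zero, zero_add,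
    ContinuousLinearMap.flip_apply]
  exact hs 1 I

/-- `y (I u_x + u_y) + c u` is smooth -/
theorem Sm.Rs (c : ℂ) (h : Sm u) : Sm (NR.Rs c u) :=
  Sm.add (Sm.mul Sm.im (Sm.add (Sm.mul (Sm.const I) (Sm.px h)) (Sm.py h)))
    (Sm.mul (Sm.const c) h)

theorem Sm.Eu (h : Sm u) : Sm (NR.Eu u) :=
  Sm.add (Sm.mul Sm.re (Sm.px h)) (Sm.mul Sm.im (Sm.py h))

theorem Sm.up (h : Sm u) : ∀ b : ℕ, Sm (NR.up b u)
  | 0 => h
  | b + 1 => Sm.Rs _ (Sm.up h b)

theorem px_Rs (c : ℂ) (h : Sm u) (hz : z ∈ HP) : NR.px (NR.Rs c u) z =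
    z.im * (I * NR.px (NR.px u) z + NR.px (NR.py u) z) + c * NR.px u z := by
  have e : NR.Rs c u = fun w => (w.im : ℂ) * (I * NR.px u w + NR.py u w) + c * u w := rfl
  rw [e, px_add (Sm.mul Sm.im (Sm.add (Sm.mul (Sm.const I) (Sm.px h)) (Sm.py h)))
    (Sm.mul (Sm.const c) h) hz, px_mul Sm.im (Sm.add (Sm.mul (Sm.const I) (Sm.px h)) (Sm.py h)) hz,
    px_add (Sm.mul (Sm.const I) (Sm.px h)) (Sm.py h) hz, px_cmul I (Sm.px h) hz, px_cmul c h hz,
    px_im]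
  ring

theorem py_Rs (c : ℂ) (h : Sm u) (hz : z ∈ HP) : NR.py (NR.Rs c u) z =
    (I * NR.px u z + NR.py u z) + z.im * (I * NR.py (NR.px u) z + NR.py (NR.py u) z)
      + c * NR.py u z := by
  have e : NR.Rs c u = fun w => (w.im : ℂ) * (I * NR.px u w + NR.py u w) + c * u w := rfl
  rw [e, py_add (Sm.mul Sm.im (Sm.add (Sm.mul (Sm.const I) (Sm.px h)) (Sm.py h)))
    (Sm.mul (Sm.const c) h) hz, py_mul Sm.im (Sm.add (Sm.mul (Sm.const I) (Sm.px h)) (Sm.py h)) hz,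
    py_add (Sm.mul (Sm.const I) (Sm.px h)) (Sm.py h) hz, py_cmul I (Sm.px h) hz, py_cmul c h hz,
    py_im]
  ring

theorem px_Eu (h : Sm u) (hz : z ∈ HP) : NR.px (NR.Eu u) z =
    NR.px u z + z.re * NR.px (NR.px u) z + z.im * NR.px (NR.py u) z := by
  have e : NR.Eu u = fun w => (w.re : ℂ) * NR.px u w + (w.im : ℂ) * NR.py u w := rfl
  rw [e, px_add (Sm.mul Sm.re (Sm.px h)) (Sm.mul Sm.im (Sm.py h)) hz,
    px_mul Sm.re (Sm.px h) hz, px_mul Sm.im (Sm.py h) hz, px_re, px_im]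
  ring

theorem py_Eu (h : Sm u) (hz : z ∈ HP) : NR.py (NR.Eu u) z =
    z.re * NR.py (NR.px u) z + NR.py u z + z.im * NR.py (NR.py u) z := by
  have e : NR.Eu u = fun w => (w.re : ℂ) * NR.px u w + (w.im : ℂ) * NR.py u w := rfl
  rw [e, py_add (Sm.mul Sm.re (Sm.px h)) (Sm.mul Sm.im (Sm.py h)) hz,
    py_mul Sm.re (Sm.px h) hz, py_mul Sm.im (Sm.py h) hz, py_re, py_im]
  ring

theorem Rs_congr (c : ℂ) (h : ∀ w ∈ HP, u w = v w) : ∀ w ∈ HP, NR.Rs c u w = NR.Rs c v w := by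
  intro w hw
  unfold NR.Rs
  rw [px_congr h w hw, py_congr h w hw, h w hw]

theorem Eu_congr (h : ∀ w ∈ HP, u w = v w) : ∀ w ∈ HP, NR.Eu u w = NR.Eu v w := by
  intro w hw
  unfold NR.Eu
  rw [px_congr h w hw, py_congr h w hw]

theorem comm_px (c : ℂ) (h : Sm u) (hz : z ∈ HP) :
    NR.Rs c (NR.px u) z = NR.px (NR.Rs c u) z := by
  rw [px_Rs c h hz, pxpy h hz]
  rfl

theorem comm_Eu (c : ℂ) (h : Sm u) (hz : z ∈ HP) :
    NR.Rs c (NR.Eu u) z = NR.Eu (NR.Rs c u) z := by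
  have e1 : NR.Rs c (NR.Eu u) z = z.im * (I * NR.px (NR.Eu u) z + NR.py (NR.Eu u) z)
    + c * NR.Eu u z := rfl
  have e2 : NR.Eu (NR.Rs c u) z = z.re * NR.px (NR.Rs c u) z + z.im * NR.py (NR.Rs c u) z := rfl
  have e3 : NR.Eu u z = z.re * NR.px u z + z.im * NR.py u z := rfl
  rw [e1, e2, e3, px_Eu h hz, py_Eu h hz, px_Rs c h hz, py_Rs c h hz, pxpy h hz]
  ring

theorem com1 (h : Sm u) : ∀ b : ℕ, ∀ z ∈ HP, NR.up b (NR.px u) z = NR.px (NR.up b u) z ∧
    NR.up b (NR.Eu u) z = NR.Eu (NR.up b u) z := by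
  intro b
  induction b with
  | zero => exact fun z _ => ⟨rfl, rfl⟩
  | succ b ih =>
    intro z hz
    constructor
    · change NR.Rs (b : ℂ) (NR.up b (NR.px u)) z = NR.px (NR.Rs (b : ℂ) (NR.up b u)) z
      rw [Rs_congr (b : ℂ) (fun w hw => (ih w hw).1) z hz, comm_px _ (Sm.up h b) hz]
    · change NR.Rs (b : ℂ) (NR.up b (NR.Eu u)) z = NR.Eu (NR.Rs (b : ℂ) (NR.up b u)) z
      rw [Rs_congr (b : ℂ) (fun w hw => (ih w hw).2) z hz, comm_Eu _ (Sm.up h b) hz]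

/-- `Δ u` -/
noncomputable def lap (u : ℂ → ℂ) (z : ℂ) : ℂ := NR.px (NR.px u) z + NR.py (NR.py u) z

theorem Sm.lap (h : Sm u) : Sm (lap u) := Sm.add (Sm.px (Sm.px h)) (Sm.py (Sm.py h))

theorem lap_px (h : Sm u) (hz : z ∈ HP) : lap (NR.px u) z = NR.px (lap u) z := by
  have e : lap u = fun w => NR.px (NR.px u) w + NR.py (NR.py u) w := rfl
  have e2 : lap (NR.px u) z = NR.px (NR.px (NR.px u)) z + NR.py (NR.py (NR.px u)) z := rfl
  rw [e, e2, px_add (Sm.px (Sm.px h)) (Sm.py (Sm.py h)) hz, pxpy (Sm.py h) hz,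
    py_congr (fun w hw => (pxpy h hw).symm) z hz]

theorem lap_Eu (h : Sm u) (hz : z ∈ HP) : lap (NR.Eu u) z = NR.Eu (lap u) z + 2 * lap u z := by
  have e : lap u = fun w => NR.px (NR.px u) w + NR.py (NR.py u) w := rfl
  have e0 : lap u z = NR.px (NR.px u) z + NR.py (NR.py u) z := rfl
  have e2 : lap (NR.Eu u) z = NR.px (NR.px (NR.Eu u)) z + NR.py (NR.py (NR.Eu u)) z := rfl
  have e3 : NR.Eu (lap u) z = z.re * NR.px (lap u) z + z.im * NR.py (lap u) z := rfl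
  have a1 : NR.px (NR.px (NR.Eu u)) z = 2 * NR.px (NR.px u) z + z.re * NR.px (NR.px (NR.px u)) z
      + z.im * NR.py (NR.px (NR.px u)) z := by
    rw [px_congr (fun w hw => px_Eu h hw) z hz,
      px_add (Sm.add (Sm.px h) (Sm.mul Sm.re (Sm.px (Sm.px h)))) (Sm.mul Sm.im (Sm.px (Sm.py h))) hz,
      px_add (Sm.px h) (Sm.mul Sm.re (Sm.px (Sm.px h))) hz, px_mul Sm.re (Sm.px (Sm.px h)) hz,
      px_mul Sm.im (Sm.px (Sm.py h)) hz, px_re, px_im,
      px_congr (fun w hw => pxpy h hw) z hz, pxpy (Sm.px h) hz]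
    ring
  have a2 : NR.py (NR.py (NR.Eu u)) z = 2 * NR.py (NR.py u) z + z.re * NR.px (NR.py (NR.py u)) z
      + z.im * NR.py (NR.py (NR.py u)) z := by
    rw [py_congr (fun w hw => py_Eu h hw) z hz,
      py_add (Sm.add (Sm.mul Sm.re (Sm.py (Sm.px h))) (Sm.py h)) (Sm.mul Sm.im (Sm.py (Sm.py h))) hz,
      py_add (Sm.mul Sm.re (Sm.py (Sm.px h))) (Sm.py h) hz, py_mul Sm.re (Sm.py (Sm.px h)) hz,
      py_mul Sm.im (Sm.py (Sm.py h)) hz, py_re, py_im,
      py_congr (fun w hw => (pxpy h hw).symm) z hz, ← pxpy (Sm.py h) hz]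
    ring
  rw [e2, a1, a2, e3, e0, e, px_add (Sm.px (Sm.px h)) (Sm.py (Sm.py h)) hz,
    py_add (Sm.px (Sm.px h)) (Sm.py (Sm.py h)) hz]
  ring

theorem sol_iff {s : ℝ} : Sol s u ↔ Sm u ∧ ∀ w ∈ HP, (fun w => (-1 : ℂ) * ((w.im : ℂ) * ((w.im : ℂ) *
    lap u w))) w = (fun w => ((1 / 4 + s ^ 2 : ℝ) : ℂ) * u w) w := by
  unfold Sol
  refine and_congr_right fun _ => forall₂_congr fun w _ => ?_
  simp only [lap]
  constructor <;> intro h
  · rw [← h]; ring
  · rw [← h]; ring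

theorem sol_px {s : ℝ} (h : Sol s u) : Sol s (NR.px u) := by
  obtain ⟨hu, he⟩ := sol_iff.1 h
  refine sol_iff.2 ⟨Sm.px hu, fun z hz => ?_⟩
  have h1 := px_congr he z hz
  rw [px_cmul _ hu hz, px_cmul _ (Sm.mul Sm.im (Sm.mul Sm.im (Sm.lap hu))) hz,
    px_mul Sm.im (Sm.mul Sm.im (Sm.lap hu)) hz, px_mul Sm.im (Sm.lap hu) hz, px_im,
    ← lap_px hu hz] at h1
  simp only
  rw [← h1]
  ring

theorem sol_Eu {s : ℝ} (h : Sol s u) : Sol s (NR.Eu u) := by
  obtain ⟨hu, he⟩ := sol_iff.1 h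
  refine sol_iff.2 ⟨Sm.Eu hu, fun z hz => ?_⟩
  have h1 := px_congr he z hz
  have h2 := py_congr he z hz
  rw [px_cmul _ hu hz, px_cmul _ (Sm.mul Sm.im (Sm.mul Sm.im (Sm.lap hu))) hz,
    px_mul Sm.im (Sm.mul Sm.im (Sm.lap hu)) hz, px_mul Sm.im (Sm.lap hu) hz, px_im] at h1
  rw [py_cmul _ hu hz, py_cmul _ (Sm.mul Sm.im (Sm.mul Sm.im (Sm.lap hu))) hz,
    py_mul Sm.im (Sm.mul Sm.im (Sm.lap hu)) hz, py_mul Sm.im (Sm.lap hu) hz, py_im] at h2
  have e3 : NR.Eu (lap u) z = z.re * NR.px (lap u) z + z.im * NR.py (lap u) z := rfl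
  have e4 : NR.Eu u z = z.re * NR.px u z + z.im * NR.py u z := rfl
  simp only
  rw [lap_Eu hu hz, e3, e4]
  linear_combination (z.re : ℂ) * h1 + (z.im : ℂ) * h2

theorem im_fderiv (h : IsRe u) (z w : ℂ) : (fderiv ℝ u z w).im = 0 := by
  by_cases hd : DifferentiableAt ℝ u z
  · have h1 : HasFDerivAt (fun x => (u x).im) (Complex.imCLM.comp (fderiv ℝ u z)) z :=
      Complex.imCLM.hasFDerivAt.comp z hd.hasFDerivAt
    have h2 : HasFDerivAt (fun x => (u x).im) (0 : ℂ →L[ℝ] ℝ) z := by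
      have : (fun x => (u x).im) = fun _ => (0 : ℝ) := funext h
      rw [this]
      exact hasFDerivAt_const _ _
    have h3 := h1.unique h2
    have h4 := congrArg (fun L : ℂ →L[ℝ] ℝ => L w) h3
    simpa using h4
  · rw [fderiv_zero_of_not_differentiableAt hd]; simp

end COM

theorem com : S_COM := by
  refine ⟨fun u hu => COM.com1 hu, fun s u h => ⟨COM.sol_px h, COM.sol_Eu h⟩, fun u h => ?_⟩
  refine ⟨fun z => COM.im_fderiv h z 1, fun z => ?_⟩
  unfold Eu px py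
  simp [COM.im_fderiv h z]

end Pool.Agent.K1H18.NR
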