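import Pool.Agent.K1H18.NR.Defs

set_option autoImplicit false

/-!
# Project NR: lowering the derivatives of a solution
-/

namespace Pool.Agent.K1H18.NR

open MeasureTheory Filter Topology Complex
open scoped ContDiff

noncomputable section

namespace Eig

lemma hp_open : IsOpen HP := isOpen_lt continuous_const Complex.continuous_im

lemma hp_nhds {z : ℂ} (hz : z ∈ HP) : HP ∈ 𝓝 z := hp_open.mem_nhds hz

lemma sm_at {u : ℂ → ℂ} (hu : Sm u) {z : ℂ} (hz : z ∈ HP) : ContDiffAt ℝ ∞ u z :=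
  ContDiffOn.contDiffAt hu (hp_nhds hz)

lemma sm_diff {u : ℂ → ℂ} (hu : Sm u) {z : ℂ} (hz : z ∈ HP) : DifferentiableAt ℝ u z :=
  (sm_at hu hz).differentiableAt (by simp)

lemma sm_fderiv {u : ℂ → ℂ} (hu : Sm u) : ContDiffOn ℝ ∞ (fderiv ℝ u) HP :=
  ContDiffOn.fderiv_of_isOpen hu hp_open (by simp)

lemma sm_px {u : ℂ → ℂ} (hu : Sm u) : Sm (px u) :=
  (sm_fderiv hu).clm_apply contDiffOn_const

lemma sm_py {u : ℂ → ℂ} (hu : Sm u) : Sm (py u) :=
  (sm_fderiv hu).clm_apply contDiffOn_const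

lemma sm_im : Sm (fun z : ℂ => (z.im : ℂ)) :=
  (Complex.ofRealCLM.comp Complex.imCLM).contDiff.contDiffOn

lemma sm_rs (c : ℂ) {u : ℂ → ℂ} (hu : Sm u) : Sm (Rs c u) := by
  have h : ContDiffOn ℝ ∞ (fun z => (z.im : ℂ) * (I * px u z + py u z) + c * u z) HP :=
    (ContDiffOn.mul sm_im ((contDiffOn_const.mul (sm_px hu)).add (sm_py hu))).add
      (contDiffOn_const.mul hu)
  exact h

lemma sm_lw (c : ℂ) {u : ℂ → ℂ} (hu : Sm u) : Sm (Lw c u) := by
  have h : ContDiffOn ℝ ∞ (fun z => (z.im : ℂ) * (I * px u z - py u z) + c * u z) HP :=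
    (ContDiffOn.mul sm_im ((contDiffOn_const.mul (sm_px hu)).sub (sm_py hu))).add
      (contDiffOn_const.mul hu)
  exact h

lemma sm_up {u : ℂ → ℂ} (hu : Sm u) : ∀ b : ℕ, Sm (up b u)
  | 0 => hu
  | b + 1 => sm_rs _ (sm_up hu b)

lemma symm {v : ℂ → ℂ} (hv : Sm v) {z : ℂ} (hz : z ∈ HP) : px (py v) z = py (px v) z := by
  have hd : DifferentiableAt ℝ (fderiv ℝ v) z :=
    ((sm_fderiv hv).contDiffAt (hp_nhds hz)).differentiableAt (by simp)
  have h1 : ∀ a b : ℂ, fderiv ℝ (fun w => fderiv ℝ v w a) z b = fderiv ℝ (fderiv ℝ v) z b a := by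
    intro a b
    have := (hd.hasFDerivAt.clm_apply (hasFDerivAt_const a z)).fderiv
    rw [this]
    simp
  have hs : IsSymmSndFDerivAt ℝ v z := (sm_at hv hz).isSymmSndFDerivAt (by
    simp only [minSmoothness_of_isRCLikeNormedField]
    exact WithTop.coe_le_coe.2 (le_top : (2 : ℕ∞) ≤ ⊤))
  show fderiv ℝ (fun w => fderiv ℝ v w I) z 1 = fderiv ℝ (fun w => fderiv ℝ v w 1) z I
  rw [h1, h1]
  exact hs 1 I

lemma im_px (z : ℂ) : HasFDerivAt (fun z : ℂ => (z.im : ℂ)) (Complex.ofRealCLM.comp Complex.imCLM) z :=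
  (Complex.ofRealCLM.comp Complex.imCLM).hasFDerivAt

/-- the derivative of `y * A + c * B` in a direction -/
lemma fd_comb {A B : ℂ → ℂ} {z : ℂ} (hA : DifferentiableAt ℝ A z) (hB : DifferentiableAt ℝ B z)
    (c d : ℂ) :
    fderiv ℝ (fun w : ℂ => (w.im : ℂ) * A w + c * B w) z d =
      (d.im : ℂ) * A z + (z.im : ℂ) * fderiv ℝ A z d + c * fderiv ℝ B z d := by
  have h := ((im_px z).mul hA.hasFDerivAt).add (hB.hasFDerivAt.const_mul c)
  have h2 : HasFDerivAt (fun w : ℂ => (w.im : ℂ) * A w + c * B w) _ z := h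
  rw [h2.fderiv]
  simp
  ring

lemma fd_lin {A B : ℂ → ℂ} {z : ℂ} (hA : DifferentiableAt ℝ A z) (hB : DifferentiableAt ℝ B z)
    (c e d : ℂ) :
    fderiv ℝ (fun w : ℂ => c * A w + e * B w) z d = c * fderiv ℝ A z d + e * fderiv ℝ B z d := by
  have h2 : HasFDerivAt (fun w : ℂ => c * A w + e * B w) _ z :=
    (hA.hasFDerivAt.const_mul c).add (hB.hasFDerivAt.const_mul e)
  rw [h2.fderiv]
  simp

/-- first derivatives of `y (I px v + e py v) + c v` -/
lemma fd_gen {v : ℂ → ℂ} (hv : Sm v) {z : ℂ} (hz : z ∈ HP) (c e d : ℂ) :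
    fderiv ℝ (fun w : ℂ => (w.im : ℂ) * (I * px v w + e * py v w) + c * v w) z d =
      (d.im : ℂ) * (I * px v z + e * py v z) +
        (z.im : ℂ) * (I * fderiv ℝ (px v) z d + e * fderiv ℝ (py v) z d) + c * fderiv ℝ v z d := by
  have hx := sm_diff (sm_px hv) hz
  have hy := sm_diff (sm_py hv) hz
  have hA : DifferentiableAt ℝ (fun w => I * px v w + e * py v w) z :=
    (hx.const_mul I).add (hy.const_mul e)
  rw [fd_comb hA (sm_diff hv hz), fd_lin hx hy]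

lemma px_gen {v : ℂ → ℂ} (hv : Sm v) {z : ℂ} (hz : z ∈ HP) (c e : ℂ) :
    px (fun w : ℂ => (w.im : ℂ) * (I * px v w + e * py v w) + c * v w) z =
      (z.im : ℂ) * (I * px (px v) z + e * px (py v) z) + c * px v z := by
  have h := fd_gen hv hz c e 1
  simp only [Complex.one_im, Complex.ofReal_zero, zero_mul, zero_add] at h
  exact h

lemma py_gen {v : ℂ → ℂ} (hv : Sm v) {z : ℂ} (hz : z ∈ HP) (c e : ℂ) :
    py (fun w : ℂ => (w.im : ℂ) * (I * px v w + e * py v w) + c * v w) z =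
      (I * px v z + e * py v z) +
      (z.im : ℂ) * (I * py (px v) z + e * py (py v) z) + c * py v z := by
  have h := fd_gen hv hz c e I
  simp only [Complex.I_im, Complex.ofReal_one, one_mul] at h
  exact h

lemma rs_eq (c : ℂ) (v : ℂ → ℂ) :
    Rs c v = fun w : ℂ => (w.im : ℂ) * (I * px v w + 1 * py v w) + c * v w := by
  funext w; simp only [Rs, one_mul]

lemma lw_eq (c : ℂ) (v : ℂ → ℂ) :
    Lw c v = fun w : ℂ => (w.im : ℂ) * (I * px v w + (-1) * py v w) + c * v w := by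
  funext w
  show (w.im : ℂ) * (I * px v w - py v w) + c * v w = _
  ring

/-- `Lw (c+1) (Rs c v) = Rs (c-1) (Lw c v) + 2 c v` -/
lemma comm {v : ℂ → ℂ} (hv : Sm v) {z : ℂ} (hz : z ∈ HP) (c : ℂ) :
    Lw (c + 1) (Rs c v) z = Rs (c - 1) (Lw c v) z + 2 * c * v z := by
  have e1 := px_gen hv hz c 1
  have e2 := py_gen hv hz c 1
  rw [← rs_eq] at e1 e2
  have e3 := px_gen hv hz c (-1)
  have e4 := py_gen hv hz c (-1)
  rw [← lw_eq] at e3 e4
  have hs := symm hv hz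
  have hI : I ^ 2 = -1 := Complex.I_sq
  show (z.im : ℂ) * (I * px (Rs c v) z - py (Rs c v) z) + (c + 1) * Rs c v z =
    ((z.im : ℂ) * (I * px (Lw c v) z + py (Lw c v) z) + (c - 1) * Lw c v z) + 2 * c * v z
  rw [e1, e2, e3, e4]
  simp only [Rs, Lw]
  rw [hs]
  ring

/-- `Lw 1 (Rs 0 u) = - y² Δ u` -/
lemma base {u : ℂ → ℂ} (hu : Sm u) {z : ℂ} (hz : z ∈ HP) :
    Lw 1 (Rs 0 u) z = -((z.im : ℂ) ^ 2 * (px (px u) z + py (py u) z)) := by
  have e1 := px_gen hu hz 0 1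
  have e2 := py_gen hu hz 0 1
  rw [← rs_eq] at e1 e2
  have hs := symm hu hz
  have hI : I ^ 2 = -1 := Complex.I_sq
  show (z.im : ℂ) * (I * px (Rs 0 u) z - py (Rs 0 u) z) + 1 * Rs 0 u z = _
  rw [e1, e2]
  simp only [Rs]
  rw [hs]
  linear_combination ((z.im : ℂ) ^ 2 * px (px u) z) * hI

lemma rs_loc {u v : ℂ → ℂ} (h : ∀ z ∈ HP, u z = v z) (c : ℂ) {z : ℂ} (hz : z ∈ HP) :
    Rs c u z = Rs c v z := by
  have he : u =ᶠ[𝓝 z] v := by
    filter_upwards [hp_nhds hz] with w hw using h w hw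
  simp only [Rs, px, py]
  rw [he.fderiv_eq, h z hz]

lemma rs_smul (c a : ℂ) {u : ℂ → ℂ} (hu : Sm u) {z : ℂ} (hz : z ∈ HP) :
    Rs c (fun w => a * u w) z = a * Rs c u z := by
  have h : fderiv ℝ (fun w => a * u w) z = a • fderiv ℝ u z :=
    ((sm_diff hu hz).hasFDerivAt.const_mul a).fderiv
  simp only [Rs, px, py]
  rw [h]
  simp
  ring

end Eig

open Eig in
theorem eig : S_EIG := by
  intro s u hu p
  induction p with
  | zero =>
    intro z hz
    have h := base hu.1 hz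
    rw [hu.2 z hz] at h
    have : Lw (((0 : ℕ) : ℂ) + 1) (up (0 + 1) u) z = Lw 1 (Rs 0 u) z := by
      simp [up]
    rw [this, h]
    simp only [sg, up]
    push_cast
    ring
  | succ p ih =>
    intro z hz
    have hsm := sm_up hu.1 (p + 1)
    have h := comm hsm hz (((p + 1 : ℕ) : ℂ))
    have h1 : Lw (((p + 1 : ℕ) : ℂ) + 1) (up (p + 1 + 1) u) z =
        Lw (((p + 1 : ℕ) : ℂ) + 1) (Rs ((p + 1 : ℕ) : ℂ) (up (p + 1) u)) z := rfl
    rw [h1, h]
    have h2 : ((p + 1 : ℕ) : ℂ) - 1 = (p : ℂ) := by push_cast; ring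
    have h3 : ∀ w ∈ HP, Lw (((p + 1 : ℕ) : ℂ)) (up (p + 1) u) w =
        (fun w => ((sg s p : ℝ) : ℂ) * up p u w) w := by
      intro w hw
      have := ih w hw
      push_cast
      exact this
    rw [h2, rs_loc h3 _ hz, rs_smul _ _ (sm_up hu.1 p) hz]
    have h4 : Rs (p : ℂ) (up p u) z = up (p + 1) u z := rfl
    rw [h4]
    have h5 : sg s (p + 1) = sg s p + 2 * ((p : ℝ) + 1) := by
      simp only [sg]; push_cast; ring
    rw [h5]
    push_cast
    ring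

end

end Pool.Agent.K1H18.NR
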