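import Pool.Agent.K1H18.NR.Defs

set_option autoImplicit false

/-! Project NR, piece GRW: growth of the derivatives in `L²`. -/

namespace Pool.Agent.K1H18.NR

open MeasureTheory Filter Topology Complex
open scoped ContDiff

namespace Grw

theorem isOpen_HP : IsOpen HP := isOpen_lt continuous_const Complex.continuous_im

theorem diffAt {u : ℂ → ℂ} (h : Sm u) {z : ℂ} (hz : z ∈ HP) : DifferentiableAt ℝ u z :=
  (h.differentiableOn (by simp)).differentiableAt (isOpen_HP.mem_nhds hz)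

theorem px_conj (u : ℂ → ℂ) (z : ℂ) :
    px (fun w => (starRingEnd ℂ) (u w)) z = (starRingEnd ℂ) (px u z) := by
  unfold px
  have h := (Complex.conjCLE).comp_fderiv (f := u) (x := z)
  have h2 : (fun w => (starRingEnd ℂ) (u w)) = (Complex.conjCLE ∘ u) := rfl
  rw [h2, h]
  rfl

theorem py_conj (u : ℂ → ℂ) (z : ℂ) :
    py (fun w => (starRingEnd ℂ) (u w)) z = (starRingEnd ℂ) (py u z) := by
  unfold py
  have h := (Complex.conjCLE).comp_fderiv (f := u) (x := z)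
  have h2 : (fun w => (starRingEnd ℂ) (u w)) = (Complex.conjCLE ∘ u) := rfl
  rw [h2, h]
  rfl

/-- `conj (Rs b v) = - Lw (-b) (conj v)` -/
theorem Lw_conj (b : ℕ) (v : ℂ → ℂ) (z : ℂ) :
    Lw (1 - ((b : ℂ) + 1)) (fun w => (starRingEnd ℂ) (v w)) z =
      - (starRingEnd ℂ) (Rs (b : ℂ) v z) := by
  unfold Lw Rs
  rw [px_conj, py_conj]
  simp only [map_add, map_mul, Complex.conj_ofReal, Complex.conj_I, map_natCast]
  ring

theorem px_mul {f g : ℂ → ℂ} {z : ℂ} (hf : DifferentiableAt ℝ f z) (hg : DifferentiableAt ℝ g z) :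
    px (fun w => f w * g w) z = f z * px g z + g z * px f z := by
  unfold px
  rw [fderiv_fun_mul hf hg]
  simp [smul_eq_mul]

theorem py_mul {f g : ℂ → ℂ} {z : ℂ} (hf : DifferentiableAt ℝ f z) (hg : DifferentiableAt ℝ g z) :
    py (fun w => f w * g w) z = f z * py g z + g z * py f z := by
  unfold py
  rw [fderiv_fun_mul hf hg]
  simp [smul_eq_mul]

theorem Lw_mul {f g : ℂ → ℂ} {z : ℂ} (c : ℂ) (hf : DifferentiableAt ℝ f z)
    (hg : DifferentiableAt ℝ g z) :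
    Lw c (fun w => f w * g w) z = f z * Lw c g z + g z * Lw 0 f z := by
  unfold Lw
  rw [px_mul hf hg, py_mul hf hg]
  ring

theorem Lw_pow {f : ℂ → ℂ} {z : ℂ} (hf : DifferentiableAt ℝ f z) (N : ℕ) :
    Lw 0 (fun w => f w ^ (N + 1)) z = ((N : ℂ) + 1) * f z ^ N * Lw 0 f z := by
  induction N with
  | zero => simp
  | succ N ih =>
    have h1 : (fun w => f w ^ (N + 1 + 1)) = fun w => f w ^ (N + 1) * f w := by
      funext w; rw [pow_succ]
    rw [h1, Lw_mul 0 (hf.fun_pow (N + 1)) hf, ih]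
    push_cast
    ring

variable {ρ : ℂ → ℝ}

theorem rho_zero {z : ℂ} (hz : z ∉ tsupport ρ) : ρ z = 0 :=
  image_eq_zero_of_notMem_tsupport hz

theorem cont_ext {E : Type*} [NormedAddCommGroup E] (hρ : Cut ρ) (F : ℂ → E)
    (hF : ∀ z, z ∉ tsupport ρ → F z = 0) (hFc : ContinuousOn F HP) : Continuous F := by
  rw [continuous_iff_continuousAt]
  intro z
  by_cases hz : z ∈ HP
  · exact (hFc z hz).continuousAt (isOpen_HP.mem_nhds hz)
  · have hz' : z ∉ tsupport ρ := fun h => hz (hρ.sub h)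
    have h1 : (tsupport ρ)ᶜ ∈ 𝓝 z := (isClosed_tsupport ρ).isOpen_compl.mem_nhds hz'
    have h2 : F =ᶠ[𝓝 z] fun _ => (0 : E) := by
      filter_upwards [h1] with w hw
      exact hF w hw
    exact continuousAt_const.congr h2.symm

theorem cs_ext {E : Type*} [NormedAddCommGroup E] (hρ : Cut ρ) (F : ℂ → E)
    (hF : ∀ z, z ∉ tsupport ρ → F z = 0) : HasCompactSupport F :=
  HasCompactSupport.intro hρ.cs hF

/-- the weighted modulus -/
noncomputable def Fw (ρ : ℂ → ℝ) (b : ℕ) (u : ℂ → ℂ) (z : ℂ) : ℝ :=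
  ρ z ^ (b + 1) * ‖up b u z‖ / z.im

theorem Fw_zero (b : ℕ) (u : ℂ → ℂ) {z : ℂ} (hz : z ∉ tsupport ρ) : Fw ρ b u z = 0 := by
  unfold Fw
  rw [rho_zero hz]
  simp

theorem Fw_nonneg (hρ : Cut ρ) (b : ℕ) (u : ℂ → ℂ) (z : ℂ) : 0 ≤ Fw ρ b u z := by
  by_cases hz : z ∈ tsupport ρ
  · have h1 : 0 < z.im := hρ.sub hz
    unfold Fw
    have := hρ.nn z
    positivity
  · rw [Fw_zero b u hz]

theorem Fw_cont (hρ : Cut ρ) (b : ℕ) (u : ℂ → ℂ) (hu : Sm (up b u)) : Continuous (Fw ρ b u) := by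
  refine cont_ext hρ _ (fun z hz => Fw_zero b u hz) ?_
  unfold Fw
  refine ContinuousOn.div ?_ Complex.continuous_im.continuousOn (fun z hz => ne_of_gt hz)
  exact (hρ.sm.continuous.pow _).continuousOn.mul hu.continuousOn.norm

theorem Fw_cs (hρ : Cut ρ) (b : ℕ) (u : ℂ → ℂ) : HasCompactSupport (Fw ρ b u) :=
  cs_ext hρ _ (fun z hz => Fw_zero b u hz)

theorem Nm_sq (hρ : Cut ρ) (b : ℕ) (u : ℂ → ℂ) :
    Nm ρ b u ^ 2 = ∫ z, Fw ρ b u z ^ 2 := by
  unfold Nm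
  rw [Real.sq_sqrt (integral_nonneg fun z => by positivity)]
  congr 1
  funext z
  unfold Fw
  rw [div_pow]

theorem Nm_nonneg (b : ℕ) (u : ℂ → ℂ) : 0 ≤ Nm ρ b u := Real.sqrt_nonneg _

theorem cs_ineq (hρ : Cut ρ) (b : ℕ) (u : ℂ → ℂ) (h0 : Sm (up b u)) (h1 : Sm (up (b + 1) u)) :
    ∫ z, Fw ρ (b + 1) u z * Fw ρ b u z ≤ Nm ρ (b + 1) u * Nm ρ b u := by
  have c1 := Fw_cont hρ (b + 1) u h1
  have c0 := Fw_cont hρ b u h0
  have hH := integral_mul_le_Lp_mul_Lq_of_nonneg (μ := (volume : Measure ℂ))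
    (p := 2) (q := 2) Real.HolderConjugate.two_two
    (f := Fw ρ (b + 1) u) (g := Fw ρ b u)
    (Eventually.of_forall fun z => Fw_nonneg hρ (b + 1) u z)
    (Eventually.of_forall fun z => Fw_nonneg hρ b u z)
    (c1.memLp_of_hasCompactSupport (Fw_cs hρ (b + 1) u))
    (c0.memLp_of_hasCompactSupport (Fw_cs hρ b u))
  have e : ∀ k : ℕ, (∫ z, Fw ρ k u z ^ (2 : ℝ)) ^ (1 / (2 : ℝ)) = Nm ρ k u := by
    intro k
    have h2 : (∫ z, Fw ρ k u z ^ (2 : ℝ)) = ∫ z, Fw ρ k u z ^ 2 := by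
      congr 1
      funext z
      exact Real.rpow_two _
    rw [h2, ← Nm_sq hρ, ← Real.sqrt_eq_rpow, Real.sqrt_sq (Nm_nonneg k u)]
  rw [e, e] at hH
  exact hH

theorem quad {X A s N : ℝ} (hA : 0 ≤ A) (hX : 0 ≤ X) (hs : 0 ≤ s) (hN : 0 ≤ N)
    (h : X ^ 2 ≤ s ^ 2 * A ^ 2 + N * (X * A)) : X ≤ (s + N) * A := by
  by_contra hc
  push Not at hc
  have h1 : s * A ≤ X - N * A := by nlinarith
  have h2 : 0 < X := lt_of_le_of_lt (by positivity) hc
  have h3 : s * A < X - N * A := by nlinarith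
  have h4 : s * A ≤ X := by nlinarith [mul_nonneg hN hA]
  nlinarith [mul_nonneg hs hA, mul_nonneg hN hA]

end Grw

open Grw

theorem grw (h1 : S_SMO) (h3 : S_EIG) (h4 : S_IBP) : S_GRW := by
  intro ρ hρ c hc hLw s u hs hu b
  obtain ⟨hS1, hS2, -, -, -⟩ := h1
  have hv : Sm (up b u) := (hS2 u hu.1 b).1
  have hv' : Sm (up (b + 1) u) := (hS2 u hu.1 (b + 1)).1
  have hρS : Sm (fun w => ((ρ w : ℝ) : ℂ)) :=
    (Complex.ofRealCLM.contDiff.comp hρ.sm).contDiffOn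
  obtain ⟨U, hU⟩ : ∃ U : ℂ → ℂ, U = fun z => ((ρ z : ℝ) : ℂ) ^ (2 * b + 3 + 1) * up (b + 1) u z :=
    ⟨_, rfl⟩
  obtain ⟨W, hW⟩ : ∃ W : ℂ → ℂ, W = fun z => (starRingEnd ℂ) (up b u z) := ⟨_, rfl⟩
  have hUs : Sm U := by
    rw [hU]
    exact (ContDiffOn.pow hρS _).mul hv'
  have hWs : Sm W := by
    rw [hW]
    exact Complex.conjCLE.contDiff.comp_contDiffOn hv
  have hU0 : ∀ z, z ∉ tsupport ρ → U z = 0 := by
    intro z hz
    rw [hU]
    simp [rho_zero hz]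
  have key := h4 ((b : ℂ) + 1) U W hUs hWs (tsupport ρ) hρ.cs hρ.sub hU0
  -- the right hand side
  have hR : - ∫ z, U z * Lw (1 - ((b : ℂ) + 1)) W z / (z.im : ℂ) ^ 2 =
      ((Nm ρ (b + 1) u ^ 2 : ℝ) : ℂ) := by
    rw [Nm_sq hρ, ← integral_neg, ← integral_complex_ofReal]
    congr 1
    funext z
    rw [hW, Lw_conj, hU]
    have e1 : Rs (b : ℂ) (up b u) z = up (b + 1) u z := rfl
    rw [e1]
    unfold Fw
    have e2 : up (b + 1) u z * (starRingEnd ℂ) (up (b + 1) u z) =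
        ((‖up (b + 1) u z‖ ^ 2 : ℝ) : ℂ) := by
      rw [Complex.mul_conj, Complex.normSq_eq_norm_sq]
    have e3 : -(((ρ z : ℝ) : ℂ) ^ (2 * b + 3 + 1) * up (b + 1) u z *
        -(starRingEnd ℂ) (up (b + 1) u z) / (z.im : ℂ) ^ 2) =
        ((ρ z : ℝ) : ℂ) ^ (2 * b + 3 + 1) * (up (b + 1) u z *
        (starRingEnd ℂ) (up (b + 1) u z)) / (z.im : ℂ) ^ 2 := by ring
    rw [e3, e2]
    push_cast
    ring
  rw [hR] at key
  -- the left hand side
  have hpt : ∀ z : ℂ, ‖Lw ((b : ℂ) + 1) U z * W z / (z.im : ℂ) ^ 2‖ ≤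
      sg s b * Fw ρ b u z ^ 2 + c * (2 * b + 4) * (Fw ρ (b + 1) u z * Fw ρ b u z) := by
    intro z
    by_cases hz : z ∈ tsupport ρ
    · have hzH : z ∈ HP := hρ.sub hz
      have hy : 0 < z.im := hzH
      have d1 : DifferentiableAt ℝ (fun w => ((ρ w : ℝ) : ℂ)) z := diffAt hρS hzH
      have d2 : DifferentiableAt ℝ (up (b + 1) u) z := diffAt hv' hzH
      have e1 : Lw ((b : ℂ) + 1) U z =
          ((ρ z : ℝ) : ℂ) ^ (2 * b + 3 + 1) * (((sg s b : ℝ) : ℂ) * up b u z) +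
          up (b + 1) u z * ((((2 * b + 3 : ℕ) : ℂ) + 1) * ((ρ z : ℝ) : ℂ) ^ (2 * b + 3) *
            Lw 0 (fun w => ((ρ w : ℝ) : ℂ)) z) := by
        rw [hU, Lw_mul _ (d1.fun_pow _) d2, h3 s u hu b z hzH, Lw_pow d1]
      have hsg : 0 ≤ sg s b := by unfold sg; positivity
      have hρ0 := hρ.nn z
      have hρ1 := hρ.le z
      have n1 : ‖Lw ((b : ℂ) + 1) U z‖ ≤ ρ z ^ (2 * b + 4) * (sg s b * ‖up b u z‖) +
          ‖up (b + 1) u z‖ * ((2 * b + 4) * ρ z ^ (2 * b + 3) * c) := by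
        rw [e1]
        refine (norm_add_le _ _).trans (add_le_add ?_ ?_)
        · rw [norm_mul, norm_mul, norm_pow, Complex.norm_real, Complex.norm_real,
            Real.norm_of_nonneg hρ0, Real.norm_of_nonneg hsg]
        · rw [norm_mul, norm_mul, norm_mul, norm_pow, Complex.norm_real, Real.norm_of_nonneg hρ0]
          have h5 : ‖((2 * b + 3 : ℕ) : ℂ) + 1‖ = 2 * b + 4 := by
            have : (((2 * b + 3 : ℕ) : ℂ) + 1) = ((2 * b + 4 : ℝ) : ℂ) := by push_cast; ring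
            rw [this, Complex.norm_real, Real.norm_of_nonneg (by positivity)]
          rw [h5]
          refine mul_le_mul_of_nonneg_left ?_ (norm_nonneg _)
          exact mul_le_mul_of_nonneg_left (hLw z hzH) (by positivity)
      have n2 : ‖W z‖ = ‖up b u z‖ := by rw [hW]; exact RCLike.norm_conj _
      have n3 : ‖(z.im : ℂ) ^ 2‖ = z.im ^ 2 := by
        rw [norm_pow, Complex.norm_real, Real.norm_of_nonneg hy.le]
      rw [norm_div, norm_mul, n2, n3, div_le_iff₀ (by positivity)]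
      have e4 : (sg s b * Fw ρ b u z ^ 2 + c * (2 * b + 4) * (Fw ρ (b + 1) u z * Fw ρ b u z)) *
          z.im ^ 2 = sg s b * (ρ z ^ (2 * b + 2) * ‖up b u z‖ ^ 2) +
          c * (2 * b + 4) * (ρ z ^ (2 * b + 3) * (‖up (b + 1) u z‖ * ‖up b u z‖)) := by
        unfold Fw
        field_simp
        ring
      rw [e4]
      have n4 : ρ z ^ (2 * b + 4) ≤ ρ z ^ (2 * b + 2) :=
        pow_le_pow_of_le_one hρ0 hρ1 (by omega)
      calc ‖Lw ((b : ℂ) + 1) U z‖ * ‖up b u z‖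
          ≤ (ρ z ^ (2 * b + 4) * (sg s b * ‖up b u z‖) +
          ‖up (b + 1) u z‖ * ((2 * b + 4) * ρ z ^ (2 * b + 3) * c)) * ‖up b u z‖ :=
            mul_le_mul_of_nonneg_right n1 (norm_nonneg _)
        _ = ρ z ^ (2 * b + 4) * (sg s b * ‖up b u z‖ ^ 2) +
          c * (2 * b + 4) * (ρ z ^ (2 * b + 3) * (‖up (b + 1) u z‖ * ‖up b u z‖)) := by ring
        _ ≤ ρ z ^ (2 * b + 2) * (sg s b * ‖up b u z‖ ^ 2) +
          c * (2 * b + 4) * (ρ z ^ (2 * b + 3) * (‖up (b + 1) u z‖ * ‖up b u z‖)) := by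
            have := mul_le_mul_of_nonneg_right n4 (show 0 ≤ sg s b * ‖up b u z‖ ^ 2 by positivity)
            linarith
        _ = _ := by ring
    · have h5 : (tsupport ρ)ᶜ ∈ 𝓝 z := (isClosed_tsupport ρ).isOpen_compl.mem_nhds hz
      have h6 : U =ᶠ[𝓝 z] fun _ => (0 : ℂ) := by
        filter_upwards [h5] with w hw
        exact hU0 w hw
      have h7 : fderiv ℝ U z = 0 := by
        rw [h6.fderiv_eq]
        simp
      have h8 : Lw ((b : ℂ) + 1) U z = 0 := by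
        unfold Lw px py
        rw [h7, hU0 z hz]
        simp
      rw [h8, Fw_zero b u hz]
      simp
  have i0 : Integrable (fun z => Fw ρ b u z ^ 2) := by
    have := (Fw_cont hρ b u hv).pow 2
    exact this.integrable_of_hasCompactSupport
      (cs_ext hρ _ fun z hz => by simp [Fw_zero b u hz])
  have i1 : Integrable (fun z => Fw ρ (b + 1) u z * Fw ρ b u z) := by
    have := (Fw_cont hρ (b + 1) u hv').mul (Fw_cont hρ b u hv)
    exact this.integrable_of_hasCompactSupport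
      (cs_ext hρ _ fun z hz => by simp [Fw_zero b u hz])
  have hint := norm_integral_le_of_norm_le ((i0.const_mul (sg s b)).add
    (i1.const_mul (c * (2 * b + 4)))) (Eventually.of_forall hpt)
  rw [key, Complex.norm_real, Real.norm_of_nonneg (sq_nonneg _)] at hint
  have e5 : ∫ z, (sg s b * Fw ρ b u z ^ 2 + c * (2 * b + 4) * (Fw ρ (b + 1) u z * Fw ρ b u z)) =
      sg s b * (∫ z, Fw ρ b u z ^ 2) +
        c * (2 * b + 4) * ∫ z, Fw ρ (b + 1) u z * Fw ρ b u z := by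
    rw [integral_add (i0.const_mul _) (i1.const_mul _), integral_const_mul, integral_const_mul]
  have hint2 : Nm ρ (b + 1) u ^ 2 ≤ sg s b * (∫ z, Fw ρ b u z ^ 2) +
        c * (2 * b + 4) * ∫ z, Fw ρ (b + 1) u z * Fw ρ b u z := by
    rw [← e5]
    exact hint
  rw [← Nm_sq hρ] at hint2
  have hcs := cs_ineq hρ b u hv hv'
  have hX := Nm_nonneg (ρ := ρ) (b + 1) u
  have hA := Nm_nonneg (ρ := ρ) b u
  have hb : (0 : ℝ) ≤ b := Nat.cast_nonneg b
  have hN : 0 ≤ c * (2 * (b : ℝ) + 4) := by positivity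
  have hsgle : sg s b ≤ (s + (b + 1)) ^ 2 := by
    unfold sg
    nlinarith
  refine quad hA hX (by positivity) hN ?_
  calc Nm ρ (b + 1) u ^ 2 ≤ sg s b * Nm ρ b u ^ 2 +
        c * (2 * b + 4) * ∫ z, Fw ρ (b + 1) u z * Fw ρ b u z := hint2
    _ ≤ (s + (b + 1)) ^ 2 * Nm ρ b u ^ 2 +
        c * (2 * b + 4) * (Nm ρ (b + 1) u * Nm ρ b u) :=
        add_le_add (mul_le_mul_of_nonneg_right hsgle (sq_nonneg _))
          (mul_le_mul_of_nonneg_left hcs hN)

end Pool.Agent.K1H18.NR
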