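import Pool.Agent.K1H18.NR.Defs
import Pool.Agent.TH421.DF.Main

/-!
Project NR (helper18), piece IBP (helper26): integration by parts for the lowering operator.
-/

set_option autoImplicit false

namespace Pool.Agent.K1H18.NR

open MeasureTheory Filter Topology Complex
open scoped ContDiff

namespace IBP

lemma isOpen_HP : IsOpen HP := isOpen_lt continuous_const Complex.continuous_im

lemma hasYi {z : ℂ} (hz : z ∈ HP) :
    HasFDerivAt (fun w : ℂ => (((w.im)⁻¹ : ℝ) : ℂ))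
      (Complex.ofRealCLM.comp ((-((z.im) ^ 2)⁻¹) • Complex.imCLM)) z := by
  have h0 : z.im ≠ 0 := ne_of_gt hz
  have h1 : HasFDerivAt (fun w : ℂ => (w.im)⁻¹) ((-((z.im) ^ 2)⁻¹) • Complex.imCLM) z :=
    (hasDerivAt_inv h0).comp_hasFDerivAt z Complex.imCLM.hasFDerivAt
  exact (Complex.ofRealCLM.hasFDerivAt (x := (z.im)⁻¹)).comp z h1

lemma smYi : ContDiffOn ℝ ∞ (fun w : ℂ => (((w.im)⁻¹ : ℝ) : ℂ)) HP := by
  have h1 : ContDiffOn ℝ ∞ (fun w : ℂ => w.im) HP := Complex.imCLM.contDiff.contDiffOn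
  have h2 : ContDiffOn ℝ ∞ (fun w : ℂ => (w.im)⁻¹) HP := h1.inv fun z hz => ne_of_gt hz
  exact Complex.ofRealCLM.contDiff.comp_contDiffOn h2

lemma fdU {u v : ℂ → ℂ} (hu : Sm u) (hv : Sm v) {z : ℂ} (hz : z ∈ HP) (w : ℂ) :
    fderiv ℝ (fun w : ℂ => u w * v w * (((w.im)⁻¹ : ℝ) : ℂ)) z w =
      fderiv ℝ u z w * v z / (z.im : ℂ) + u z * fderiv ℝ v z w / (z.im : ℂ) -
        u z * v z * (w.im : ℂ) / (z.im : ℂ) ^ 2 := by
  have du := (Pool.Agent.W98.RW.diffAt isOpen_HP hu hz).hasFDerivAt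
  have dv := (Pool.Agent.W98.RW.diffAt isOpen_HP hv hz).hasFDerivAt
  have h := ((du.mul dv).mul (hasYi hz)).fderiv
  have e : (fun w : ℂ => u w * v w * (((w.im)⁻¹ : ℝ) : ℂ)) =
    (u * v) * (fun w : ℂ => (((w.im)⁻¹ : ℝ) : ℂ)) := rfl
  rw [e, h]
  have hy : (z.im : ℂ) ≠ 0 := by exact_mod_cast ne_of_gt hz
  simp
  field_simp
  ring

end IBP

open IBP in
theorem ibp : S_IBP := by
  intro c u v hu hv S hS hSH h0
  have hx : ∀ w z, z ∉ S → fderiv ℝ u z w = 0 := fun w z hz =>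
    Pool.Agent.TH421.DF.fd_zero hS h0 w hz
  have sU : ContDiffOn ℝ ∞ (fun w : ℂ => u w * v w * (((w.im)⁻¹ : ℝ) : ℂ)) HP :=
    (hu.mul hv).mul smYi
  have zU : ∀ z, z ∉ S → (fun w : ℂ => u w * v w * (((w.im)⁻¹ : ℝ) : ℂ)) z = 0 := by
    intro z hz
    simp [h0 z hz]
  obtain ⟨i1, j1⟩ := Pool.Agent.TH421.DF.int0 isOpen_HP hS hSH sU zU 1
  obtain ⟨i2, j2⟩ := Pool.Agent.TH421.DF.int0 isOpen_HP hS hSH sU zU I
  have cu : ∀ w, ContinuousOn (fun z => fderiv ℝ u z w) HP := fun w =>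
    (Pool.Agent.W98.RW.cd_fderiv isOpen_HP hu w).continuousOn
  have cv : ∀ w, ContinuousOn (fun z => fderiv ℝ v z w) HP := fun w =>
    (Pool.Agent.W98.RW.cd_fderiv isOpen_HP hv w).continuousOn
  have cy : ContinuousOn (fun z : ℂ => (z.im : ℂ)) HP :=
    (Complex.continuous_ofReal.comp Complex.continuous_im).continuousOn
  have hLu : ContinuousOn (Lw c u) HP := by
    have := (cy.mul (((continuousOn_const (c := I)).mul (cu 1)).sub (cu I))).add
      ((continuousOn_const (c := c)).mul hu.continuousOn)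
    exact this
  have hLv : ContinuousOn (Lw (1 - c) v) HP := by
    have := (cy.mul (((continuousOn_const (c := I)).mul (cv 1)).sub (cv I))).add
      ((continuousOn_const (c := 1 - c)).mul hv.continuousOn)
    exact this
  have ny : ∀ z ∈ HP, (z.im : ℂ) ^ 2 ≠ 0 := fun z hz =>
    pow_ne_zero _ (by exact_mod_cast ne_of_gt hz)
  have iA : Integrable (fun z : ℂ => Lw c u z * v z / (z.im : ℂ) ^ 2) := by
    refine Pool.Agent.TH421.DF.cint hS hSH ((hLu.mul hv.continuousOn).div (cy.pow 2) ny) ?_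
    intro z hz
    simp [Lw, px, py, hx _ z hz, h0 z hz]
  have iB : Integrable (fun z : ℂ => u z * Lw (1 - c) v z / (z.im : ℂ) ^ 2) := by
    refine Pool.Agent.TH421.DF.cint hS hSH ((hu.continuousOn.mul hLv).div (cy.pow 2) ny) ?_
    intro z hz
    simp [h0 z hz]
  have key : ∀ z : ℂ, Lw c u z * v z / (z.im : ℂ) ^ 2 + u z * Lw (1 - c) v z / (z.im : ℂ) ^ 2 =
      I * fderiv ℝ (fun w : ℂ => u w * v w * (((w.im)⁻¹ : ℝ) : ℂ)) z 1 -
        fderiv ℝ (fun w : ℂ => u w * v w * (((w.im)⁻¹ : ℝ) : ℂ)) z I := by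
    intro z
    by_cases hz : z ∈ S
    · have hzH := hSH hz
      rw [fdU hu hv hzH, fdU hu hv hzH]
      have hy : (z.im : ℂ) ≠ 0 := by exact_mod_cast ne_of_gt hzH
      simp only [Lw, px, py, Complex.one_im, Complex.I_im, Complex.ofReal_zero,
        Complex.ofReal_one]
      field_simp
      ring
    · rw [Pool.Agent.TH421.DF.fd_zero hS zU 1 hz, Pool.Agent.TH421.DF.fd_zero hS zU I hz]
      simp [Lw, px, py, hx _ z hz, h0 z hz]
  have h1 : ∫ z : ℂ, (Lw c u z * v z / (z.im : ℂ) ^ 2 +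
      u z * Lw (1 - c) v z / (z.im : ℂ) ^ 2) = 0 := by
    simp only [key]
    rw [integral_sub (i1.const_mul I) i2, integral_const_mul, j1, j2]
    simp
  rw [integral_add iA iB] at h1
  exact eq_neg_of_add_eq_zero_left h1

end Pool.Agent.K1H18.NR
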