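import Pool.Agent.K1H18.NR.T_SMO

set_option autoImplicit false

/-!
# NR-LEI: Leibniz' rule and bounds for products
-/

namespace Pool.Agent.K1H18.NR

open MeasureTheory Filter Topology Complex
open scoped ContDiff

theorem lei : S_LEI := by
  intro a b F G hF hG z hz
  have hd : ∀ v : ℂ, fderiv ℝ (fun w => dn a F w * dn b G w) z v =
      dn a F z * fderiv ℝ (dn b G) z v + dn b G z * fderiv ℝ (dn a F) z v := by
    intro v
    rw [fderiv_fun_mul ((hF.dn a).diffAt hz) ((hG.dn b).diffAt hz)]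
    rfl
  change Lw (-((a : ℂ) + b)) (fun w => dn a F w * dn b G w) z =
    Lw (-(a : ℂ)) (dn a F) z * dn b G z + dn a F z * Lw (-(b : ℂ)) (dn b G) z
  unfold Lw px py
  rw [hd, hd]
  ring

/-- linearity of the lowering operator -/
theorem Lw_sum {ι : Type} (S : Finset ι) (c : ℂ) (k : ι → ℂ) (f : ι → ℂ → ℂ)
    (hf : ∀ i ∈ S, Sm (f i)) {z : ℂ} (hz : z ∈ HP) :
    Lw c (fun w => ∑ i ∈ S, k i * f i w) z = ∑ i ∈ S, k i * Lw c (f i) z := by
  have hd : ∀ v : ℂ, fderiv ℝ (fun w => ∑ i ∈ S, k i * f i w) z v =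
      ∑ i ∈ S, k i * fderiv ℝ (f i) z v := by
    intro v
    rw [fderiv_fun_sum fun i hi => ((hf i hi).diffAt hz).const_mul (k i)]
    rw [_root_.sum_apply]
    refine Finset.sum_congr rfl fun i hi => ?_
    rw [fderiv_const_mul ((hf i hi).diffAt hz)]
    rfl
  unfold Lw px py
  rw [hd, hd, Finset.mul_sum, ← Finset.sum_sub_distrib, Finset.mul_sum, Finset.mul_sum,
    ← Finset.sum_add_distrib]
  refine Finset.sum_congr rfl fun i _ => ?_
  ring

theorem dn_mul {F G : ℂ → ℂ} (hF : Sm F) (hG : Sm G) (b : ℕ) : ∀ z ∈ HP,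
    dn b (fun w => F w * G w) z =
      ∑ ij ∈ Finset.HasAntidiagonal.antidiagonal b, (b.choose ij.1 : ℂ) * (dn ij.1 F z * dn ij.2 G z) := by
  induction b with
  | zero =>
    intro z hz
    simp [dn]
  | succ b ih =>
    intro z hz
    change Lw (-(b : ℂ)) (dn b (fun w => F w * G w)) z = _
    rw [Lw_congr (-(b : ℂ)) ih hz,
      Lw_sum _ _ (fun ij : ℕ × ℕ => (b.choose ij.1 : ℂ)) (fun ij w => dn ij.1 F w * dn ij.2 G w)
        (fun ij _ => (hF.dn _).mul (hG.dn _)) hz,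
      Finset.sum_antidiagonal_choose_succ_mul (fun i j => dn i F z * dn j G z) b,
      ← Finset.sum_add_distrib]
    refine Finset.sum_congr rfl fun ij hij => ?_
    have h1 : ij.1 + ij.2 = b := Finset.HasAntidiagonal.mem_antidiagonal.1 hij
    have h2 : b.choose ij.2 = b.choose ij.1 := by
      rw [← h1, Nat.choose_symm_add]
    have h3 : (-(b : ℂ)) = -((ij.1 : ℂ) + ij.2) := by
      rw [← h1]; push_cast; ring
    rw [h2, h3, lei ij.1 ij.2 F G hF hG z hz]
    ring

theorem dn_one (b : ℕ) : dn (b + 1) (fun _ => (1 : ℂ)) = fun _ => 0 := by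
  have h0 : ∀ c k : ℂ, Lw c (fun _ => k) = fun _ => c * k := by
    intro c k
    funext z
    simp [Lw, px, py]
  induction b with
  | zero =>
    change Lw (-((0 : ℕ) : ℂ)) (fun _ => (1 : ℂ)) = _
    rw [h0]
    simp
  | succ b ih =>
    change Lw (-((b + 1 : ℕ) : ℂ)) (dn (b + 1) fun _ => (1 : ℂ)) = _
    rw [ih, h0]
    simp

theorem prd : S_PRD := by
  refine ⟨?_, ?_⟩
  · intro m z hz F G hF hG q r q' r' hq hr hq' hr' h1 h2 b hb
    rw [dn_mul hF hG b z hz, (Commute.all r r').add_pow' b, Finset.mul_sum]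
    refine (norm_sum_le _ _).trans (Finset.sum_le_sum fun ij hij => ?_)
    have h3 : ij.1 + ij.2 = b := Finset.HasAntidiagonal.mem_antidiagonal.1 hij
    rw [norm_mul, norm_mul, Complex.norm_natCast, nsmul_eq_mul]
    have h4 : ‖dn ij.1 F z‖ * ‖dn ij.2 G z‖ ≤ (q * r ^ ij.1) * (q' * r' ^ ij.2) :=
      mul_le_mul (h1 _ (by omega)) (h2 _ (by omega)) (norm_nonneg _) (by positivity)
    calc (b.choose ij.1 : ℝ) * (‖dn ij.1 F z‖ * ‖dn ij.2 G z‖)
        ≤ (b.choose ij.1 : ℝ) * ((q * r ^ ij.1) * (q' * r' ^ ij.2)) :=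
          mul_le_mul_of_nonneg_left h4 (Nat.cast_nonneg _)
      _ = _ := by ring
  · intro b z
    cases b with
    | zero => simp [dn]
    | succ b => rw [dn_one]; simp

end Pool.Agent.K1H18.NR
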