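import Pool.Agent.K1H18.NR.Defs

/-! Piece NR-REC (helper39 for helper18): the recursion for `JJ`. -/

set_option autoImplicit false

namespace Pool.Agent.K1H18.NR

open MeasureTheory Filter Topology Complex
open scoped ContDiff

/-- continuous on the upper half plane and zero outside of a compact subset: integrable -/
theorem rec_int {h : ℂ → ℂ} {S : Set ℂ} (hS : IsCompact S) (hSH : S ⊆ HP) (hc : ContinuousOn h HP)
    (h0 : ∀ z, z ∉ S → h z = 0) : Integrable h := by
  have h1 : S.indicator h = h := by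
    funext z
    by_cases hz : z ∈ S
    · rw [Set.indicator_of_mem hz]
    · rw [Set.indicator_of_notMem hz, h0 z hz]
  rw [← h1, integrable_indicator_iff hS.measurableSet]
  exact (hc.mono hSH).integrableOn_compact hS

theorem rec_cont {A B C : ℂ → ℂ} (hA : Sm A) (hB : Sm B) (hC : Sm C) :
    ContinuousOn (fun z => A z * B z * C z / (z.im : ℂ) ^ 2) HP := by
  refine ContinuousOn.div ((hA.continuousOn.mul hB.continuousOn).mul hC.continuousOn)
    ((Complex.continuous_ofReal.comp Complex.continuous_im).pow 2).continuousOn ?_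
  intro z hz
  have h : (0 : ℝ) < z.im := hz
  exact pow_ne_zero 2 (by exact_mod_cast h.ne')

theorem rec_ (h1 : S_SMO) (h2 : S_LEI) (h3 : S_EIG) (h4 : S_IBP) : S_REC := by
  intro t ψ G f hψ hG hf S hS hSH hψ0 a b
  obtain ⟨s1, s2, s3, s4, s5⟩ := h1
  have hdψ : ∀ k, Sm (dn k ψ) := fun k => (s2 ψ hψ k).2
  have hdG : ∀ k, Sm (dn k G) := fun k => (s2 G hG k).2
  have hup : ∀ k, Sm (up k f) := fun k => (s2 f hf.1 k).1
  have z1 : ∀ k z, z ∉ S → dn k ψ z = 0 := fun k z hz => (s4 ψ S hS.isClosed hψ0 k z hz).2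
  have hu : Sm (fun w => dn a ψ w * dn b G w) := ContDiffOn.mul (hdψ a) (hdG b)
  have hu0 : ∀ z, z ∉ S → (fun w => dn a ψ w * dn b G w) z = 0 := by
    intro z hz
    change dn a ψ z * dn b G z = 0
    rw [z1 a z hz, zero_mul]
  have key := h4 (-((a : ℂ) + b)) (fun w => dn a ψ w * dn b G w) (up (a + b + 1) f) hu
    (hup (a + b + 1)) S hS hSH hu0
  have hLu : ∀ z, z ∉ S → Lw (-((a : ℂ) + b)) (fun w => dn a ψ w * dn b G w) z = 0 := by
    intro z hz
    have he : (fun w => dn a ψ w * dn b G w) =ᶠ[𝓝 z] fun _ => (0 : ℂ) := by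
      filter_upwards [hS.isClosed.isOpen_compl.mem_nhds hz] with w hw
      exact hu0 w hw
    have hf0 : fderiv ℝ (fun w => dn a ψ w * dn b G w) z = 0 := by
      rw [he.fderiv_eq]
      simp
    unfold Lw px py
    rw [hf0, hu0 z hz]
    simp
  have eL : ∀ z, Lw (-((a : ℂ) + b)) (fun w => dn a ψ w * dn b G w) z * up (a + b + 1) f z /
      (z.im : ℂ) ^ 2 =
      dn (a + 1) ψ z * dn b G z * up (a + 1 + b) f z / (z.im : ℂ) ^ 2 +
        dn a ψ z * dn (b + 1) G z * up (a + (b + 1)) f z / (z.im : ℂ) ^ 2 := by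
    intro z
    have e1 : a + 1 + b = a + b + 1 := by omega
    have e2 : a + (b + 1) = a + b + 1 := by omega
    rw [e1, e2]
    by_cases hz : z ∈ HP
    · rw [h2 a b ψ G hψ hG z hz]
      ring
    · have hz' : z ∉ S := fun h => hz (hSH h)
      rw [hLu z hz', z1 (a + 1) z hz', z1 a z hz']
      ring
  have eR : ∀ z, (fun w => dn a ψ w * dn b G w) z *
      Lw (1 - -((a : ℂ) + b)) (up (a + b + 1) f) z / (z.im : ℂ) ^ 2 =
      dn a ψ z * dn b G z * up (a + b) f z / (z.im : ℂ) ^ 2 * ((sg t (a + b) : ℝ) : ℂ) := by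
    intro z
    dsimp only
    by_cases hz : z ∈ HP
    · have e : (1 - -((a : ℂ) + b)) = ((a + b : ℕ) : ℂ) + 1 := by
        push_cast
        ring
      rw [e, h3 t f hf (a + b) z hz]
      ring
    · have hz' : z ∉ S := fun h => hz (hSH h)
      rw [z1 a z hz']
      ring
  simp only [eL, eR] at key
  have i1 : Integrable (fun z => dn (a + 1) ψ z * dn b G z * up (a + 1 + b) f z /
      (z.im : ℂ) ^ 2) :=
    rec_int hS hSH (rec_cont (hdψ _) (hdG _) (hup _)) fun z hz => by
      rw [z1 (a + 1) z hz]; ring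
  have i2 : Integrable (fun z => dn a ψ z * dn (b + 1) G z * up (a + (b + 1)) f z /
      (z.im : ℂ) ^ 2) :=
    rec_int hS hSH (rec_cont (hdψ _) (hdG _) (hup _)) fun z hz => by
      rw [z1 a z hz]; ring
  rw [integral_add i1 i2, integral_mul_const] at key
  unfold JJ
  rw [key, neg_neg]

end Pool.Agent.K1H18.NR
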