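import Pool.Agent.K1H18.NR.Defs

set_option autoImplicit false

/-!
# NR-SMO: smoothness, locality, supports, conjugation
-/

namespace Pool.Agent.K1H18.NR

open MeasureTheory Filter Topology Complex
open scoped ContDiff

theorem isOpen_HP : IsOpen HP := isOpen_lt continuous_const Complex.continuous_im

theorem cd_im {n : WithTop ℕ∞} : ContDiff ℝ n (fun z : ℂ => (z.im : ℂ)) :=
  Complex.ofRealCLM.contDiff.comp Complex.imCLM.contDiff

theorem cd_re {n : WithTop ℕ∞} : ContDiff ℝ n (fun z : ℂ => (z.re : ℂ)) :=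
  Complex.ofRealCLM.contDiff.comp Complex.reCLM.contDiff

theorem Sm.diffAt {u : ℂ → ℂ} (hu : Sm u) {z : ℂ} (hz : z ∈ HP) : DifferentiableAt ℝ u z :=
  (ContDiffOn.contDiffAt hu (isOpen_HP.mem_nhds hz)).differentiableAt (by simp)

theorem Sm.fd {u : ℂ → ℂ} (hu : Sm u) (v : ℂ) : Sm fun z => fderiv ℝ u z v := by
  have h1 : ContDiffOn ℝ ∞ (fderiv ℝ u) HP := ContDiffOn.fderiv_of_isOpen hu isOpen_HP (by simp)
  exact h1.clm_apply contDiffOn_const

theorem Sm.px {u : ℂ → ℂ} (hu : Sm u) : Sm (px u) := hu.fd 1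

theorem Sm.py {u : ℂ → ℂ} (hu : Sm u) : Sm (py u) := hu.fd I

theorem Sm.mul {u v : ℂ → ℂ} (hu : Sm u) (hv : Sm v) : Sm fun z => u z * v z :=
  ContDiffOn.mul hu hv

theorem Sm.add {u v : ℂ → ℂ} (hu : Sm u) (hv : Sm v) : Sm fun z => u z + v z :=
  ContDiffOn.add hu hv

theorem Sm.sub {u v : ℂ → ℂ} (hu : Sm u) (hv : Sm v) : Sm fun z => u z - v z :=
  ContDiffOn.sub hu hv

theorem Sm.const (c : ℂ) : Sm fun _ => c := contDiffOn_const

theorem Sm.im : Sm fun z => (z.im : ℂ) := cd_im.contDiffOn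

theorem Sm.re : Sm fun z => (z.re : ℂ) := cd_re.contDiffOn

theorem Sm.Rs {u : ℂ → ℂ} (hu : Sm u) (c : ℂ) : Sm (Rs c u) :=
  (Sm.im.mul (((Sm.const I).mul hu.px).add hu.py)).add ((Sm.const c).mul hu)

theorem Sm.Lw {u : ℂ → ℂ} (hu : Sm u) (c : ℂ) : Sm (Lw c u) :=
  (Sm.im.mul (((Sm.const I).mul hu.px).sub hu.py)).add ((Sm.const c).mul hu)

theorem Sm.Eu {u : ℂ → ℂ} (hu : Sm u) : Sm (Eu u) := (Sm.re.mul hu.px).add (Sm.im.mul hu.py)

theorem Sm.up {u : ℂ → ℂ} (hu : Sm u) (b : ℕ) : Sm (up b u) := by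
  induction b with
  | zero => exact hu
  | succ b ih => exact ih.Rs _

theorem Sm.dn {u : ℂ → ℂ} (hu : Sm u) (b : ℕ) : Sm (dn b u) := by
  induction b with
  | zero => exact hu
  | succ b ih => exact ih.Lw _

theorem fd_congr {u v : ℂ → ℂ} (h : ∀ z ∈ HP, u z = v z) {z : ℂ} (hz : z ∈ HP) :
    fderiv ℝ u z = fderiv ℝ v z := by
  have e : u =ᶠ[𝓝 z] v := by
    filter_upwards [isOpen_HP.mem_nhds hz] with w hw
    exact h w hw
  exact e.fderiv_eq

theorem px_congr {u v : ℂ → ℂ} (h : ∀ z ∈ HP, u z = v z) {z : ℂ} (hz : z ∈ HP) :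
    px u z = px v z := by
  unfold px
  rw [fd_congr h hz]

theorem py_congr {u v : ℂ → ℂ} (h : ∀ z ∈ HP, u z = v z) {z : ℂ} (hz : z ∈ HP) :
    py u z = py v z := by
  unfold py
  rw [fd_congr h hz]

theorem Rs_congr {u v : ℂ → ℂ} (c : ℂ) (h : ∀ z ∈ HP, u z = v z) {z : ℂ} (hz : z ∈ HP) :
    Rs c u z = Rs c v z := by
  unfold Rs
  rw [px_congr h hz, py_congr h hz, h z hz]

theorem Lw_congr {u v : ℂ → ℂ} (c : ℂ) (h : ∀ z ∈ HP, u z = v z) {z : ℂ} (hz : z ∈ HP) :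
    Lw c u z = Lw c v z := by
  unfold Lw
  rw [px_congr h hz, py_congr h hz, h z hz]

theorem up_congr {u v : ℂ → ℂ} (h : ∀ z ∈ HP, u z = v z) (b : ℕ) :
    ∀ z ∈ HP, up b u z = up b v z := by
  induction b with
  | zero => exact h
  | succ b ih => exact fun z hz => Rs_congr _ ih hz

theorem dn_congr {u v : ℂ → ℂ} (h : ∀ z ∈ HP, u z = v z) (b : ℕ) :
    ∀ z ∈ HP, dn b u z = dn b v z := by
  induction b with
  | zero => exact h
  | succ b ih => exact fun z hz => Lw_congr _ ih hz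

theorem fd_zero {u : ℂ → ℂ} {S : Set ℂ} (hS : IsClosed S) (h : ∀ z, z ∉ S → u z = 0) {z : ℂ}
    (hz : z ∉ S) : fderiv ℝ u z = 0 := by
  have e : u =ᶠ[𝓝 z] fun _ => 0 := by
    filter_upwards [hS.isOpen_compl.mem_nhds hz] with w hw
    exact h w hw
  rw [e.fderiv_eq]
  simp

theorem Rs_zero {u : ℂ → ℂ} {S : Set ℂ} (hS : IsClosed S) (h : ∀ z, z ∉ S → u z = 0) (c : ℂ)
    {z : ℂ} (hz : z ∉ S) : Rs c u z = 0 := by
  unfold Rs px py
  rw [fd_zero hS h hz, h z hz]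
  simp

theorem Lw_zero {u : ℂ → ℂ} {S : Set ℂ} (hS : IsClosed S) (h : ∀ z, z ∉ S → u z = 0) (c : ℂ)
    {z : ℂ} (hz : z ∉ S) : Lw c u z = 0 := by
  unfold Lw px py
  rw [fd_zero hS h hz, h z hz]
  simp

theorem up_zero {u : ℂ → ℂ} {S : Set ℂ} (hS : IsClosed S) (h : ∀ z, z ∉ S → u z = 0) (b : ℕ) :
    ∀ z, z ∉ S → up b u z = 0 := by
  induction b with
  | zero => exact h
  | succ b ih => exact fun z hz => Rs_zero hS ih _ hz

theorem dn_zero {u : ℂ → ℂ} {S : Set ℂ} (hS : IsClosed S) (h : ∀ z, z ∉ S → u z = 0) (b : ℕ) :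
    ∀ z, z ∉ S → dn b u z = 0 := by
  induction b with
  | zero => exact h
  | succ b ih => exact fun z hz => Lw_zero hS ih _ hz

/-- the derivative of the conjugate -/
theorem fd_conj {u : ℂ → ℂ} {z : ℂ} (hu : DifferentiableAt ℝ u z) (v : ℂ) :
    fderiv ℝ (fun w => (starRingEnd ℂ) (u w)) z v = (starRingEnd ℂ) (fderiv ℝ u z v) := by
  have h := ((Complex.conjCLE : ℂ →L[ℝ] ℂ).hasFDerivAt (x := u z)).comp z hu.hasFDerivAt
  have e : (fun w => (starRingEnd ℂ) (u w)) = (Complex.conjCLE : ℂ →L[ℝ] ℂ) ∘ u := by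
    funext w
    simp
  rw [e, h.fderiv]
  simp

theorem conj_up {u : ℂ → ℂ} (hu : Sm u) (hr : IsRe u) (b : ℕ) :
    ∀ z ∈ HP, (starRingEnd ℂ) (up b u z) = (-1) ^ b * dn b u z := by
  induction b with
  | zero =>
    intro z hz
    rw [pow_zero, one_mul]
    exact Complex.conj_eq_iff_im.2 (hr z)
  | succ b ih =>
    intro z hz
    have hd : ∀ v : ℂ, (starRingEnd ℂ) (fderiv ℝ (up b u) z v) =
        (-1) ^ b * fderiv ℝ (dn b u) z v := by
      intro v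
      rw [← fd_conj ((hu.up b).diffAt hz), fd_congr ih hz]
      rw [fderiv_const_mul ((hu.dn b).diffAt hz)]
      rfl
    change (starRingEnd ℂ) (Rs (b : ℂ) (up b u) z) = (-1) ^ (b + 1) * Lw (-(b : ℂ)) (dn b u) z
    unfold Rs Lw px py
    rw [map_add, map_mul, map_mul, map_add, map_mul, hd, hd, ih z hz, Complex.conj_I,
      Complex.conj_ofReal, Complex.conj_natCast]
    ring

theorem smo : S_SMO := by
  refine ⟨fun c u hu => ⟨hu.px, hu.py, hu.Rs c, hu.Lw c, hu.Eu⟩, fun u hu b => ⟨hu.up b, hu.dn b⟩,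
    fun u v h b z hz => ⟨up_congr h b z hz, dn_congr h b z hz⟩,
    fun u S hS h b z hz => ⟨up_zero hS h b z hz, dn_zero hS h b z hz⟩, fun u hu hr b z hz => ?_⟩
  have h := congrArg norm (conj_up hu hr b z hz)
  rw [RCLike.norm_conj, norm_mul, norm_pow, norm_neg, norm_one, one_pow, one_mul] at h
  exact h.symm

end Pool.Agent.K1H18.NR
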