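import Pool.Agent.K1H18.NR.Defs
import Pool.Agent.TH421.DF.Main

/-! Project NR, piece SUP (helper52): pointwise bounds from `L²` norms. -/

set_option autoImplicit false

namespace Pool.Agent.K1H18.NR

open MeasureTheory Filter Topology Complex Set
open scoped ContDiff

noncomputable section

namespace SUP

lemma hp_open : IsOpen HP := isOpen_lt continuous_const Complex.continuous_im

lemma cintR {S : Set ℂ} (hS : IsCompact S) (hSB : S ⊆ HP) {F : ℂ → ℝ} (hF : ContinuousOn F HP)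
    (h0 : ∀ z, z ∉ S → F z = 0) : Integrable F := by
  have h1 : IntegrableOn F S := (hF.mono hSB).integrableOn_compact hS
  refine (integrableOn_iff_integrable_of_support_subset fun z hz => ?_).1 h1
  by_contra hzS
  exact hz (h0 z hzS)

/-- Cauchy-Schwarz -/
lemma cs {S : Set ℂ} (hS : IsCompact S) (hSB : S ⊆ HP) {F : ℂ → ℝ} (hF : ContinuousOn F HP)
    (h0 : ∀ z, z ∉ S → F z = 0) :
    ∫ z, F z ≤ ((∫ z in S, z.im ^ 2) + 1) * Real.sqrt (∫ z, F z ^ 2 / z.im ^ 2) := by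
  obtain ⟨a, ha⟩ : ∃ a, a = ∫ z in S, z.im ^ 2 := ⟨_, rfl⟩
  have ha0 : 0 ≤ a := by
    rw [ha]; exact setIntegral_nonneg hS.measurableSet fun z _ => sq_nonneg _
  obtain ⟨N, hN⟩ : ∃ N, N = Real.sqrt (∫ z, F z ^ 2 / z.im ^ 2) := ⟨_, rfl⟩
  have hq : 0 ≤ ∫ z, F z ^ 2 / z.im ^ 2 := integral_nonneg fun z => by positivity
  have hN2 : N ^ 2 = ∫ z, F z ^ 2 / z.im ^ 2 := by rw [hN, Real.sq_sqrt hq]
  have hN0 : 0 ≤ N := by rw [hN]; exact Real.sqrt_nonneg _
  have iF := cintR hS hSB hF h0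
  have iG : Integrable (fun z : ℂ => F z ^ 2 / z.im ^ 2) := by
    refine cintR hS hSB ((hF.pow 2).div (Complex.continuous_im.continuousOn.pow 2)
      fun z hz => ?_) fun z hz => ?_
    · have : 0 < z.im := hz
      positivity
    · rw [h0 z hz]; simp
  have iY : Integrable (S.indicator fun z : ℂ => z.im ^ 2) := by
    rw [integrable_indicator_iff hS.measurableSet]
    exact (Complex.continuous_im.pow 2).continuousOn.integrableOn_compact hS
  have key : ∀ t : ℝ, 0 < t → ∫ z, F z ≤ (t * a + N ^ 2 / t) / 2 := by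
    intro t ht
    have h1 : ∫ z, F z ≤
        ∫ z, (t * S.indicator (fun z : ℂ => z.im ^ 2) z + F z ^ 2 / z.im ^ 2 / t) / 2 := by
      refine integral_mono iF (((iY.const_mul t).add (iG.div_const t)).div_const 2) fun z => ?_
      by_cases hz : z ∈ S
      · have hy : 0 < z.im := hSB hz
        simp only [indicator_of_mem hz]
        have e : (t * z.im ^ 2 + F z ^ 2 / z.im ^ 2 / t) / 2 - F z =
            (t * z.im ^ 2 - F z) ^ 2 / (2 * t * z.im ^ 2) := by
          field_simp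
          ring
        have : 0 ≤ (t * z.im ^ 2 - F z) ^ 2 / (2 * t * z.im ^ 2) := by positivity
        change F z ≤ (t * z.im ^ 2 + F z ^ 2 / z.im ^ 2 / t) / 2
        linarith
      · simp [indicator_of_notMem hz, h0 z hz]
    rw [integral_div, integral_add (iY.const_mul t) (iG.div_const t), integral_const_mul,
      integral_indicator hS.measurableSet, integral_div, ← hN2, ← ha] at h1
    exact h1
  rw [← ha, ← hN]
  rcases hN0.eq_or_lt with h | h
  · rw [← h, mul_zero]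
    refine le_of_forall_pos_le_add fun ε hε => ?_
    have h2 := key (ε / (a + 1)) (by positivity)
    rw [← h] at h2
    have h3 : ε / (a + 1) * a ≤ ε := by
      rw [div_mul_eq_mul_div, div_le_iff₀ (by positivity)]
      nlinarith
    have h4 : ((0 : ℝ) ^ 2) / (ε / (a + 1)) = 0 := by simp
    rw [h4] at h2
    linarith
  · have h2 := key N h
    have h3 : N ^ 2 / N = N := by field_simp
    rw [h3] at h2
    nlinarith

lemma d_mul {f g : ℂ → ℂ} {z : ℂ} (v : ℂ) (hf : DifferentiableAt ℝ f z)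
    (hg : DifferentiableAt ℝ g z) :
    fderiv ℝ (fun w => f w * g w) z v = f z * fderiv ℝ g z v + fderiv ℝ f z v * g z := by
  rw [fderiv_fun_mul hf hg]
  simp only [add_apply, smul_apply, smul_eq_mul]
  ring

lemma d_pow {f : ℂ → ℂ} {z : ℂ} (v : ℂ) (hf : DifferentiableAt ℝ f z) (n : ℕ) :
    DifferentiableAt ℝ (fun w => f w ^ n) z ∧
    fderiv ℝ (fun w => f w ^ (n + 1)) z v = ((n : ℂ) + 1) * (f z ^ n * fderiv ℝ f z v) := by
  have hd : ∀ n : ℕ, DifferentiableAt ℝ (fun w => f w ^ n) z := fun n => hf.pow n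
  refine ⟨hd n, ?_⟩
  induction n with
  | zero => simp
  | succ n ih =>
    have e : (fun w => f w ^ (n + 1 + 1)) = fun w => f w ^ (n + 1) * f w := by
      funext w; rw [pow_succ (f w) (n + 1)]
    rw [e, d_mul v (hd (n + 1)) hf, ih]
    push_cast
    ring

lemma dAt {f : ℂ → ℂ} (hf : Sm f) {z : ℂ} (hz : z ∈ HP) : DifferentiableAt ℝ f z :=
  (hf.contDiffAt (hp_open.mem_nhds hz)).differentiableAt (by simp)

lemma sm_d {f : ℂ → ℂ} (hf : Sm f) (v : ℂ) : Sm (fun z => fderiv ℝ f z v) :=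
  Pool.Agent.W98.RW.cd_fderiv hp_open hf v

/-- the mixed derivative of a product -/
lemma ddU {r v : ℂ → ℂ} (hr : Sm r) (hv : Sm v) (n : ℕ) {z : ℂ} (hz : z ∈ HP) :
    py (px fun w => r w ^ (n + 2) * v w) z = r z ^ (n + 2) * py (px v) z +
      ((n : ℂ) + 2) * r z ^ (n + 1) * (py r z * px v z + px r z * py v z) +
      (((n : ℂ) + 2) * ((n : ℂ) + 1) * r z ^ n * px r z * py r z +
        ((n : ℂ) + 2) * r z ^ (n + 1) * py (px r) z) * v z := by
  have hpx : ∀ {f : ℂ → ℂ}, Sm f → Sm (px f) := fun hf => sm_d hf 1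
  have e1 : ∀ w ∈ HP, px (fun w => r w ^ (n + 2) * v w) w =
      r w ^ (n + 2) * px v w + ((n : ℂ) + 2) * (r w ^ (n + 1) * (px r w * v w)) := by
    intro w hw
    unfold px
    rw [d_mul 1 (d_pow 1 (dAt hr hw) (n + 2)).1 (dAt hv hw), (d_pow 1 (dAt hr hw) (n + 1)).2]
    push_cast
    ring
  have e2 : py (px fun w => r w ^ (n + 2) * v w) z = fderiv ℝ (fun w =>
      r w ^ (n + 2) * px v w + ((n : ℂ) + 2) * (r w ^ (n + 1) * (px r w * v w))) z I := by
    unfold py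
    rw [Filter.EventuallyEq.fderiv_eq (eventually_of_mem (hp_open.mem_nhds hz) e1)]
  have h1 := d_pow I (dAt hr hz)
  have dv := dAt hv hz
  have dpv := dAt (hpx hv) hz
  have dpr := dAt (hpx hr) hz
  have dm : DifferentiableAt ℝ (fun w => px r w * v w) z := dpr.mul dv
  have dm2 : DifferentiableAt ℝ (fun w => r w ^ (n + 1) * (px r w * v w)) z := (h1 (n + 1)).1.mul dm
  have dm3 : DifferentiableAt ℝ (fun w => r w ^ (n + 2) * px v w) z := (h1 (n + 2)).1.mul dpv
  have dm4 : DifferentiableAt ℝ (fun w => ((n : ℂ) + 2) * (r w ^ (n + 1) * (px r w * v w))) z :=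
    dm2.const_mul _
  rw [e2, fderiv_fun_add dm3 dm4, add_apply,
    d_mul I (h1 (n + 2)).1 dpv, (h1 (n + 1)).2, fderiv_const_mul dm2, smul_apply, smul_eq_mul,
    d_mul I (h1 (n + 1)).1 dm, (h1 n).2, d_mul I dpr dv]
  unfold py
  push_cast
  ring

/-- the estimate at a point -/
lemma alg {k A X Y V Vx Vy Vxy e3 e4 e5 p : ℝ} (hk : 1 ≤ k) (hA : 0 ≤ A) (hX : 0 ≤ X) (hY : 0 ≤ Y)
    (hV : 0 ≤ V) (hVx : 0 ≤ Vx) (h3 : 0 ≤ e3) (h4 : 0 ≤ e4) (h5 : 0 ≤ e5)
    (hVy0 : 0 ≤ Vy) (hVxy0 : 0 ≤ Vxy) (hVy : Vy ≤ Y * (e3 + X * Vx)) (hVxy : Vxy ≤ Y * (e4 + X * e5))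
    (hp : 0 ≤ p) :
    p * Vxy + k * p * (A * Vx + A * Vy) + (k * k * p * A * A + k * p * A) * V ≤
      (k ^ 2 * ((1 + A) ^ 2 * (3 + Y + Y * X))) * (p * V + p * Vx + p * e3 + p * e4 + p * e5) := by
  obtain ⟨Q, hQ⟩ : ∃ Q, Q = k ^ 2 * (1 + A) ^ 2 := ⟨_, rfl⟩
  have hk0 : 0 ≤ k := by linarith
  have q1 : 1 ≤ Q := by
    rw [hQ]
    have h1 : 1 ≤ k ^ 2 := by nlinarith
    have h2 : 1 ≤ (1 + A) ^ 2 := by nlinarith
    nlinarith
  have q2 : k * A ≤ Q := by
    rw [hQ]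
    have h1 : k ≤ k ^ 2 := by nlinarith
    have h2 : A ≤ (1 + A) ^ 2 := by nlinarith
    exact mul_le_mul h1 h2 hA (by positivity)
  have q3 : k * k * A * A ≤ Q := by
    rw [hQ]
    have h2 : A * A ≤ (1 + A) ^ 2 := by nlinarith
    calc k * k * A * A = k ^ 2 * (A * A) := by ring
      _ ≤ _ := mul_le_mul_of_nonneg_left h2 (by positivity)
  have hQ0 : 0 ≤ Q := by linarith
  have s1 : p * Vxy + k * p * (A * Vx + A * Vy) + (k * k * p * A * A + k * p * A) * V ≤
      p * (Q * (Vxy + Vx + Vy + 2 * V)) := by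
    have t1 : Vxy ≤ Q * Vxy := by nlinarith
    have t2 : k * A * Vx ≤ Q * Vx := mul_le_mul_of_nonneg_right q2 hVx
    have t3 : k * A * Vy ≤ Q * Vy := mul_le_mul_of_nonneg_right q2 hVy0
    have t4 : k * A * V ≤ Q * V := mul_le_mul_of_nonneg_right q2 hV
    have t5 : k * k * A * A * V ≤ Q * V := mul_le_mul_of_nonneg_right q3 hV
    calc _ = p * (Vxy + k * A * Vx + k * A * Vy + k * k * A * A * V + k * A * V) := by ring
      _ ≤ _ := mul_le_mul_of_nonneg_left (by linarith) hp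
  have s2 : Vxy + Vx + Vy + 2 * V ≤ (3 + Y + Y * X) * (V + Vx + e3 + e4 + e5) := by
    have hYX : 0 ≤ Y * X := mul_nonneg hY hX
    have a1 : 0 ≤ Y * V := mul_nonneg hY hV
    have a2 : 0 ≤ Y * Vx := mul_nonneg hY hVx
    have a5 : 0 ≤ Y * e5 := mul_nonneg hY h5
    have b1 : 0 ≤ Y * X * V := mul_nonneg hYX hV
    have b3 : 0 ≤ Y * X * e3 := mul_nonneg hYX h3
    have b4 : 0 ≤ Y * X * e4 := mul_nonneg hYX h4
    nlinarith
  refine s1.trans ?_
  calc p * (Q * (Vxy + Vx + Vy + 2 * V)) ≤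
      p * (Q * ((3 + Y + Y * X) * (V + Vx + e3 + e4 + e5))) :=
        mul_le_mul_of_nonneg_left (mul_le_mul_of_nonneg_left s2 hQ0) hp
    _ = _ := by rw [hQ]; ring

end SUP

open SUP in
/-- **Piece SUP.** -/
theorem sup_ (h1 : S_SMO) (h5 : S_COM) : S_SUP := by
  intro ρ hρ
  obtain ⟨S, hS'⟩ : ∃ S, S = tsupport ρ := ⟨_, rfl⟩
  have hS : IsCompact S := by rw [hS']; exact hρ.cs
  have hSB : S ⊆ HP := by rw [hS']; exact hρ.sub
  have hS0 : ∀ z, z ∉ S → ρ z = 0 := by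
    intro z hz
    rw [hS'] at hz
    exact image_eq_zero_of_notMem_tsupport hz
  obtain ⟨r, hr⟩ : ∃ r : ℂ → ℂ, r = fun z => (ρ z : ℂ) := ⟨_, rfl⟩
  have smr : Sm r := by
    rw [hr]
    exact (Complex.ofRealCLM.contDiff.comp hρ.sm).contDiffOn
  have hpx : ∀ {f : ℂ → ℂ}, Sm f → Sm (px f) := fun hf => sm_d hf 1
  have hpy : ∀ {f : ℂ → ℂ}, Sm f → Sm (py f) := fun hf => sm_d hf I
  obtain ⟨A1, hA1⟩ := hS.exists_bound_of_continuousOn ((hpx smr).continuousOn.mono hSB)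
  obtain ⟨A2, hA2⟩ := hS.exists_bound_of_continuousOn ((hpy smr).continuousOn.mono hSB)
  obtain ⟨A3, hA3⟩ := hS.exists_bound_of_continuousOn ((hpy (hpx smr)).continuousOn.mono hSB)
  obtain ⟨X', hX'⟩ := hS.exists_bound_of_continuousOn (f := fun z : ℂ => z.re)
    Complex.continuous_re.continuousOn
  obtain ⟨Y', hY'⟩ := hS.exists_bound_of_continuousOn (f := fun z : ℂ => (z.im)⁻¹)
    (Complex.continuous_im.continuousOn.inv₀ fun z hz => ne_of_gt (hSB hz))
  obtain ⟨A, hA⟩ : ∃ A, A = |A1| + |A2| + |A3| := ⟨_, rfl⟩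
  have hA0 : 0 ≤ A := by rw [hA]; positivity
  have lA1 : A1 ≤ A := by
    rw [hA]; have := le_abs_self A1; have := abs_nonneg A2; have := abs_nonneg A3; linarith
  have lA2 : A2 ≤ A := by
    rw [hA]; have := le_abs_self A2; have := abs_nonneg A1; have := abs_nonneg A3; linarith
  have lA3 : A3 ≤ A := by
    rw [hA]; have := le_abs_self A3; have := abs_nonneg A1; have := abs_nonneg A2; linarith
  obtain ⟨X, hX⟩ : ∃ X, X = |X'| := ⟨_, rfl⟩
  obtain ⟨Y, hY⟩ : ∃ Y, Y = |Y'| := ⟨_, rfl⟩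
  have hX0 : 0 ≤ X := by rw [hX]; positivity
  have hY0 : 0 ≤ Y := by rw [hY]; positivity
  obtain ⟨a, ha⟩ : ∃ a, a = ∫ z in S, z.im ^ 2 := ⟨_, rfl⟩
  have ha0 : 0 ≤ a := by
    rw [ha]; exact setIntegral_nonneg hS.measurableSet fun z _ => sq_nonneg _
  refine ⟨(1 + A) ^ 2 * (3 + Y + Y * X) * (a + 1), by positivity, ?_⟩
  intro u hu b z hz
  have hup : ∀ {f : ℂ → ℂ}, Sm f → Sm (up b f) := fun hf => (h1.2.1 _ hf b).1
  have hEu : ∀ {f : ℂ → ℂ}, Sm f → Sm (Eu f) := fun hf => (h1.1 0 _ hf).2.2.2.2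
  obtain ⟨v, hv⟩ : ∃ v, v = up b u := ⟨_, rfl⟩
  have smv : Sm v := by rw [hv]; exact hup hu
  obtain ⟨U, hU⟩ : ∃ U : ℂ → ℂ, U = fun w => r w ^ (b + 1 + 2) * v w := ⟨_, rfl⟩
  have U0 : ∀ w, w ∉ S → U w = 0 := by
    intro w hw
    rw [hU, hr]
    simp [hS0 w hw]
  have cU : ContDiff ℝ ∞ U := by
    refine Pool.Agent.TH421.DF.glob_cd hp_open hS hSB ?_ U0
    rw [hU]
    exact (smr.pow _).mul smv
  have sU : HasCompactSupport U := HasCompactSupport.intro hS U0
  have h2 := Pool.Agent.TH421.DF.sup_le cU sU z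
  have h3 : U z = up b u z := by
    rw [hU, hr, hv]
    simp [hz]
  rw [h3] at h2
  -- the functions in the bound
  obtain ⟨G, hG⟩ : ∃ G : (ℂ → ℂ) → ℂ → ℝ, G = fun f w => ρ w ^ (b + 1) * ‖up b f w‖ := ⟨_, rfl⟩
  have cρ : Continuous ρ := hρ.sm.continuous
  have cG : ∀ {f : ℂ → ℂ}, Sm f → ContinuousOn (G f) HP := by
    intro f hf
    rw [hG]
    exact (cρ.pow _).continuousOn.mul (hup hf).continuousOn.norm
  have G0 : ∀ (f : ℂ → ℂ) (w : ℂ), w ∉ S → G f w = 0 := by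
    intro f w hw
    rw [hG]
    simp [hS0 w hw]
  have iG : ∀ {f : ℂ → ℂ}, Sm f → Integrable (G f) := fun hf => cintR hS hSB (cG hf) (G0 _)
  have bG : ∀ {f : ℂ → ℂ}, Sm f → ∫ w, G f w ≤ (a + 1) * Nm ρ b f := by
    intro f hf
    have := cs hS hSB (cG hf) (G0 f)
    rw [← ha] at this
    unfold Nm
    rw [hG] at this ⊢
    exact this
  -- the pointwise bound
  have hpt : ∀ w, ‖fderiv ℝ (fun w' => fderiv ℝ U w' 1) w I‖ ≤
      (((b : ℝ) + 3) ^ 2 * ((1 + A) ^ 2 * (3 + Y + Y * X))) *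
        (G u w + G (px u) w + G (Eu u) w + G (Eu (px u)) w + G (px (px u)) w) := by
    intro w
    by_cases hw : w ∈ S
    · have hw' := hSB hw
      have hy : 0 < w.im := hw'
      have e0 : fderiv ℝ (fun w' => fderiv ℝ U w' 1) w I = py (px U) w := rfl
      rw [e0, hU, ddU smr smv (b + 1) hw']
      have ρ0 := hρ.nn w
      have ρ1 := hρ.le w
      have nr : ‖r w‖ = ρ w := by
        rw [hr]; simp [abs_of_nonneg ρ0]
      obtain ⟨p, hp⟩ : ∃ p, p = ρ w ^ (b + 1) := ⟨_, rfl⟩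
      have hp0 : 0 ≤ p := by rw [hp]; positivity
      have p2 : ‖r w ^ (b + 1 + 1)‖ ≤ p := by
        rw [norm_pow, nr, hp]; exact pow_le_pow_of_le_one ρ0 ρ1 (by omega)
      have p3 : ‖r w ^ (b + 1 + 2)‖ ≤ p := by
        rw [norm_pow, nr, hp]; exact pow_le_pow_of_le_one ρ0 ρ1 (by omega)
      have p1 : ‖r w ^ (b + 1)‖ = p := by rw [norm_pow, nr, hp]
      have k1 : ‖(((b + 1 : ℕ) : ℂ) + 2)‖ = (b : ℝ) + 3 := by
        have : (((b + 1 : ℕ) : ℂ) + 2) = (((b : ℝ) + 3 : ℝ) : ℂ) := by push_cast; ring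
        rw [this, Complex.norm_real, Real.norm_of_nonneg (by positivity)]
      have k2 : ‖(((b + 1 : ℕ) : ℂ) + 1)‖ ≤ (b : ℝ) + 3 := by
        have : (((b + 1 : ℕ) : ℂ) + 1) = (((b : ℝ) + 2 : ℝ) : ℂ) := by push_cast; ring
        rw [this, Complex.norm_real, Real.norm_of_nonneg (by positivity)]
        linarith
      -- the derivatives of v
      have c1 : ∀ w' ∈ HP, px v w' = up b (px u) w' := fun w' h' => by
        rw [hv]; exact ((h5.1 u hu b w' h').1).symm
      have hev : px v =ᶠ[𝓝 w] up b (px u) := eventually_of_mem (hp_open.mem_nhds hw') c1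
      have c2 : py (px v) w = py (up b (px u)) w := by
        unfold py; rw [hev.fderiv_eq]
      have c3 : (w.im : ℂ) * py (px v) w = up b (Eu (px u)) w - (w.re : ℂ) * up b (px (px u)) w := by
        rw [c2, (h5.1 (px u) (hpx hu) b w hw').2, (h5.1 (px u) (hpx hu) b w hw').1]
        unfold Eu
        ring
      have c4 : (w.im : ℂ) * py v w = up b (Eu u) w - (w.re : ℂ) * up b (px u) w := by
        rw [hv, (h5.1 u hu b w hw').2, (h5.1 u hu b w hw').1]
        unfold Eu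
        ring
      have nre : ‖(w.re : ℂ)‖ ≤ X := by
        rw [Complex.norm_real, hX]; exact (hX' w hw).trans (le_abs_self _)
      have nim : (w.im)⁻¹ ≤ Y := by
        rw [hY]; exact (le_abs_self _).trans ((hY' w hw).trans (le_abs_self _))
      have dv : ∀ P E F : ℂ, (w.im : ℂ) * P = E - (w.re : ℂ) * F → ‖P‖ ≤ Y * (‖E‖ + X * ‖F‖) := by
        intro P E F hP
        have q1 : w.im * ‖P‖ ≤ ‖E‖ + X * ‖F‖ := by
          calc w.im * ‖P‖ = ‖(w.im : ℂ) * P‖ := by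
                rw [norm_mul, Complex.norm_real, Real.norm_of_nonneg hy.le]
            _ = ‖E - (w.re : ℂ) * F‖ := by rw [hP]
            _ ≤ ‖E‖ + ‖(w.re : ℂ) * F‖ := norm_sub_le _ _
            _ ≤ _ := by
                rw [norm_mul]
                have := mul_le_mul_of_nonneg_right nre (norm_nonneg F)
                linarith
        calc ‖P‖ = (w.im)⁻¹ * (w.im * ‖P‖) := by field_simp
          _ ≤ (w.im)⁻¹ * (‖E‖ + X * ‖F‖) := mul_le_mul_of_nonneg_left q1 (by positivity)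
          _ ≤ _ := mul_le_mul_of_nonneg_right nim (by positivity)
      have n1 := (hA1 w hw).trans lA1
      have n2 := (hA2 w hw).trans lA2
      have n3 := (hA3 w hw).trans lA3
      have key := alg (k := (b : ℝ) + 3) (A := A) (X := X) (Y := Y) (V := ‖v w‖) (Vx := ‖px v w‖)
        (Vy := ‖py v w‖) (Vxy := ‖py (px v) w‖) (e3 := ‖up b (Eu u) w‖)
        (e4 := ‖up b (Eu (px u)) w‖) (e5 := ‖up b (px (px u)) w‖) (p := p)
        (by have : (0 : ℝ) ≤ b := by positivity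
            linarith) hA0 hX0 hY0 (norm_nonneg _) (norm_nonneg _) (norm_nonneg _) (norm_nonneg _)
        (norm_nonneg _) (norm_nonneg _) (norm_nonneg _)
        (by rw [c1 w hw']; exact dv _ _ _ c4) (dv _ _ _ c3) hp0
      have eG : G u w + G (px u) w + G (Eu u) w + G (Eu (px u)) w + G (px (px u)) w =
          p * ‖v w‖ + p * ‖px v w‖ + p * ‖up b (Eu u) w‖ + p * ‖up b (Eu (px u)) w‖ +
            p * ‖up b (px (px u)) w‖ := by
        rw [hG, c1 w hw', hv, hp]
      rw [eG]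
      refine le_trans ?_ key
      have hk0 : 0 ≤ (b : ℝ) + 3 := by positivity
      refine (norm_add₃_le).trans ?_
      gcongr ?_ + ?_ + ?_
      · rw [norm_mul]
        exact mul_le_mul_of_nonneg_right p3 (norm_nonneg _)
      · rw [norm_mul, norm_mul, k1]
        have q1 : ‖py r w * px v w + px r w * py v w‖ ≤ A * ‖px v w‖ + A * ‖py v w‖ := by
          refine (norm_add_le _ _).trans ?_
          rw [norm_mul, norm_mul]
          exact add_le_add (mul_le_mul_of_nonneg_right n2 (norm_nonneg _))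
            (mul_le_mul_of_nonneg_right n1 (norm_nonneg _))
        exact mul_le_mul (mul_le_mul_of_nonneg_left p2 hk0) q1 (norm_nonneg _) (by positivity)
      · rw [norm_mul]
        refine mul_le_mul_of_nonneg_right ?_ (norm_nonneg _)
        refine (norm_add_le _ _).trans ?_
        simp only [norm_mul]
        rw [k1, p1]
        refine add_le_add ?_ ?_
        · exact mul_le_mul (mul_le_mul (mul_le_mul_of_nonneg_right
            (mul_le_mul_of_nonneg_left k2 hk0) hp0) n1 (norm_nonneg _) (by positivity)) n2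
            (norm_nonneg _) (by positivity)
        · exact mul_le_mul (mul_le_mul_of_nonneg_left p2 hk0) n3 (norm_nonneg _) (by positivity)
    · have e1 : (fun w' => fderiv ℝ U w' 1) =ᶠ[𝓝 w] fun _ => 0 := by
        have hc : Sᶜ ∈ 𝓝 w := hS.isClosed.isOpen_compl.mem_nhds hw
        filter_upwards [hc] with w' hw'
        have e2 : U =ᶠ[𝓝 w'] fun _ => 0 :=
          eventually_of_mem (hS.isClosed.isOpen_compl.mem_nhds hw') fun x hx => U0 x hx
        rw [e2.fderiv_eq]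
        simp
      rw [e1.fderiv_eq]
      simp [G0 _ w hw]
  have cD : ContDiff ℝ ∞ (fun w => fderiv ℝ (fun w' => fderiv ℝ U w' 1) w I) :=
    Pool.Agent.TH421.DF.cdv (Pool.Agent.TH421.DF.cdv cU 1) I
  have iD : Integrable (fun w => ‖fderiv ℝ (fun w' => fderiv ℝ U w' 1) w I‖) :=
    (cD.continuous.integrable_of_hasCompactSupport
      ((sU.fderiv_apply ℝ 1).fderiv_apply ℝ I)).norm
  have i1 := iG hu
  have i2 := iG (hpx hu)
  have i3 := iG (hEu hu)
  have i4 := iG (hEu (hpx hu))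
  have i5 := iG (hpx (hpx hu))
  have h4 := integral_mono iD (((((i1.add i2).add i3).add i4).add i5).const_mul
    (((b : ℝ) + 3) ^ 2 * ((1 + A) ^ 2 * (3 + Y + Y * X)))) hpt
  refine h2.trans (h4.trans ?_)
  have e6 : ∫ w, (((b : ℝ) + 3) ^ 2 * ((1 + A) ^ 2 * (3 + Y + Y * X))) *
      (((((G u + G (px u)) + G (Eu u)) + G (Eu (px u))) + G (px (px u))) w) =
      (((b : ℝ) + 3) ^ 2 * ((1 + A) ^ 2 * (3 + Y + Y * X))) *
        ((∫ w, G u w) + (∫ w, G (px u) w) + (∫ w, G (Eu u) w) + (∫ w, G (Eu (px u)) w) +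
          ∫ w, G (px (px u)) w) := by
    rw [integral_const_mul]
    congr 1
    rw [integral_add' (((i1.add i2).add i3).add i4) i5, integral_add' ((i1.add i2).add i3) i4,
      integral_add' (i1.add i2) i3, integral_add' i1 i2]
  rw [e6]
  have b1 := bG hu
  have b2 := bG (hpx hu)
  have b3 := bG (hEu hu)
  have b4 := bG (hEu (hpx hu))
  have b5 := bG (hpx (hpx hu))
  calc (((b : ℝ) + 3) ^ 2 * ((1 + A) ^ 2 * (3 + Y + Y * X))) *
        ((∫ w, G u w) + (∫ w, G (px u) w) + (∫ w, G (Eu u) w) + (∫ w, G (Eu (px u)) w) +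
          ∫ w, G (px (px u)) w) ≤ (((b : ℝ) + 3) ^ 2 * ((1 + A) ^ 2 * (3 + Y + Y * X))) *
        ((a + 1) * Nm ρ b u + (a + 1) * Nm ρ b (px u) + (a + 1) * Nm ρ b (Eu u) +
          (a + 1) * Nm ρ b (Eu (px u)) + (a + 1) * Nm ρ b (px (px u))) :=
        mul_le_mul_of_nonneg_left (by linarith) (by positivity)
    _ = _ := by ring

end

end Pool.Agent.K1H18.NR
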