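import Pool.Agent.K1H18.NR.MainC
import Pool.Agent.K1H18.NR.T_SMO
import Pool.Agent.K1H18.NR.T_LEI
import Pool.Agent.K1H18.NR.T_EIG
import Pool.Agent.K1H18.NR.T_IBP
import Pool.Agent.K1H18.NR.T_REC
import Pool.Agent.K1H18.NR.T_GRW
import Pool.Agent.K1H18.NR.T_COM
import Pool.Agent.K1H18.NR.T_SUP
import Pool.Agent.K1H18.NR.T_BAS
import Pool.Agent.K1H18.NR.T_CMB
import Pool.Agent.K1H18.NR.T_ASY

set_option autoImplicit false

namespace Pool.Agent.K1H18.NR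

open MeasureTheory Filter Topology Complex
open scoped ContDiff

noncomputable section

theorem grw' : S_GRW := grw smo eig ibp

theorem main (N : ℕ) (a : Fin N → ℕ) (t : ℕ → ℝ)
    (s : Fin N → ℕ → ℝ) (f : ℕ → ℂ → ℝ) (g : Fin N → ℕ → ℂ → ℝ) (ht : Tendsto t atTop atTop)
    (ht0 : ∀ n, 0 ≤ t n) (hs0 : ∀ i n, 0 ≤ s i n) (hf : ∀ n, Sol (t n) (fun z => (f n z : ℂ)))
    (hg : ∀ i n, Sol (s i n) (fun z => (g i n z : ℂ))) (hfb : LocL2 f) (hgb : ∀ i, LocL2 (g i))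
    (hgap : Tendsto (fun n => (t n - ∑ i, (a i : ℝ) * s i n) /
      Real.sqrt (t n * Real.log (t n))) atTop atTop)
    (ψ : ℂ → ℝ) (hψ : ContDiff ℝ ∞ ψ) (hψc : HasCompactSupport ψ) (hψs : tsupport ψ ⊆ HP) (A : ℕ) :
    Tendsto (fun n => t n ^ A * ∫ z, ψ z * (f n z * ∏ i, g i n z ^ a i) / z.im ^ 2) atTop (𝓝 0) :=
  main_of smo prd (rec_ smo lei eig ibp) com grw' (sup_ smo com) (bas smo grw') cmb asy N a t s f g
    ht ht0 hs0 hf hg hfb hgb hgap ψ hψ hψc hψs A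

end

end Pool.Agent.K1H18.NR
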