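import Pool.Agent.K1H18.NR.Defs

set_option autoImplicit false

namespace Pool.Agent.K1H18.NR

open MeasureTheory Filter Topology Complex
open scoped ContDiff Manifold

noncomputable section

lemma HP_open : IsOpen HP := isOpen_lt continuous_const continuous_im

/-- a smooth cutoff -/
lemma exists_cut {K : Set ℂ} (hK : IsCompact K) (hKB : K ⊆ HP) :
    ∃ ρ : ℂ → ℝ, Cut ρ ∧ ∀ z ∈ K, ρ z = 1 := by
  obtain ⟨δ, hδ, hδB⟩ := hK.exists_cthickening_subset_open HP_open hKB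
  obtain ⟨f, hf1, hf2, hf3⟩ := exists_contMDiff_support_eq_eq_one_iff (𝓘(ℝ, ℂ))
    (Metric.isOpen_thickening (δ := δ) (E := K)) hK.isClosed
    (Metric.self_subset_thickening hδ K)
  refine ⟨f, ⟨hf1.contDiff, ?_, ?_, fun z => ?_, fun z => ?_⟩, fun z hz => ?_⟩
  · apply HasCompactSupport.of_support_subset_isCompact (hK.cthickening (r := δ))
    rw [hf3.1]
    exact Metric.thickening_subset_cthickening _ _
  · have : tsupport f ⊆ Metric.cthickening δ K := by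
      apply closure_minimal _ Metric.isClosed_cthickening
      rw [hf3.1]
      exact Metric.thickening_subset_cthickening _ _
    exact this.trans hδB
  · exact (hf2 ⟨z, rfl⟩).1
  · exact (hf2 ⟨z, rfl⟩).2
  · exact (hf3.2 z).1 hz

lemma Cut.zero {ρ : ℂ → ℝ} {z : ℂ} (hz : z ∉ tsupport ρ) : ρ z = 0 :=
  image_eq_zero_of_notMem_tsupport hz

lemma Cut.isc {ρ : ℂ → ℝ} (h : Cut ρ) : IsCompact (tsupport ρ) := h.cs

/-- integrability of the integrands of `Nm` -/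
lemma Nm_int (h1 : S_SMO) {ρ : ℂ → ℝ} (hρ : Cut ρ) {u : ℂ → ℂ} (hu : Sm u) (b : ℕ) :
    Integrable (fun z => (ρ z ^ (b + 1) * ‖up b u z‖) ^ 2 / z.im ^ 2) := by
  have c1 : ContinuousOn (fun z => (ρ z ^ (b + 1) * ‖up b u z‖) ^ 2 / z.im ^ 2) HP := by
    have e1 : ContinuousOn (fun z => ρ z) HP := hρ.sm.continuous.continuousOn
    have e2 : ContinuousOn (fun z => ‖up b u z‖) HP := ((h1.2.1 u hu b).1.continuousOn).norm
    refine (((e1.pow _).mul e2).pow 2).div (continuous_im.continuousOn.pow 2) fun z hz => ?_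
    exact pow_ne_zero 2 (ne_of_gt hz)
  have h2 : IntegrableOn (fun z => (ρ z ^ (b + 1) * ‖up b u z‖) ^ 2 / z.im ^ 2) (tsupport ρ) :=
    (c1.mono hρ.sub).integrableOn_compact hρ.isc
  refine (integrableOn_iff_integrable_of_support_subset fun z hz => ?_).1 h2
  by_contra hzS
  apply hz
  show (ρ z ^ (b + 1) * ‖up b u z‖) ^ 2 / z.im ^ 2 = 0
  rw [Cut.zero hzS]
  simp

lemma Nm_nonneg (ρ : ℂ → ℝ) (b : ℕ) (u : ℂ → ℂ) : 0 ≤ Nm ρ b u := Real.sqrt_nonneg _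

lemma Nm_mono (h1 : S_SMO) {ρ ρ' : ℂ → ℝ} (hρ : Cut ρ) (hρ' : Cut ρ')
    (h : ∀ z ∈ tsupport ρ, ρ' z = 1) {u : ℂ → ℂ} (hu : Sm u) : Nm ρ 0 u ≤ Nm ρ' 0 u := by
  refine Real.sqrt_le_sqrt (integral_mono (Nm_int h1 hρ hu 0) (Nm_int h1 hρ' hu 0) fun z => ?_)
  show (ρ z ^ (0 + 1) * ‖up 0 u z‖) ^ 2 / z.im ^ 2 ≤ (ρ' z ^ (0 + 1) * ‖up 0 u z‖) ^ 2 / z.im ^ 2
  have e : ρ z ≤ ρ' z := by
    by_cases hz : z ∈ tsupport ρ
    · rw [h z hz]; exact hρ.le z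
    · rw [Cut.zero hz]; exact hρ'.nn z
  have := hρ.nn z
  gcongr

/-- iteration of the growth estimate -/
lemma Nm_pow (h6 : S_GRW) {ρ : ℂ → ℝ} (hρ : Cut ρ) {c : ℝ} (hc : 0 ≤ c)
    (hcb : ∀ z ∈ HP, ‖Lw 0 (fun w => (ρ w : ℂ)) z‖ ≤ c) {s : ℝ} {u : ℂ → ℂ} (hs : 0 ≤ s)
    (hu : Sol s u) (x : ℕ) : ∀ b ≤ x, Nm ρ b u ≤ (s + (1 + 2 * c) * (x + 1)) ^ b * Nm ρ 0 u := by
  intro b
  induction b with
  | zero => intro _; simp
  | succ b ih =>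
    intro hb
    have h := h6 ρ hρ c hc hcb s u hs hu b
    have e : (b : ℝ) + 1 ≤ x := by exact_mod_cast hb
    have e2 : s + (b + 1) + c * (2 * b + 4) ≤ s + (1 + 2 * c) * (x + 1) := by nlinarith
    calc Nm ρ (b + 1) u ≤ (s + (b + 1) + c * (2 * b + 4)) * Nm ρ b u := h
      _ ≤ (s + (1 + 2 * c) * (x + 1)) * ((s + (1 + 2 * c) * (x + 1)) ^ b * Nm ρ 0 u) := by
          have := ih (by omega)
          have h0 := Nm_nonneg ρ b u
          gcongr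
      _ = _ := by ring

/-- a bound for `Lw 0 ρ` -/
lemma Lw_bdd {ρ : ℂ → ℝ} (hρ : Cut ρ) : ∃ c : ℝ, 0 ≤ c ∧
    ∀ z ∈ HP, ‖Lw 0 (fun w => (ρ w : ℂ)) z‖ ≤ c := by
  have c1 : ContDiff ℝ ∞ (fun w => (ρ w : ℂ)) := Complex.ofRealCLM.contDiff.comp hρ.sm
  have c2 : Continuous (fderiv ℝ (fun w => (ρ w : ℂ))) := c1.continuous_fderiv (by simp)
  have c3 : Continuous (Lw 0 (fun w => (ρ w : ℂ))) := by
    unfold Lw px py
    have a1 : Continuous fun z => fderiv ℝ (fun w => (ρ w : ℂ)) z 1 := c2.clm_apply continuous_const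
    have a2 : Continuous fun z => fderiv ℝ (fun w => (ρ w : ℂ)) z I := c2.clm_apply continuous_const
    have a3 : Continuous fun z => (ρ z : ℂ) := c1.continuous
    exact ((continuous_ofReal.comp continuous_im).mul ((continuous_const.mul a1).sub a2)).add
      (continuous_const.mul a3)
  obtain ⟨c, hc⟩ := hρ.isc.exists_bound_of_continuousOn c3.continuousOn
  refine ⟨max c 0, le_max_right _ _, fun z _ => ?_⟩
  by_cases hz : z ∈ tsupport ρ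
  · exact (hc z hz).trans (le_max_left _ _)
  · have e : fderiv ℝ (fun w => (ρ w : ℂ)) z = 0 := by
      have : (fun w => (ρ w : ℂ)) =ᶠ[𝓝 z] fun _ => 0 := by
        filter_upwards [(isClosed_tsupport ρ).isOpen_compl.mem_nhds hz] with w hw
        rw [Cut.zero hw]; simp
      rw [this.fderiv_eq]; simp
    have e2 : Lw 0 (fun w => (ρ w : ℂ)) z = 0 := by
      unfold Lw px py
      rw [e]; simp
    rw [e2, norm_zero]; exact le_max_right _ _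

/-- **Pointwise bounds of all derivatives of a real solution.** -/
theorem point (h1 : S_SMO) (h5 : S_COM) (h6 : S_GRW) (h7 : S_SUP) (h8 : S_BAS) {K : Set ℂ}
    (hK : IsCompact K) (hKB : K ⊆ HP) : ∃ (ρ : ℂ → ℝ) (C : ℝ), Cut ρ ∧ 0 ≤ C ∧
    ∀ (s : ℝ) (u : ℂ → ℂ), 0 ≤ s → Sol s u → IsRe u → ∀ x : ℕ, ∀ b ≤ x, ∀ z ∈ K,
      ‖up b u z‖ ≤ C * ((x : ℝ) + 3) ^ 2 * (1 + s) ^ 2 * (s + C * (x + 3)) ^ b * Nm ρ 0 u := by
  obtain ⟨ρ0, c0, k0⟩ := exists_cut hK hKB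
  obtain ⟨ρ1, c1, k1⟩ := exists_cut c0.isc c0.sub
  obtain ⟨ρ2, c2, k2⟩ := exists_cut c1.isc c1.sub
  obtain ⟨c, hc, hcb⟩ := Lw_bdd c0
  obtain ⟨Cs, hCs, hsup⟩ := h7 ρ0 c0
  obtain ⟨A, hA, hbA⟩ := h8 ρ0 ρ1 c0 c1 k1
  obtain ⟨B, hB, hbB⟩ := h8 ρ1 ρ2 c1 c2 k2
  obtain ⟨C, hC⟩ : ∃ C : ℝ, C = (1 + 2 * c) + Cs * (1 + 2 * A + 2 * A * B) := ⟨_, rfl⟩
  have C0 : 0 ≤ C := by rw [hC]; positivity
  have C1 : 1 + 2 * c ≤ C := by rw [hC]; have : 0 ≤ Cs * (1 + 2 * A + 2 * A * B) := by positivity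
                                linarith
  have C2 : Cs * (1 + 2 * A + 2 * A * B) ≤ C := by rw [hC]; linarith
  refine ⟨ρ2, C, c2, C0, fun s u hs hu hr x b hb z hz => ?_⟩
  have N2 := Nm_nonneg ρ2 0 u
  have m12 := Nm_mono h1 c1 c2 k2 hu.1
  have m01 := Nm_mono h1 c0 c1 k1 hu.1
  have hux := (h5.2.1 s u hu).1
  have rx := (h5.2.2 u hr).1
  -- the five norms
  have n0 : Nm ρ0 0 u ≤ (1 + s) ^ 2 * Nm ρ2 0 u := by
    calc Nm ρ0 0 u ≤ 1 * Nm ρ2 0 u := by linarith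
      _ ≤ _ := by gcongr; nlinarith
  have n1 : Nm ρ0 0 (px u) ≤ A * (1 + s) ^ 2 * Nm ρ2 0 u := by
    calc Nm ρ0 0 (px u) ≤ A * (1 + s) * Nm ρ1 0 u := (hbA s u hs hu hr).1
      _ ≤ A * (1 + s) * Nm ρ2 0 u := by gcongr
      _ ≤ _ := by gcongr; nlinarith
  have n2 : Nm ρ0 0 (Eu u) ≤ A * (1 + s) ^ 2 * Nm ρ2 0 u := by
    calc Nm ρ0 0 (Eu u) ≤ A * (1 + s) * Nm ρ1 0 u := (hbA s u hs hu hr).2
      _ ≤ A * (1 + s) * Nm ρ2 0 u := by gcongr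
      _ ≤ _ := by gcongr; nlinarith
  have n3 : Nm ρ0 0 (Eu (px u)) ≤ A * B * (1 + s) ^ 2 * Nm ρ2 0 u := by
    calc Nm ρ0 0 (Eu (px u)) ≤ A * (1 + s) * Nm ρ1 0 (px u) := (hbA s (px u) hs hux rx).2
      _ ≤ A * (1 + s) * (B * (1 + s) * Nm ρ2 0 u) := by gcongr; exact (hbB s u hs hu hr).1
      _ = _ := by ring
  have n4 : Nm ρ0 0 (px (px u)) ≤ A * B * (1 + s) ^ 2 * Nm ρ2 0 u := by
    calc Nm ρ0 0 (px (px u)) ≤ A * (1 + s) * Nm ρ1 0 (px u) := (hbA s (px u) hs hux rx).1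
      _ ≤ A * (1 + s) * (B * (1 + s) * Nm ρ2 0 u) := by gcongr; exact (hbB s u hs hu hr).1
      _ = _ := by ring
  -- growth
  obtain ⟨E, hE⟩ : ∃ E : ℝ, E = (s + (1 + 2 * c) * (x + 1)) ^ b := ⟨_, rfl⟩
  have E0 : 0 ≤ E := by rw [hE]; positivity
  have g : ∀ w : ℂ → ℂ, Sol s w → Nm ρ0 b w ≤ E * Nm ρ0 0 w := fun w hw => by
    rw [hE]; exact Nm_pow h6 c0 hc hcb hs hw x b hb
  have g0 := g u hu
  have g1 := g (px u) hux
  have g2 := g (Eu u) (h5.2.1 s u hu).2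
  have g3 := g (Eu (px u)) (h5.2.1 s _ hux).2
  have g4 := g (px (px u)) (h5.2.1 s _ hux).1
  have EE : E ≤ (s + C * (x + 3)) ^ b := by
    rw [hE]
    have : (1 + 2 * c) * ((x : ℝ) + 1) ≤ C * (x + 3) := by
      have hx : (0 : ℝ) ≤ x := Nat.cast_nonneg x
      calc (1 + 2 * c) * ((x : ℝ) + 1) ≤ (1 + 2 * c) * (x + 3) := by gcongr; norm_num
        _ ≤ _ := by gcongr
    gcongr
  have hbx : (b : ℝ) + 3 ≤ x + 3 := by have : (b : ℝ) ≤ x := by exact_mod_cast hb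
                                       linarith
  have key := hsup u hu.1 b z (k0 z hz)
  calc ‖up b u z‖ ≤ Cs * ((b : ℝ) + 3) ^ 2 * (Nm ρ0 b u + Nm ρ0 b (px u) + Nm ρ0 b (Eu u) +
        Nm ρ0 b (Eu (px u)) + Nm ρ0 b (px (px u))) := key
    _ ≤ Cs * ((x : ℝ) + 3) ^ 2 * (E * ((1 + 2 * A + 2 * A * B) * (1 + s) ^ 2 * Nm ρ2 0 u)) := by
        have q1 : Nm ρ0 b u + Nm ρ0 b (px u) + Nm ρ0 b (Eu u) +
            Nm ρ0 b (Eu (px u)) + Nm ρ0 b (px (px u)) ≤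
            E * ((1 + 2 * A + 2 * A * B) * (1 + s) ^ 2 * Nm ρ2 0 u) := by
          have r0 := mul_le_mul_of_nonneg_left n0 E0
          have r1 := mul_le_mul_of_nonneg_left n1 E0
          have r2 := mul_le_mul_of_nonneg_left n2 E0
          have r3 := mul_le_mul_of_nonneg_left n3 E0
          have r4 := mul_le_mul_of_nonneg_left n4 E0
          nlinarith
        have q0 : 0 ≤ Nm ρ0 b u + Nm ρ0 b (px u) + Nm ρ0 b (Eu u) +
            Nm ρ0 b (Eu (px u)) + Nm ρ0 b (px (px u)) := by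
          have := Nm_nonneg ρ0 b u
          have := Nm_nonneg ρ0 b (px u)
          have := Nm_nonneg ρ0 b (Eu u)
          have := Nm_nonneg ρ0 b (Eu (px u))
          have := Nm_nonneg ρ0 b (px (px u))
          positivity
        gcongr
    _ = (Cs * (1 + 2 * A + 2 * A * B)) * ((x : ℝ) + 3) ^ 2 * (1 + s) ^ 2 * E * Nm ρ2 0 u := by ring
    _ ≤ C * ((x : ℝ) + 3) ^ 2 * (1 + s) ^ 2 * (s + C * (x + 3)) ^ b * Nm ρ2 0 u := by gcongr

end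

end Pool.Agent.K1H18.NR
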