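import Pool.Agent.K1H18.NR.MainA

set_option autoImplicit false

namespace Pool.Agent.K1H18.NR

open MeasureTheory Filter Topology Complex
open scoped ContDiff

noncomputable section

lemma Sm.mul {F G : ℂ → ℂ} (hF : Sm F) (hG : Sm G) : Sm (fun w => F w * G w) :=
  ContDiffOn.mul hF hG

lemma Sm.pow {F : ℂ → ℂ} (hF : Sm F) (k : ℕ) : Sm (fun w => F w ^ k) := ContDiffOn.pow hF k

lemma Sm.one : Sm (fun _ => (1 : ℂ)) := contDiffOn_const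

lemma dn_pow (h2 : S_PRD) {m : ℕ} {z : ℂ} (hz : z ∈ HP) {F : ℂ → ℂ} (hF : Sm F) {q r : ℝ}
    (hq : 0 ≤ q) (hr : 0 ≤ r) (h : ∀ b ≤ m, ‖dn b F z‖ ≤ q * r ^ b) (k : ℕ) :
    ∀ b ≤ m, ‖dn b (fun w => F w ^ k) z‖ ≤ q ^ k * ((k : ℝ) * r) ^ b := by
  induction k with
  | zero =>
    intro b _
    have := h2.2 b z
    simpa using this
  | succ k ih =>
    have h3 := h2.1 m z hz (fun w => F w ^ k) F (hF.pow k) hF (q ^ k) ((k : ℝ) * r) q r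
      (by positivity) (by positivity) hq hr ih h
    intro b hb
    have h4 := h3 b hb
    have e : (fun w => F w ^ k * F w) = fun w => F w ^ (k + 1) := by funext w; rw [pow_succ]
    rw [e] at h4
    refine h4.trans (le_of_eq ?_)
    push_cast
    ring

lemma dn_prod (h2 : S_PRD) {N m : ℕ} {z : ℂ} (hz : z ∈ HP) {g : Fin N → ℂ → ℂ} (a : Fin N → ℕ)
    (hg : ∀ i, Sm (g i)) {q r : Fin N → ℝ} (hq : ∀ i, 0 ≤ q i) (hr : ∀ i, 0 ≤ r i)
    (h : ∀ i, ∀ b ≤ m, ‖dn b (g i) z‖ ≤ q i * r i ^ b) (T : Finset (Fin N)) :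
    Sm (fun w => ∏ i ∈ T, g i w ^ a i) ∧ ∀ b ≤ m, ‖dn b (fun w => ∏ i ∈ T, g i w ^ a i) z‖ ≤
      (∏ i ∈ T, q i ^ a i) * (∑ i ∈ T, (a i : ℝ) * r i) ^ b := by
  classical
  induction T using Finset.induction_on with
  | empty =>
    refine ⟨by simpa using Sm.one, fun b _ => ?_⟩
    have := h2.2 b z
    simpa using this
  | insert i T hi ih =>
    have e : (fun w => ∏ j ∈ insert i T, g j w ^ a j) =
        fun w => g i w ^ a i * ∏ j ∈ T, g j w ^ a j := by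
      funext w; rw [Finset.prod_insert hi]
    rw [e]
    refine ⟨((hg i).pow _).mul ih.1, fun b hb => ?_⟩
    rw [Finset.prod_insert hi, Finset.sum_insert hi]
    exact h2.1 m z hz _ _ ((hg i).pow _) ih.1 _ _ _ _ (pow_nonneg (hq i) _)
      (mul_nonneg (Nat.cast_nonneg _) (hr i)) (Finset.prod_nonneg fun j _ => pow_nonneg (hq j) _)
      (Finset.sum_nonneg fun j _ => mul_nonneg (Nat.cast_nonneg _) (hr j))
      (dn_pow h2 hz (hg i) (hq i) (hr i) (h i) (a i)) ih.2 b hb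

/-- the bound of the integrals -/
lemma JJ_le {ψ G f : ℂ → ℂ} {K : Set ℂ} (hK : IsCompact K)
    (h1 : S_SMO) (h0 : ∀ z, z ∉ K → ψ z = 0) {Y : ℝ} (hY : ∀ z ∈ K, 1 / z.im ^ 2 ≤ Y) (a b : ℕ)
    {p q r : ℝ} (hp : 0 ≤ p) (hq : 0 ≤ q) (hr : 0 ≤ r) (h2 : ∀ z ∈ K, ‖dn a ψ z‖ ≤ p)
    (h3 : ∀ z ∈ K, ‖dn b G z‖ ≤ q) (h4 : ∀ z ∈ K, ‖up (a + b) f z‖ ≤ r) :
    ‖JJ ψ G f a b‖ ≤ p * q * r * Y * volume.real K := by
  have e : JJ ψ G f a b = ∫ z in K, dn a ψ z * dn b G z * up (a + b) f z / (z.im : ℂ) ^ 2 := by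
    unfold JJ
    rw [setIntegral_eq_integral_of_forall_compl_eq_zero]
    intro z hz
    rw [(h1.2.2.2.1 ψ K hK.isClosed h0 a z hz).2]
    simp
  rw [e]
  refine (norm_setIntegral_le_of_norm_le_const (C := p * q * r * Y) hK.measure_lt_top
    fun z hz => ?_).trans (le_of_eq rfl)
  rw [norm_div, norm_mul, norm_mul, norm_pow, Complex.norm_real, Real.norm_eq_abs, sq_abs]
  have y1 := hY z hz
  have y0 : 0 ≤ 1 / z.im ^ 2 := by positivity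
  calc ‖dn a ψ z‖ * ‖dn b G z‖ * ‖up (a + b) f z‖ / z.im ^ 2
      = ‖dn a ψ z‖ * ‖dn b G z‖ * ‖up (a + b) f z‖ * (1 / z.im ^ 2) := by ring
    _ ≤ p * q * r * Y := by
        have := h2 z hz
        have := h3 z hz
        have := h4 z hz
        gcongr

/-- `LocL2` bounds the norm of the functions -/
lemma Nm_le_of (h1 : S_SMO) {ρ : ℂ → ℝ} (hρ : Cut ρ) {u : ℂ → ℝ}
    (hu : Sm (fun z => (u z : ℂ))) {C Y : ℝ} (hY0 : 0 ≤ Y)
    (hY : ∀ z ∈ tsupport ρ, 1 / z.im ^ 2 ≤ Y)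
    (h : ∫ z in tsupport ρ, u z ^ 2 ≤ C) : Nm ρ 0 (fun z => (u z : ℂ)) ≤ Real.sqrt (Y * C) := by
  refine Real.sqrt_le_sqrt ?_
  have e : ∫ z, (ρ z ^ (0 + 1) * ‖up 0 (fun z => (u z : ℂ)) z‖) ^ 2 / z.im ^ 2 =
      ∫ z in tsupport ρ, (ρ z ^ (0 + 1) * ‖up 0 (fun z => (u z : ℂ)) z‖) ^ 2 / z.im ^ 2 := by
    rw [setIntegral_eq_integral_of_forall_compl_eq_zero]
    intro z hz
    rw [Cut.zero hz]; simp
  rw [e]
  have cu : ContinuousOn u (tsupport ρ) := by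
    have := (Complex.continuous_re.comp_continuousOn
      (show ContinuousOn (fun z => (u z : ℂ)) HP from hu.continuousOn)).mono hρ.sub
    simpa [Function.comp_def] using this
  have i1 : IntegrableOn (fun z => Y * u z ^ 2) (tsupport ρ) :=
    (continuousOn_const.mul (cu.pow 2)).integrableOn_compact hρ.isc
  calc ∫ z in tsupport ρ, (ρ z ^ (0 + 1) * ‖up 0 (fun z => (u z : ℂ)) z‖) ^ 2 / z.im ^ 2
      ≤ ∫ z in tsupport ρ, Y * u z ^ 2 := by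
        refine setIntegral_mono_on (Nm_int h1 hρ hu 0).integrableOn i1
          (isClosed_tsupport ρ).measurableSet fun z hz => ?_
        show (ρ z ^ (0 + 1) * ‖((u z : ℝ) : ℂ)‖) ^ 2 / z.im ^ 2 ≤ Y * u z ^ 2
        rw [Complex.norm_real, Real.norm_eq_abs, zero_add, pow_one, mul_pow, sq_abs]
        have a1 := hρ.nn z
        have a2 := hρ.le z
        have a3 := hY z hz
        have a4 : ρ z ^ 2 ≤ 1 := pow_le_one₀ a1 a2
        calc ρ z ^ 2 * u z ^ 2 / z.im ^ 2 = ρ z ^ 2 * (1 / z.im ^ 2) * u z ^ 2 := by ring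
          _ ≤ 1 * Y * u z ^ 2 := by gcongr
          _ = _ := by ring
    _ = Y * ∫ z in tsupport ρ, u z ^ 2 := by rw [integral_const_mul]
    _ ≤ Y * C := by gcongr

lemma exists_Y {K : Set ℂ} (hK : IsCompact K) (hKB : K ⊆ HP) :
    ∃ Y : ℝ, 0 ≤ Y ∧ ∀ z ∈ K, 1 / z.im ^ 2 ≤ Y := by
  have c : ContinuousOn (fun z : ℂ => 1 / z.im ^ 2) K :=
    continuousOn_const.div (continuous_im.continuousOn.pow 2) fun z hz =>
      pow_ne_zero 2 (ne_of_gt (hKB hz))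
  obtain ⟨Y, hY⟩ := hK.exists_bound_of_continuousOn c
  exact ⟨max Y 0, le_max_right _ _, fun z hz =>
    (le_abs_self _).trans ((hY z hz).trans (le_max_left _ _))⟩

/-- locally bounded in `L²` -/
def LocL2 (f : ℕ → ℂ → ℝ) : Prop :=
  ∀ K : Set ℂ, IsCompact K → K ⊆ HP → ∃ C : ℝ, ∀ᶠ n in atTop, ∫ z in K, f n z ^ 2 ≤ C

/-- uniform bounds for a sequence of solutions -/
theorem point_seq (h1 : S_SMO) (h5 : S_COM) (h6 : S_GRW) (h7 : S_SUP) (h8 : S_BAS) {K : Set ℂ}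
    (hK : IsCompact K) (hKB : K ⊆ HP) {s : ℕ → ℝ} {f : ℕ → ℂ → ℝ} (hs : ∀ n, 0 ≤ s n)
    (hf : ∀ n, Sol (s n) (fun z => (f n z : ℂ))) (hb : LocL2 f) :
    ∃ C : ℝ, 0 ≤ C ∧ ∀ᶠ n in atTop, ∀ x : ℕ, ∀ b ≤ x, ∀ z ∈ K,
      ‖up b (fun z => (f n z : ℂ)) z‖ ≤
        C * ((x : ℝ) + 3) ^ 2 * (1 + s n) ^ 2 * (s n + C * (x + 3)) ^ b := by
  obtain ⟨ρ, C, cρ, C0, hC⟩ := point h1 h5 h6 h7 h8 hK hKB
  obtain ⟨Y, Y0, hY⟩ := exists_Y cρ.isc cρ.sub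
  obtain ⟨B, hB⟩ := hb _ cρ.isc cρ.sub
  obtain ⟨E, hE⟩ : ∃ E : ℝ, E = C + C * Real.sqrt (Y * B) := ⟨_, rfl⟩
  have E0 : 0 ≤ E := by rw [hE]; positivity
  have CE : C ≤ E := by rw [hE]; have : 0 ≤ C * Real.sqrt (Y * B) := by positivity
                        linarith
  have CE2 : C * Real.sqrt (Y * B) ≤ E := by rw [hE]; linarith
  refine ⟨E, E0, ?_⟩
  filter_upwards [hB] with n hn x b hbx z hz
  have n1 := Nm_le_of h1 cρ (hf n).1 Y0 hY hn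
  have h := hC (s n) _ (hs n) (hf n) (fun z => by simp) x b hbx z hz
  have hsn := hs n
  calc ‖up b (fun z => (f n z : ℂ)) z‖
      ≤ C * ((x : ℝ) + 3) ^ 2 * (1 + s n) ^ 2 * (s n + C * (x + 3)) ^ b *
        Nm ρ 0 (fun z => (f n z : ℂ)) := h
    _ ≤ C * ((x : ℝ) + 3) ^ 2 * (1 + s n) ^ 2 * (s n + C * (x + 3)) ^ b *
        Real.sqrt (Y * B) := by gcongr
    _ = (C * Real.sqrt (Y * B)) * ((x : ℝ) + 3) ^ 2 * (1 + s n) ^ 2 * (s n + C * (x + 3)) ^ b := by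
        ring
    _ ≤ _ := by gcongr

end

end Pool.Agent.K1H18.NR
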