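import Pool.Agent.K1H18.NR.MainB

set_option autoImplicit false

namespace Pool.Agent.K1H18.NR

open MeasureTheory Filter Topology Complex
open scoped ContDiff

noncomputable section

theorem main_of (h1 : S_SMO) (h2 : S_PRD) (h3 : S_REC) (h5 : S_COM) (h6 : S_GRW) (h7 : S_SUP)
    (h8 : S_BAS) (h9 : S_CMB) (h10 : S_ASY) (N : ℕ) (a : Fin N → ℕ) (t : ℕ → ℝ)
    (s : Fin N → ℕ → ℝ) (f : ℕ → ℂ → ℝ) (g : Fin N → ℕ → ℂ → ℝ) (ht : Tendsto t atTop atTop)
    (ht0 : ∀ n, 0 ≤ t n) (hs0 : ∀ i n, 0 ≤ s i n) (hf : ∀ n, Sol (t n) (fun z => (f n z : ℂ)))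
    (hg : ∀ i n, Sol (s i n) (fun z => (g i n z : ℂ))) (hfb : LocL2 f) (hgb : ∀ i, LocL2 (g i))
    (hgap : Tendsto (fun n => (t n - ∑ i, (a i : ℝ) * s i n) /
      Real.sqrt (t n * Real.log (t n))) atTop atTop)
    (ψ : ℂ → ℝ) (hψ : ContDiff ℝ ∞ ψ) (hψc : HasCompactSupport ψ) (hψs : tsupport ψ ⊆ HP) (A : ℕ) :
    Tendsto (fun n => t n ^ A * ∫ z, ψ z * (f n z * ∏ i, g i n z ^ a i) / z.im ^ 2) atTop (𝓝 0) := by
  classical
  have hK : IsCompact (tsupport ψ) := hψc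
  obtain ⟨Cf, Cf0, hCf⟩ := point_seq h1 h5 h6 h7 h8 hK hψs ht0 hf hfb
  choose Cg Cg0 hCg using fun i => point_seq h1 h5 h6 h7 h8 hK hψs (hs0 i) (hg i) (hgb i)
  obtain ⟨C0, hC0⟩ : ∃ C0 : ℝ, C0 = Cf + ∑ i, Cg i := ⟨_, rfl⟩
  have hsum0 : 0 ≤ ∑ i, Cg i := Finset.sum_nonneg fun i _ => Cg0 i
  have C00 : 0 ≤ C0 := by rw [hC0]; positivity
  have fC : Cf ≤ C0 := by rw [hC0]; linarith
  have gC : ∀ i, Cg i ≤ C0 := fun i => by
    have := Finset.single_le_sum (fun j _ => Cg0 j) (Finset.mem_univ i)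
    rw [hC0]; linarith
  obtain ⟨J, hJ⟩ : ∃ J : ℕ, J = ∑ i, a i := ⟨_, rfl⟩
  obtain ⟨C, hC⟩ : ∃ C : ℝ, C = ((J : ℝ) + 1) * C0 := ⟨_, rfl⟩
  have Cn : 0 ≤ C := by rw [hC]; positivity
  have CC : C0 ≤ C := by
    rw [hC]; have : 0 ≤ (J : ℝ) * C0 := by positivity
    linarith
  have CJ : (J : ℝ) * C0 ≤ C := by rw [hC]; linarith
  obtain ⟨S, hS⟩ : ∃ S : ℕ → ℝ, ∀ n, S n = ∑ i, (a i : ℝ) * s i n := ⟨_, fun _ => rfl⟩
  have S0 : ∀ n, 0 ≤ S n := fun n => by
    rw [hS]; exact Finset.sum_nonneg fun i _ => mul_nonneg (Nat.cast_nonneg _) (hs0 i n)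
  simp only [← hS] at hgap
  obtain ⟨M, m, hev, hlim⟩ := h10 t S ht S0 hgap C (2 * (J + 1)) A Cn
  -- the test function
  obtain ⟨φ, hφ⟩ : ∃ φ : ℂ → ℂ, φ = fun z => (ψ z : ℂ) := ⟨_, rfl⟩
  have sφ : Sm φ := by rw [hφ]; exact (Complex.ofRealCLM.contDiff.comp hψ).contDiffOn
  have zφ : ∀ z, z ∉ tsupport ψ → φ z = 0 := fun z hz => by
    rw [hφ]; show (ψ z : ℂ) = 0; rw [image_eq_zero_of_notMem_tsupport hz]; simp
  have hP : ∀ k : ℕ, ∃ P : ℝ, ∀ z ∈ tsupport ψ, ‖dn k φ z‖ ≤ P := fun k =>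
    hK.exists_bound_of_continuousOn (((h1.2.1 φ sφ k).2.continuousOn).mono hψs)
  choose P hP using hP
  obtain ⟨Q0, hQ0⟩ : ∃ Q0 : ℝ, Q0 = ∑ k ∈ Finset.range (M + 1), |P k| := ⟨_, rfl⟩
  have Q00 : 0 ≤ Q0 := by rw [hQ0]; exact Finset.sum_nonneg fun k _ => abs_nonneg _
  have hPQ : ∀ k ≤ M, ∀ z ∈ tsupport ψ, ‖dn k φ z‖ ≤ Q0 := fun k hk z hz => by
    refine (hP k z hz).trans ((le_abs_self _).trans ?_)
    rw [hQ0]
    exact Finset.single_le_sum (f := fun k => |P k|) (fun j _ => abs_nonneg _)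
      (Finset.mem_range.2 (by omega))
  obtain ⟨Y, Y0, hY⟩ := exists_Y hK hψs
  obtain ⟨R, hR⟩ : ∃ R : ℝ, R = Q0 * Y * volume.real (tsupport ψ) * C0 ^ (J + 1) := ⟨_, rfl⟩
  have R0 : 0 ≤ R := by rw [hR]; positivity
  -- the main estimate
  have key : ∀ᶠ n in atTop, ‖t n ^ A * ∫ z, ψ z * (f n z * ∏ i, g i n z ^ a i) / z.im ^ 2‖ ≤
      R * (t n ^ A * ((m n : ℝ) + M + 3) ^ (2 * (J + 1)) * (1 + t n) ^ (2 * (J + 1)) *
        ((m n : ℝ) + 1) ^ M *
      (((t n + C * ((m n : ℝ) + M + 3)) / t n ^ 2) ^ M +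
        ((t n + C * ((m n : ℝ) + M + 3)) * (S n + C * ((m n : ℝ) + M + 3)) / t n ^ 2) ^ (m n))) := by
    filter_upwards [hev, hCf, eventually_all.2 hCg] with n hn hfn hgn
    obtain ⟨tp, St, e1, e2⟩ := hn
    obtain ⟨y, hy⟩ : ∃ y : ℝ, y = (m n : ℝ) + M + 3 := ⟨_, rfl⟩
    have y0 : 0 ≤ y := by rw [hy]; positivity
    rw [← hy] at e1 e2 ⊢
    have hyx : (((m n + M : ℕ) : ℝ) + 3) = y := by rw [hy]; push_cast; ring
    have Sn := S0 n
    obtain ⟨q, hq⟩ : ∃ q : ℝ, q = C0 * y ^ 2 * (1 + t n) ^ 2 := ⟨_, rfl⟩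
    have q0 : 0 ≤ q := by rw [hq]; positivity
    -- the bound of the factors
    have bg : ∀ z ∈ tsupport ψ, ∀ b ≤ m n + M, ‖dn b (fun w => ∏ i, (g i n w : ℂ) ^ a i) z‖ ≤
        q ^ J * (S n + C * y) ^ b := by
      intro z hz b hb
      have hzH := hψs hz
      have h := (dn_prod h2 hzH (m := m n + M) (g := fun i w => (g i n w : ℂ)) a
        (fun i => (hg i n).1) (q := fun i => Cg i * y ^ 2 * (1 + s i n) ^ 2)
        (r := fun i => s i n + Cg i * y)
        (fun i => by have := Cg0 i; have := hs0 i n; positivity)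
        (fun i => by have := Cg0 i; have := hs0 i n; positivity)
        (fun i b hb => by
          rw [h1.2.2.2.2 _ (hg i n).1 (fun z => by simp) b z hzH]
          have := hgn i (m n + M) b hb z hz
          rwa [hyx] at this) Finset.univ).2 b hb
      refine h.trans ?_
      have k1 : ∏ i, (Cg i * y ^ 2 * (1 + s i n) ^ 2) ^ a i ≤ q ^ J := by
        rw [hJ, ← Finset.prod_pow_eq_pow_sum]
        refine Finset.prod_le_prod (fun i _ => ?_) fun i _ => ?_
        · have := Cg0 i; have := hs0 i n; positivity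
        · rcases Nat.eq_zero_or_pos (a i) with h0 | h0
          · rw [h0, pow_zero, pow_zero]
          · have si : s i n ≤ t n := by
              have a1 : (1 : ℝ) ≤ a i := by exact_mod_cast h0
              have a2 : s i n ≤ (a i : ℝ) * s i n := le_mul_of_one_le_left (hs0 i n) a1
              have a3 := Finset.single_le_sum (f := fun i => (a i : ℝ) * s i n)
                (fun j _ => mul_nonneg (Nat.cast_nonneg _) (hs0 j n)) (Finset.mem_univ i)
              rw [← hS] at a3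
              exact a2.trans (a3.trans St)
            have := Cg0 i; have := hs0 i n
            have := gC i
            rw [hq]
            gcongr
      have k2 : ∑ i, (a i : ℝ) * (s i n + Cg i * y) ≤ S n + C * y := by
        have : ∑ i, (a i : ℝ) * (s i n + Cg i * y) ≤ ∑ i, ((a i : ℝ) * s i n + (a i : ℝ) * (C0 * y)) := by
          refine Finset.sum_le_sum fun i _ => ?_
          have h9 := mul_le_mul_of_nonneg_right (gC i) y0
          have h10 := mul_le_mul_of_nonneg_left h9 (Nat.cast_nonneg (α := ℝ) (a i))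
          linarith
        refine this.trans ?_
        rw [Finset.sum_add_distrib, ← Finset.sum_mul, ← hS]
        have e3 : ∑ i, (a i : ℝ) = (J : ℝ) := by rw [hJ]; push_cast; rfl
        rw [e3, ← mul_assoc]
        gcongr
      have k3 : 0 ≤ ∑ i, (a i : ℝ) * (s i n + Cg i * y) := Finset.sum_nonneg fun i _ => by
        have := Cg0 i; have := hs0 i n; positivity
      have k4 : 0 ≤ q ^ J := pow_nonneg q0 _
      exact mul_le_mul k1 (pow_le_pow_left₀ k3 k2 b) (pow_nonneg k3 b) k4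
    have bf : ∀ z ∈ tsupport ψ, ∀ b ≤ m n + M, ‖up b (fun w => (f n w : ℂ)) z‖ ≤
        q * (t n + C * y) ^ b := by
      intro z hz b hb
      have h := hfn (m n + M) b hb z hz
      rw [hyx] at h
      refine h.trans ?_
      rw [hq]
      have := ht0 n
      have := fC.trans CC
      gcongr
    -- the recursion
    obtain ⟨G, hG⟩ : ∃ G : ℂ → ℂ, G = fun w => ∏ i, (g i n w : ℂ) ^ a i := ⟨_, rfl⟩
    obtain ⟨F, hF⟩ : ∃ F : ℂ → ℂ, F = fun w => (f n w : ℂ) := ⟨_, rfl⟩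
    have sG : Sm G := by
      rw [hG]
      exact contDiffOn_prod fun i _ => (hg i n).1.pow (a i)
    have sF : Sol (t n) F := by rw [hF]; exact hf n
    rw [← hG] at bg
    rw [← hF] at bf
    obtain ⟨Q, hQ⟩ : ∃ Q : ℝ, Q = Q0 * Y * volume.real (tsupport ψ) * q ^ (J + 1) := ⟨_, rfl⟩
    have Qn : 0 ≤ Q := by rw [hQ]; positivity
    have t2 : t n ^ 2 ≠ 0 := by positivity
    have tn := ht0 n
    obtain ⟨α, hα⟩ : ∃ α : ℝ, α = (t n + C * y) / t n ^ 2 := ⟨_, rfl⟩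
    obtain ⟨β, hβ⟩ : ∃ β : ℝ, β = (t n + C * y) * (S n + C * y) / t n ^ 2 := ⟨_, rfl⟩
    have α0 : 0 ≤ α := by rw [hα]; positivity
    have β0 : 0 ≤ β := by rw [hβ]; positivity
    have α1 : α * t n ^ 2 = t n + C * y := by rw [hα, div_mul_cancel₀ _ t2]
    have β1 : β * t n ^ 2 = (t n + C * y) * (S n + C * y) := by rw [hβ, div_mul_cancel₀ _ t2]
    rw [← hα] at e1 ⊢
    rw [← hβ] at e2 ⊢
    have bT : ∀ a' ≤ M, ∀ b' ≤ m n, ‖JJ φ G F a' b'‖ ≤
        Q * (α * t n ^ 2) ^ a' * (β * t n ^ 2) ^ b' := by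
      intro a' ha' b' hb'
      have := JJ_le (G := G) (f := F) hK h1
        zφ hY a' b' Q00 (q := q ^ J * (S n + C * y) ^ b') (r := q * (t n + C * y) ^ (a' + b'))
        (by positivity) (by positivity) (hPQ a' ha') (fun z hz => bg z hz b' (by omega))
        (fun z hz => bf z hz (a' + b') (by omega))
      refine this.trans (le_of_eq ?_)
      rw [α1, β1, hQ]
      generalize t n + C * y = X
      generalize S n + C * y = Z
      rw [mul_pow, pow_add]
      ring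
    have cmb := h9 (fun a' b' => JJ φ G F a' b') (fun p => sg (t n) p) (t n) Q α β M (m n) tp
      (fun p => by unfold sg; nlinarith [sq_nonneg ((p : ℝ) + 1 / 2)])
      (fun a' b' => h3 (t n) φ G F sφ sG sF (tsupport ψ) hK hψs zφ a' b')
      Qn α0 e1 β0 e2 bT
    -- back to the integral
    have e3 : JJ φ G F 0 0 =
        ((∫ z, ψ z * (f n z * ∏ i, g i n z ^ a i) / z.im ^ 2 : ℝ) : ℂ) := by
      rw [← integral_complex_ofReal]
      unfold JJ
      congr 1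
      funext z
      show φ z * G z * F z / (z.im : ℂ) ^ 2 = _
      rw [hφ, hG, hF]
      push_cast
      ring
    simp only [e3, Complex.norm_real] at cmb
    rw [norm_mul, norm_pow, Real.norm_of_nonneg (ht0 n)]
    calc t n ^ A * ‖∫ z, ψ z * (f n z * ∏ i, g i n z ^ a i) / z.im ^ 2‖
        ≤ t n ^ A * (Q * ((m n : ℝ) + 1) ^ M * (α ^ M + β ^ (m n))) := by gcongr
      _ = _ := by
          have eq1 : q ^ (J + 1) = C0 ^ (J + 1) * y ^ (2 * (J + 1)) * (1 + t n) ^ (2 * (J + 1)) := by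
            rw [hq, mul_pow, mul_pow, ← pow_mul, ← pow_mul]
          rw [hQ, hR, eq1]
          generalize C0 ^ (J + 1) = X1
          generalize y ^ (2 * (J + 1)) = X2
          generalize (1 + t n) ^ (2 * (J + 1)) = X3
          ring
  have h11 := hlim.const_mul R
  rw [mul_zero] at h11
  exact squeeze_zero_norm' key h11

end

end Pool.Agent.K1H18.NR
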