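import Pool.Agent.K1H18.NR.Defs

set_option autoImplicit false

namespace Pool.Agent.K1H18.NR

open MeasureTheory Filter Topology Complex
open scoped ContDiff

noncomputable section

lemma fd_re {u : ℂ → ℝ} {z : ℂ} (hu : DifferentiableAt ℝ u z) (v : ℂ) :
    fderiv ℝ (fun w => (u w : ℂ)) z v = ((fderiv ℝ u z v : ℝ) : ℂ) := by
  have h1 : HasFDerivAt (fun w => (u w : ℂ)) (ofRealCLM.comp (fderiv ℝ u z)) z :=
    ofRealCLM.hasFDerivAt.comp z hu.hasFDerivAt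
  rw [h1.fderiv]; rfl

lemma fd2_re {u : ℂ → ℝ} (hu : ContDiffOn ℝ ∞ u HP) {z : ℂ} (hz : z ∈ HP) (v : ℂ) :
    fderiv ℝ (fun w => fderiv ℝ (fun w' => (u w' : ℂ)) w v) z v =
      ((fderiv ℝ (fun w => fderiv ℝ u w v) z v : ℝ) : ℂ) := by
  have HPo : IsOpen HP := isOpen_lt continuous_const continuous_im
  have hd : ∀ w ∈ HP, DifferentiableAt ℝ u w := fun w hw =>
    ((hu.contDiffAt (HPo.mem_nhds hw)).differentiableAt (by simp))
  have e1 : (fun w => fderiv ℝ (fun w' => (u w' : ℂ)) w v) =ᶠ[𝓝 z]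
      fun w => ((fderiv ℝ u w v : ℝ) : ℂ) := by
    filter_upwards [HPo.mem_nhds hz] with w hw
    exact fd_re (hd w hw) v
  rw [e1.fderiv_eq]
  apply fd_re
  have h2 : ContDiffOn ℝ ∞ (fun w => fderiv ℝ u w v) HP :=
    (hu.fderiv_of_isOpen HPo (m := ∞) le_rfl).clm_apply contDiffOn_const
  exact (h2.contDiffAt (HPo.mem_nhds hz)).differentiableAt (by simp)

lemma lap_re {u : ℂ → ℝ} (hu : ContDiffOn ℝ ∞ u HP) {z : ℂ} (hz : z ∈ HP) :
    px (px (fun w => (u w : ℂ))) z + py (py (fun w => (u w : ℂ))) z =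
      ((fderiv ℝ (fun w => fderiv ℝ u w 1) z 1 + fderiv ℝ (fun w => fderiv ℝ u w I) z I : ℝ) : ℂ) := by
  have h1 := fd2_re hu hz 1
  have h2 := fd2_re hu hz I
  push_cast
  rw [← h1, ← h2]
  rfl

end

end Pool.Agent.K1H18.NR
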